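import Pool.Agent.Lib.MP_33b3f9_ag.MG.C1.Defs
import Pool.Agent.Lib.MP_33b3f9_ag.M4.G.Lag
import Pool.Agent.Lib.MP_33b3f9_ag.M5.FOne

/-!
The subgroups attached to lines are Lagrangian; stable lines at split primes.
-/

set_option autoImplicit false

noncomputable section

namespace MG

open Matrix Finset M4 Pool.Agent.M4 Pool.Agent.M4.Mx

variable [Dim] {e : ℕ} {a b : MZ} {m n : ℕ} {L : Type} [Field L] {l₁ : ℕ}
  {K : IntermediateField ℚ ℂ}

namespace Fm

variable {R : Type} [CommRing R] (F : Fm e a b R)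

theorem slot_raw (X : Fin e → Fin 2 → M8 R) (x : ν → R) (s : Fin e) (c : Fin 2) :
    (fun i => (F.z.S' *ᵥ F.z.em2 X *ᵥ x) ((i, c), s)) =
      X s c *ᵥ fun i => (F.z.S' *ᵥ x) ((i, c), s) := by
  have h : F.z.S' * F.z.em2 X = (blockDiagonal fun s => blockDiagonal (X s)) * F.z.S' := by
    rw [Mor.em2_apply, Mor.bm_apply, ← Matrix.mul_assoc, ← Matrix.mul_assoc, F.z.inv',
      Matrix.one_mul]
  rw [mulVec_mulVec, h, ← mulVec_mulVec]
  generalize F.z.S' *ᵥ x = y
  funext i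
  simp [mulVec, dotProduct, Fintype.sum_prod_type, blockDiagonal_apply]

theorem co_T2 (h : Fin e → Fin 2 → Fin 3 → M2 R) (x : ν → R) (s : Fin e) (c : Fin 2) :
    F.co (F.T2 h *ᵥ x) s c = tp (h s c) *ᵥ F.co x s c := by
  rw [co, co, T2, slot_raw, Fr.T, mulVec_mulVec, mulVec_mulVec, ← Matrix.mul_assoc,
    ← Matrix.mul_assoc, (F.f s).qp, Matrix.one_mul]

theorem co_eq_zero {x : ν → R} (h : ∀ s c, F.co x s c = 0) : x = 0 := by
  have h1 : F.z.S' *ᵥ x = 0 := funext fun ⟨⟨i, c⟩, s⟩ => by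
    have h2 := congrArg ((F.f s).P *ᵥ ·) (h s c)
    simp only [co, mulVec_mulVec, (F.f s).pq, one_mulVec, mulVec_zero] at h2
    exact congrFun h2 i
  rw [← one_mulVec x, ← F.z.inv, ← mulVec_mulVec, h1, mulVec_zero]

theorem co_inj {x y : ν → R} (h : ∀ s c, F.co x s c = F.co y s c) : x = y :=
  add_neg_eq_zero.1 (F.co_eq_zero fun s c => by rw [co_add, co_neg, h, add_neg_cancel])

theorem co_surj (y : Fin e → Fin 2 → κ → R) : ∃ x, ∀ s c, F.co x s c = y s c := by
  refine ⟨F.z.S *ᵥ fun p => ((F.f p.2).P *ᵥ y p.2 p.1.2) p.1.1, fun s c => ?_⟩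
  rw [co, mulVec_mulVec, F.z.inv', one_mulVec]
  exact (mulVec_mulVec _ _ _).trans (by rw [(F.f s).qp, one_mulVec])

end Fm

namespace C1

variable {F : Frs e a b L l₁} {r : Rep K}

omit [Dim] in
theorem slot_tp_zero {R : Type} [CommRing R] {h : Fin 3 → M2 R} {i : Fin 3} (hi : h i = 0) :
    tp h = 0 := by
  ext p q
  rw [tp_apply]
  exact prod_eq_zero (mem_univ i) (by rw [hi]; rfl)

theorem slot_smul {l : ℕ} [Fact l.Prime] (F : Fm e a b (ZMod l)) (q : Fin e × Fin 3)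
    (w : Fin 2 → ZMod l) {c : ZMod l} (hc : c ≠ 0) : slot F q (c • w) = slot F q w := by
  have h : ∀ v, wd (c • w) v = 0 ↔ wd w v = 0 := fun v => by
    rw [show wd (c • w) v = c * wd w v by simp only [wd, Pi.smul_apply, smul_eq_mul]; ring,
      mul_eq_zero, or_iff_right hc]
  ext x
  exact and_congr_left fun _ => forall_congr' fun _ => forall_congr' fun _ => h _

theorem slot_lag {l : ℕ} [Fact l.Prime] {G : AddSubgroup (ν → ℤ)} {N N' : Matrix ν ν (ZMod l)}
    (hadj : Nᵀ * J ι (ZMod l) = J ι (ZMod l) * N')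
    (m1 : ∀ x, x ∈ G ↔ N' *ᵥ (fun j => (x j : ZMod l)) = 0)
    (m2 : ∀ x, x ∈ G ↔ ∃ z, (fun j => (x j : ZMod l)) = N *ᵥ z) : Lag l G := by
  have m3 : ∀ x y : ν → ℤ, (l : ℤ) ∣ x ⬝ᵥ J ι ℤ *ᵥ y ↔
      (fun j => (x j : ZMod l)) ⬝ᵥ J ι (ZMod l) *ᵥ (fun j => (y j : ZMod l)) = 0 := fun x y => by
    rw [← ZMod.intCast_zmod_eq_zero_iff_dvd]
    have h2 : ∀ a b, ((J ι ℤ a b : ℤ) : ZMod l) = J ι (ZMod l) a b := fun a b => by
      rcases a with a | a <;> rcases b with b | b <;> simp [J, one_apply, apply_ite]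
    simp only [dotProduct, mulVec, Int.cast_sum, Int.cast_mul, h2]
  have m4 : ∀ z y : ν → ZMod l, (N *ᵥ z) ⬝ᵥ J ι (ZMod l) *ᵥ y =
      z ⬝ᵥ J ι (ZMod l) *ᵥ N' *ᵥ y := fun z y => by
    rw [← vecMul_transpose, ← dotProduct_mulVec, mulVec_mulVec, hadj, mulVec_mulVec]
  intro y
  constructor
  · intro hy x hx
    obtain ⟨z, hz⟩ := (m2 x).1 hx
    rw [m3, hz, m4, (m1 y).1 hy, mulVec_zero, dotProduct_zero]
  · intro hy
    have h2 : J ι (ZMod l) *ᵥ N' *ᵥ (fun j => (y j : ZMod l)) = 0 := by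
      refine dotProduct_eq_zero _ fun z => ?_
      have e : (fun j => (((N *ᵥ z) j).cast : ℤ) : ν → ZMod l) = N *ᵥ z := by
        funext i
        simp
      have h3 := (m3 _ y).1 (hy (fun j => ((N *ᵥ z) j).cast) ((m2 _).2 ⟨z, e⟩))
      rw [e, m4] at h3
      rw [dotProduct_comm, h3]
    have h4 := congrArg (fun u => J ι (ZMod l) *ᵥ u) h2
    simp only [mulVec_zero] at h4
    rw [mulVec_mulVec, J_squared, neg_mulVec, one_mulVec, neg_eq_zero] at h4
    exact (m1 y).2 h4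

theorem lag_slot {l : ℕ} [Fact l.Prime] (F : Fm e a b (ZMod l)) (q : Fin e × Fin 3)
    {w : Fin 2 → ZMod l} (hw : w ≠ 0) : Lag l (slot F q w) := by
  obtain ⟨u, hu0, hu1⟩ : ∃ u : Fin 2 → ZMod l, u 0 = -w 1 ∧ u 1 = w 0 := ⟨![-w 1, w 0], rfl, rfl⟩
  have hu : u ≠ 0 := fun h => hw (by
    rw [h] at hu0 hu1
    funext t
    fin_cases t
    · exact hu1.symm
    · exact neg_eq_zero.1 hu0.symm)
  have hI : ∀ y, InL q.2 w y ↔ ∀ i, ∑ t, u t * y (Function.update i q.2 t) = 0 := fun y =>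
    forall_congr' fun i => by
      rw [Fin.sum_univ_two, hu0, hu1, wd]
      constructor <;> intro h <;> linear_combination h
  have hv : ∃ t, w t ≠ 0 := Function.ne_iff.1 hw
  have hadj : adjugate (vecMulVec ![-u 1, u 0] u) = vecMulVec w u := by
    ext i j
    fin_cases i <;> fin_cases j <;> simp [adjugate_fin_two, vecMulVec_apply, hu0, hu1, mul_comm]
  let h : Fin e → Fin 2 → Fin 3 → M2 (ZMod l) := fun s c =>
    if s = q.1 then Function.update 1 q.2 (vecMulVec ![-u 1, u 0] u) else if c = 0 then 1 else 0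
  let h' : Fin e → Fin 2 → Fin 3 → M2 (ZMod l) := fun s c =>
    if s = q.1 then Function.update 1 q.2 (vecMulVec w u) else if c = 0 then 0 else 1
  have t0 : tp (0 : Fin 3 → M2 (ZMod l)) = 0 := slot_tp_zero (i := 0) rfl
  refine slot_lag (N := F.T2 h) (N' := F.T2 h') ?_ (fun x => ?_) fun x => ?_
  · have h1 := (F.z.form_iff2 (fun s c => (F.f s).T (h s c)) 1 fun s c => (F.f s).T (h' s c)).2
      fun s c => by
        rw [Pi.one_apply, Pi.one_apply, Matrix.mul_one]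
        by_cases hs : s = q.1
        · simp only [h, h', if_pos hs]
          rw [← Fr.u_apply, ← Fr.u_apply, F.adj, hadj]
        · fin_cases c <;> simp [h, h', hs, Fr.T, t0, Mx.tp_one, (F.f s).pq]
    rwa [map_one, Matrix.mul_one] at h1
  · change (_ ∧ _) ↔ _
    generalize (fun j => (x j : ZMod l)) = y
    constructor
    · rintro ⟨h1, h2⟩
      refine F.co_eq_zero fun s c => ?_
      rw [Fm.co_T2]
      by_cases hs : s = q.1
      · subst hs
        funext i
        simp only [h', if_true]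
        rw [M4.G.tp_rank_one, (hI _).1 (h1 c) i, mul_zero, Pi.zero_apply]
      · fin_cases c
        · simp [h', hs, t0]
        · simp [h2 s hs]
    · intro h1
      have h2 := fun s c => F.co_T2 h' y s c
      simp only [h1, Fm.co_zero] at h2
      refine ⟨fun c => (hI _).2 fun i => ?_, fun s hs => ?_⟩
      · obtain ⟨t, ht⟩ := hv
        have h3 := congrFun (h2 q.1 c) (Function.update i q.2 t)
        simp only [h', if_true] at h3
        rw [M4.G.tp_rank_one] at h3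
        simp only [Function.update_self, Function.update_idem, Pi.zero_apply] at h3
        exact (mul_eq_zero.1 h3.symm).resolve_left ht
      · simpa [h', hs, Mx.tp_one] using (h2 s 1).symm
  · change (_ ∧ _) ↔ _
    generalize (fun j => (x j : ZMod l)) = y
    constructor
    · rintro ⟨h1, h2⟩
      choose v hv using fun c => (M4.G.ker_eq_im q.2 hu _).1 ((hI _).1 (h1 c))
      obtain ⟨z, hz⟩ := F.co_surj fun s c => if s = q.1 then v c else F.co y s c
      refine ⟨z, F.co_inj fun s c => ?_⟩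
      rw [Fm.co_T2, hz]
      by_cases hs : s = q.1
      · subst hs
        simp only [h, if_true]
        exact hv c
      · fin_cases c
        · simp [h, hs, Mx.tp_one]
        · simp [h, hs, t0, h2 s hs]
    · rintro ⟨z, rfl⟩
      refine ⟨fun c => (hI _).2 ((M4.G.ker_eq_im q.2 hu _).2 ⟨F.co z q.1 c, ?_⟩), fun s hs => ?_⟩
      · rw [Fm.co_T2]
        simp only [h, if_true]
      · rw [Fm.co_T2]
        simp [h, hs, t0]

omit [Dim] in
theorem slot_eig {k : Type} [Field k] (h2 : (2 : k) ≠ 0) (M : M2 k)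
    (h : IsSquare (M.trace ^ 2 - 4 * M.det)) : ∃ p : Option k, wd (vec p) (M *ᵥ vec p) = 0 := by
  obtain ⟨d, hd⟩ := h
  rw [trace_fin_two, det_fin_two] at hd
  by_cases h0 : M 1 0 = 0
  · exact ⟨none, by simp [wd, vec, mulVec, dotProduct, h0]⟩
  · obtain ⟨t, ht⟩ : ∃ t, 2 * M 1 0 * t = M 0 0 - M 1 1 + d :=
      ⟨_, mul_div_cancel₀ _ (mul_ne_zero h2 h0)⟩
    refine ⟨some t, mul_left_cancel₀ (mul_ne_zero h2 (mul_ne_zero h2 h0)) ?_⟩
    simp only [wd, vec, mulVec, dotProduct, Fin.sum_univ_two, cons_val_zero, cons_val_one]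
    linear_combination (2 * M 1 0 * t - M 0 0 + M 1 1 + d) * ht - hd

theorem split (hS : Sys F r) {σ : ℂ ≃ₐ[K] ℂ} (l : GP L l₁)
    (h : ∀ h, (r l.1 σ : Matrix ν ν ℤ_[l.1]) = (F l).T h → ∃ s i, IsSquare
      (((h s i).map PadicInt.toZMod).trace ^ 2 - 4 * ((h s i).map PadicInt.toZMod).det)) :
    ∃ (q : Fin e × Fin 3) (w : P1 l.1), Mv F r l q σ w w := by
  obtain ⟨g, hg⟩ := hS.im l σ
  have h2 : (2 : ZMod l.1) ≠ 0 := fun h0 => by
    have h1 : l.1 ∣ 2 := (ZMod.natCast_eq_zero_iff 2 l.1).1 (by exact_mod_cast h0)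
    have h3 := (Nat.prime_dvd_prime_iff_eq l.2.1 Nat.prime_two).1 h1
    have h4 := hS.l32 l
    rw [h3] at h4
    exact absurd h4 (by decide)
  have hne : ∀ s i, (g s i).map PadicInt.toZMod ≠ 0 := fun s i h0 => by
    obtain ⟨x, hx⟩ := (F.red l).co_surj fun _ _ _ => 1
    have h1 := congrArg (fun X : Matrix ν ν ℤ_[l.1] => X.map PadicInt.toZMod *ᵥ x)
      (r l.1 σ).mul_inv
    simp only [Matrix.map_mul, hg, Fm.T_eq, Fm.map_T2, ← mulVec_mulVec,
      Matrix.map_one _ (map_zero _) (map_one _), one_mulVec] at h1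
    have h3 := hx s 0
    rw [← h1] at h3
    have h4 := (Fm.co_T2 _ _ _ s 0).symm.trans h3
    rw [slot_tp_zero (i := i) h0, zero_mulVec] at h4
    exact zero_ne_one (congrFun h4 0)
  obtain ⟨s, i, hsq⟩ := h g hg
  obtain ⟨w, hw⟩ := slot_eig h2 _ hsq
  refine ⟨(s, i), w, fun g' hg' => ?_⟩
  have h1 := congrArg (fun X : Matrix ν ν ℤ_[l.1] => X.map PadicInt.toZMod) (hg.symm.trans hg')
  simp only [Fm.map_T] at h1
  obtain ⟨c, -, hc⟩ := M5.T_unique _ (congrFun (Mor.em_inj _ h1) s) (hne s) i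
  have h3 : (g' s i).map PadicInt.toZMod = c • (g s i).map PadicInt.toZMod := hc
  rw [h3, smul_mulVec]
  simp only [wd, Pi.smul_apply, smul_eq_mul] at hw ⊢
  linear_combination c * hw

end C1

end MG
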