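import Pool.Agent.Lib.MP_33b3f9_ag.MG.C1.Defs
import Pool.Agent.Lib.MP_33b3f9_ag.M4.G.Trans
import Pool.Agent.Lib.MP_33b3f9_ag.M5.FOne

/-!
Case I: the Galois group is transitive on tuples of lines.
-/

set_option autoImplicit false

noncomputable section

namespace MG.C1

open Matrix Finset M4 Pool.Agent.M4.Mx

theorem exists_vec {l : ℕ} [Fact l.Prime] {w : Fin 2 → ZMod l} (hw : w ≠ 0) :
    ∃ (p : P1 l) (c : ZMod l), c ≠ 0 ∧ w = c • vec p := by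
  by_cases h : w 1 = 0
  · refine ⟨none, w 0, fun h0 => hw ?_, ?_⟩
    · funext i
      fin_cases i
      · exact h0
      · exact h
    · funext i
      fin_cases i
      · simp [vec]
      · simp [vec, h]
  · refine ⟨some (w 0 / w 1), w 1, h, ?_⟩
    funext i
    fin_cases i
    · simp [vec, mul_div_cancel₀ _ h]
    · simp [vec]

theorem vec_inj {l : ℕ} [Fact l.Prime] {p p' : P1 l} (h : wd (vec p) (vec p') = 0) : p = p' := by
  cases p <;> cases p' <;> simp [wd, vec, sub_eq_zero] at h ⊢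
  exact h

theorem g2_ne {l : ℕ} [Fact l.Prime] (p : P1 l) : vec p ≠ 0 := fun h => by
  cases p
  · simpa [vec] using congrFun h 0
  · simpa [vec] using congrFun h 1

theorem g2_smul {R : Type} [CommRing R] (v w : Fin 2 → R) (c : R) : wd v (c • w) = c * wd v w := by
  simp only [wd, Pi.smul_apply, smul_eq_mul]
  ring

theorem g2_self {R : Type} [CommRing R] (v : Fin 2 → R) : wd v v = 0 := by
  rw [wd, mul_comm, sub_self]

theorem g2_line {l : ℕ} [Fact l.Prime] {p : P1 l} {w : Fin 2 → ZMod l} (hw : w ≠ 0)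
    (h : wd (vec p) w = 0) : ∃ c : ZMod l, w = c • vec p := by
  obtain ⟨p', c, hc, rfl⟩ := exists_vec hw
  rw [g2_smul] at h
  rw [vec_inj ((mul_eq_zero.1 h).resolve_left hc)]
  exact ⟨c, rfl⟩

theorem g2_unip {l : ℕ} {N : M2 (ZMod l)} (h : N * N = 0) : (1 + N) ^ l = 1 := by
  have key : ∀ n : ℕ, (1 + N) ^ n = 1 + (n : ZMod l) • N := fun n => by
    induction n with
    | zero => simp
    | succ n ih =>
      rw [pow_succ, ih, mul_add, mul_one, add_mul, one_mul, smul_mul_assoc, h, smul_zero, add_zero,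
        Nat.cast_succ, add_smul, one_smul, add_assoc]
  rw [key, ZMod.natCast_self, zero_smul, add_zero]

variable [Dim] {e : ℕ} {a b : MZ} {m n : ℕ} {L : Type} [Field L] {l₁ : ℕ}
  {K : IntermediateField ℚ ℂ} {F : Frs e a b L l₁} {r : Rep K}

theorem g2_mul {R : Type} [CommRing R] (G : Fm e a b R) (h k : Fin e → Fin 3 → M2 R) :
    G.T h * G.T k = G.T (h * k) := G.T2_mul _ _

theorem g2_one {R : Type} [CommRing R] (G : Fm e a b R) : G.T 1 = 1 := G.T2_one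

theorem g2_uniq {l : GP L l₁} {h k : Fin e → Fin 3 → M2 ℤ_[l.1]} (e1 : (F l).T h = (F l).T k)
    (s : Fin e) (h0 : ∀ i, (h s i).map PadicInt.toZMod ≠ 0) (i : Fin 3) :
    ∃ c : ZMod l.1, c ≠ 0 ∧ (k s i).map PadicInt.toZMod = c • (h s i).map PadicInt.toZMod := by
  have e2 := congrArg (fun g : Matrix ν ν ℤ_[l.1] => g.map (PadicInt.toZMod (p := l.1))) e1
  simp only [Fm.map_T] at e2
  exact M5.T_unique _ (congrFun (Mor.em_inj _ e2) s) h0 i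

theorem g2_rmul {l : GP L l₁} {σ σ' : ℂ ≃ₐ[K] ℂ} {h k : Fin e → Fin 3 → M2 ℤ_[l.1]}
    (e1 : (r l.1 σ : Matrix ν ν ℤ_[l.1]) = (F l).T h)
    (e2 : (r l.1 σ' : Matrix ν ν ℤ_[l.1]) = (F l).T k) :
    (r l.1 (σ * σ') : Matrix ν ν ℤ_[l.1]) = (F l).T (h * k) := by
  rw [map_mul, Units.val_mul, e1, e2, g2_mul]

theorem g2_rone (l : GP L l₁) : (r l.1 1 : Matrix ν ν ℤ_[l.1]) = (F l).T 1 := by
  rw [map_one, Units.val_one, g2_one]

theorem g2_rpow {l : GP L l₁} {σ : ℂ ≃ₐ[K] ℂ} {h : Fin e → Fin 3 → M2 ℤ_[l.1]}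
    (e1 : (r l.1 σ : Matrix ν ν ℤ_[l.1]) = (F l).T h) (j : ℕ) :
    (r l.1 (σ ^ j) : Matrix ν ν ℤ_[l.1]) = (F l).T (h ^ j) := by
  induction j with
  | zero => rw [pow_zero, pow_zero, g2_rone]
  | succ j ih => rw [pow_succ, pow_succ, g2_rmul ih e1]

theorem g2_inv (hS : Sys F r) {l : GP L l₁} {σ : ℂ ≃ₐ[K] ℂ} {h : Fin e → Fin 3 → M2 ℤ_[l.1]}
    (e1 : (r l.1 σ : Matrix ν ν ℤ_[l.1]) = (F l).T h) (s : Fin e) (i : Fin 3)
    {w : Fin 2 → ZMod l.1} (hw : w ≠ 0) : (h s i).map PadicInt.toZMod *ᵥ w ≠ 0 := fun h0 => by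
  obtain ⟨k, e2⟩ := hS.im l σ⁻¹
  have e3 := g2_rmul e2 e1
  rw [inv_mul_cancel, g2_rone (F := F)] at e3
  have e4 : ∀ t, ((1 : Fin e → Fin 3 → M2 ℤ_[l.1]) s t).map (PadicInt.toZMod (p := l.1)) = 1 :=
    fun t => Matrix.map_one _ (map_zero _) (map_one _)
  obtain ⟨c, hc, e5⟩ := g2_uniq e3 s (fun t => by rw [e4]; exact one_ne_zero) i
  rw [e4, Pi.mul_apply, Pi.mul_apply, Matrix.map_mul] at e5
  have e6 := congrArg (· *ᵥ w) e5
  simp only [← mulVec_mulVec, h0, mulVec_zero, smul_mulVec, one_mulVec] at e6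
  exact smul_ne_zero hc hw e6.symm

theorem g2_iff (hS : Sys F r) {l : GP L l₁} {σ : ℂ ≃ₐ[K] ℂ} {h : Fin e → Fin 3 → M2 ℤ_[l.1]}
    (e1 : (r l.1 σ : Matrix ν ν ℤ_[l.1]) = (F l).T h) (q : Fin e × Fin 3) (p p' : P1 l.1) :
    Mv F r l q σ p p' ↔ wd (vec p') ((h q.1 q.2).map PadicInt.toZMod *ᵥ vec p) = 0 := by
  refine ⟨fun H => H h e1, fun H k e2 => ?_⟩
  obtain ⟨c, -, e3⟩ := g2_uniq (e1.symm.trans e2) q.1
    (fun t h0 => g2_inv hS e1 q.1 t (g2_ne p) (by rw [h0, zero_mulVec])) q.2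
  rw [e3, smul_mulVec, g2_smul, H, mul_zero]

theorem Mv.ex (hS : Sys F r) (l : GP L l₁) (q : Fin e × Fin 3) (σ : ℂ ≃ₐ[K] ℂ) (p : P1 l.1) :
    ∃! p', Mv F r l q σ p p' := by
  obtain ⟨h, e1⟩ := hS.im l σ
  obtain ⟨p', c, hc, e2⟩ := exists_vec (g2_inv hS e1 q.1 q.2 (g2_ne p))
  refine ⟨p', (g2_iff hS e1 q p p').2 (by rw [e2, g2_smul, g2_self, mul_zero]), fun p'' H => ?_⟩
  have e3 := H h e1
  rw [e2, g2_smul] at e3
  exact vec_inj ((mul_eq_zero.1 e3).resolve_left hc)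

theorem Mv.one (hS : Sys F r) (l : GP L l₁) (q : Fin e × Fin 3) (p : P1 l.1) :
    Mv F r l q 1 p p := by
  rw [g2_iff hS (g2_rone l), Pi.one_apply, Pi.one_apply,
    Matrix.map_one _ (map_zero _) (map_one _), one_mulVec, g2_self]

theorem Mv.mul (hS : Sys F r) {l : GP L l₁} {q : Fin e × Fin 3} {σ σ' : ℂ ≃ₐ[K] ℂ}
    {p p' p'' : P1 l.1} (H' : Mv F r l q σ' p p') (H : Mv F r l q σ p' p'') :
    Mv F r l q (σ * σ') p p'' := by
  obtain ⟨h, e1⟩ := hS.im l σ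
  obtain ⟨k, e2⟩ := hS.im l σ'
  obtain ⟨c, e3⟩ := g2_line (g2_inv hS e2 q.1 q.2 (g2_ne p)) (H' k e2)
  rw [g2_iff hS (g2_rmul e1 e2), Pi.mul_apply, Pi.mul_apply, Matrix.map_mul, ← mulVec_mulVec, e3,
    mulVec_smul, g2_smul, H h e1, mul_zero]

/-- unipotent elements -/
theorem g2_gen (hS : Sys F r) (l : GP L l₁) (q : Fin e × Fin 3) {N : M2 (ZMod l.1)}
    (h0 : N * N = 0) (h1 : (1 + N).det = 1) {p p' : P1 l.1} (h2 : (1 + N) *ᵥ vec p = vec p') :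
    ∃ σ, (∀ w, Mv F r l q (σ ^ l.1) w w) ∧ Mv F r l q σ p p' := by
  obtain ⟨σ, h, e1, c, e2⟩ := hS.big l q _ h1
  refine ⟨σ, fun w => ?_, ?_⟩
  · rw [g2_iff hS (g2_rpow e1 _), Pi.pow_apply, Pi.pow_apply, ← RingHom.mapMatrix_apply, map_pow,
      RingHom.mapMatrix_apply, e2, smul_pow, g2_unip h0, smul_mulVec, one_mulVec, g2_smul, g2_self,
      mul_zero]
  · rw [g2_iff hS e1, e2, smul_mulVec, h2, g2_smul, g2_self, mul_zero]

theorem g2_to (hS : Sys F r) (l : GP L l₁) (q : Fin e × Fin 3) (p : P1 l.1) :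
    (∃ σ, (∀ w, Mv F r l q (σ ^ l.1) w w) ∧ Mv F r l q σ p (some 1)) ∧
      ∃ σ, (∀ w, Mv F r l q (σ ^ l.1) w w) ∧ Mv F r l q σ (some 1) p := by
  have u : ∀ x y : ZMod l.1, ∃ σ, (∀ w, Mv F r l q (σ ^ l.1) w w) ∧
      Mv F r l q σ (some x) (some y) := fun x y => by
    refine g2_gen hS l q (N := !![0, y - x; 0, 0]) ?_ ?_ ?_
    · ext i j
      fin_cases i <;> fin_cases j <;> simp
    · simp [det_fin_two]
    · ext i
      fin_cases i <;> simp [vec, mulVec, dotProduct, Fin.sum_univ_two]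
  cases p with
  | some x => exact ⟨u x 1, u 1 x⟩
  | none =>
    refine ⟨g2_gen hS l q (N := !![0, 0; 1, 0]) ?_ ?_ ?_,
      g2_gen hS l q (N := !![0, 0; -1, 0]) ?_ ?_ ?_⟩
    · ext i j
      fin_cases i <;> fin_cases j <;> simp
    · simp [det_fin_two]
    · ext i
      fin_cases i <;> simp [vec, mulVec, dotProduct, Fin.sum_univ_two]
    · ext i j
      fin_cases i <;> fin_cases j <;> simp
    · simp [det_fin_two]
    · ext i
      fin_cases i <;> simp [vec, mulVec, dotProduct, Fin.sum_univ_two]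

theorem g2 (hS : Sys F r) (A : Finset (GP L l₁)) (sl : GP L l₁ → Fin e × Fin 3)
    (p p' : ∀ l : GP L l₁, P1 l.1) : ∃ σ, ∀ l ∈ A, Mv F r l (sl l) σ (p l) (p' l) := by
  choose mv h1 h2 using fun l σ w => Mv.ex hS l (sl l) σ w
  have hZ : ∀ l : GP L l₁, (Set.range (Sigma.mk (β := fun l : GP L l₁ => P1 l.1) l)).ncard ≤
      l.1 + 1 := fun l => by
    have : NeZero l.1 := ⟨l.2.1.ne_zero⟩
    rw [← Set.image_univ]
    refine (Set.ncard_image_le (Set.toFinite _)).trans ?_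
    rw [Set.ncard_univ, Nat.card_eq_fintype_card, Fintype.card_option, ZMod.card]
  obtain ⟨σ, hσ⟩ := M4.G.trans_prod (ι := A) (W := Σ l : GP L l₁, P1 l.1)
    (fun _ σ w => ⟨w.1, mv w.1 σ w.2⟩) (fun i => Set.range (Sigma.mk i.1)) (fun i => i.1.1)
    (fun i => i.1.2.1) (fun i j h => Subtype.ext (Subtype.ext h))
    (fun i => by
      have : NeZero i.1.1 := ⟨i.1.2.1.ne_zero⟩
      exact Set.finite_range _)
    (fun i z _ => congrArg (Sigma.mk z.1) (h2 _ _ _ _ (Mv.one hS _ _ _)).symm)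
    (fun i σ σ' z => congrArg (Sigma.mk z.1)
      (h2 _ _ _ _ (Mv.mul hS (h1 _ σ' z.2) (h1 _ σ _))).symm)
    (by
      rintro i σ _ ⟨w, rfl⟩
      exact ⟨_, rfl⟩)
    (fun i j hij => by
      have a1 := hZ j.1
      have a2 : i.1.1 % 32 = 1 := hS.l32 i.1
      have a3 : j.1.1 % 32 = 1 := hS.l32 j.1
      omega)
    (by
      rintro i _ ⟨w, rfl⟩ _ ⟨w', rfl⟩
      obtain ⟨σ, a1, a2⟩ := (g2_to hS i.1 (sl i.1) w).1
      obtain ⟨σ', a3, a4⟩ := (g2_to hS i.1 (sl i.1) w').2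
      refine ⟨σ' * σ, mul_mem (Subgroup.subset_closure ?_) (Subgroup.subset_closure ?_),
        congrArg (Sigma.mk i.1) (h2 _ _ _ _ (Mv.mul hS a2 a4)).symm⟩
      · rintro _ ⟨u, rfl⟩
        exact congrArg (Sigma.mk i.1) (h2 _ _ _ _ (a3 u)).symm
      · rintro _ ⟨u, rfl⟩
        exact congrArg (Sigma.mk i.1) (h2 _ _ _ _ (a1 u)).symm)
    (fun i => ⟨i.1, p i.1⟩) (fun i => ⟨i.1, p' i.1⟩) (fun i => ⟨_, rfl⟩) (fun i => ⟨_, rfl⟩)
  refine ⟨σ, fun l hl => ?_⟩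
  have a1 : mv l σ (p l) = p' l := sigma_mk_injective (β := fun l : GP L l₁ => P1 l.1) (hσ ⟨l, hl⟩)
  exact a1 ▸ h1 l σ (p l)

end MG.C1
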