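import Pool.Agent.Lib.MP_33b3f9_ag.MG.C1.Defs

/-!
Counting tuples by their supports.
-/

set_option autoImplicit false
set_option linter.unusedSectionVars false

noncomputable section

namespace MG.C1

open Finset

variable {Λ : Type} [Fintype Λ] [DecidableEq Λ] {P : Λ → Type} [∀ l, Fintype (P l)]
  [∀ l, DecidableEq (P l)]

/-- The tuples with support `A` and values in `B`. -/
def box (A : Finset Λ) (B : ∀ l, Finset (P l)) : Finset (∀ l, Option (P l)) :=
  Fintype.piFinset fun l => if l ∈ A then (B l).map Function.Embedding.some else {none}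

omit [∀ l, Fintype (P l)] [∀ l, DecidableEq (P l)] in
theorem mem_box {A : Finset Λ} {B : ∀ l, Finset (P l)} {y : ∀ l, Option (P l)} :
    y ∈ box A B ↔ sup y = A ∧ ∀ l w, y l = some w → w ∈ B l := by
  simp only [box, Fintype.mem_piFinset, sup, Finset.ext_iff, mem_filter, mem_univ, true_and,
    ← forall_and]
  refine forall_congr' fun l => ?_
  cases y l <;> by_cases h : l ∈ A <;> simp [h]

omit [∀ l, Fintype (P l)] [∀ l, DecidableEq (P l)] in
theorem card_box (A : Finset Λ) (B : ∀ l, Finset (P l)) :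
    (box A B).card = ∏ l ∈ A, (B l).card := by
  rw [box, Fintype.card_piFinset]
  simp only [apply_ite Finset.card, card_map, card_singleton]
  rw [prod_ite_mem, univ_inter]

omit [∀ l, DecidableEq (P l)] in
theorem card_sup (A : Finset Λ) : (univ.filter fun y : ∀ l, Option (P l) => sup y = A).card =
    ∏ l ∈ A, Fintype.card (P l) := by
  refine Eq.trans (congrArg card ?_) (card_box A fun _ => univ)
  ext y
  simp [mem_box]

omit [∀ l, DecidableEq (P l)] in
theorem card_TT (s : ℕ) :
    (TT P s).card = ∑ A ∈ powersetCard s (univ : Finset Λ), ∏ l ∈ A, Fintype.card (P l) := by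
  rw [card_eq_sum_card_fiberwise (f := sup) (t := powersetCard s univ) fun y hy => by
    simpa [TT] using hy]
  refine sum_congr rfl fun A hA => ?_
  rw [← card_sup]
  congr 1
  ext y
  simp only [TT, mem_filter, mem_univ, true_and, and_iff_right_iff_imp]
  rintro rfl
  exact (mem_powersetCard.1 hA).2

omit [Fintype Λ] in
theorem half {A : Finset Λ} {b c : Λ → ℕ} {d Y : ℕ} (h1 : ∀ l, Y ≤ c l) (h2 : ∀ l ∈ A, b l ≤ c l)
    (h3 : ∀ l ∈ A, c l ≤ b l + d) (h : 2 * (d * A.card) ≤ Y) :
    ∏ l ∈ A, c l ≤ 2 * ∏ l ∈ A, b l := by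
  have k : Y * ∏ l ∈ A, c l ≤ Y * ∏ l ∈ A, b l + d * A.card * ∏ l ∈ A, c l := by
    clear h
    induction A using Finset.induction_on with
    | empty => simp
    | insert l A hl ih =>
      have i := Nat.mul_le_mul_left (b l)
        (ih (fun x hx => h2 x (mem_insert_of_mem hx)) fun x hx => h3 x (mem_insert_of_mem hx))
      rw [prod_insert hl, prod_insert hl, card_insert_of_notMem hl]
      generalize ∏ l ∈ A, c l = C at i ⊢
      generalize ∏ l ∈ A, b l = B at i ⊢
      have i1 := Nat.mul_le_mul_left (Y * C) (h3 l (mem_insert_self _ _))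
      have i2 := Nat.mul_le_mul_left (d * C) (h1 l)
      have i3 := Nat.mul_le_mul_left (d * A.card * C) (h2 l (mem_insert_self _ _))
      nlinarith
  rcases Y.eq_zero_or_pos with rfl | hY
  · rcases Nat.mul_eq_zero.1 (show d * A.card = 0 by omega) with rfl | e
    · exact (prod_le_prod' h3).trans (Nat.le_mul_of_pos_left _ two_pos)
    · rw [card_eq_zero.1 e]
      simp
  · have := Nat.mul_le_mul_right (∏ l ∈ A, c l) h
    exact Nat.le_of_mul_le_mul_left (by nlinarith) hY

theorem sum_ins (c : Λ → ℕ) (t : ℕ) (l : Λ) :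
    ∑ A ∈ powersetCard (t + 1) (univ : Finset Λ) with l ∈ A, ∏ x ∈ A, c x =
      c l * ∑ A ∈ powersetCard t (univ : Finset Λ) with l ∉ A, ∏ x ∈ A, c x := by
  rw [mul_sum]
  refine sum_nbij' (fun A => A.erase l) (fun A => insert l A) ?_ ?_ ?_ ?_ ?_ <;>
    simp only [mem_filter, mem_powersetCard, subset_univ, true_and, and_imp]
  · intro A h1 h2
    simp [card_erase_of_mem h2, h1]
  · intro A h1 h2
    simp [card_insert_of_notMem h2, h1]
  · exact fun A _ h => insert_erase h
  · exact fun A _ h => erase_insert h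
  · exact fun A _ h => (mul_prod_erase A c h).symm

theorem sum_swap (S : Finset (Finset Λ)) (w : Finset Λ → ℕ) (L : Finset Λ) (p : Finset Λ → Λ → Prop)
    [∀ A l, Decidable (p A l)] :
    ∑ l ∈ L, ∑ A ∈ S with p A l, w A = ∑ A ∈ S, (L.filter (p A)).card * w A := by
  simp only [sum_filter, card_filter, sum_mul, ite_mul, one_mul, zero_mul]
  exact sum_comm

theorem sum_in (w : Finset Λ → ℕ) (t : ℕ) :
    ∑ l, ∑ A ∈ powersetCard t (univ : Finset Λ) with l ∈ A, w A =
      t * ∑ A ∈ powersetCard t (univ : Finset Λ), w A := by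
  rw [sum_swap _ w univ fun A l => l ∈ A, mul_sum]
  refine sum_congr rfl fun A hA => ?_
  rw [filter_mem_eq_inter, univ_inter, (mem_powersetCard.1 hA).2]

omit [∀ l, DecidableEq (P l)] in
theorem ratio_step {Y : ℕ} (hY : ∀ l, Y ≤ Fintype.card (P l)) (t : ℕ) :
    (TT P t).card * ((Fintype.card Λ - t) * Y) ≤ (t + 1) * (TT P (t + 1)).card := by
  rw [card_TT, card_TT, ← sum_in, ← mul_assoc, mul_comm _ Y, sum_mul]
  simp only [sum_ins]
  refine le_trans (le_of_eq ?_) (sum_le_sum fun l _ => Nat.mul_le_mul_right _ (hY l))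
  rw [← mul_sum, sum_swap _ _ univ fun A l => l ∉ A]
  refine congrArg _ (sum_congr rfl fun A hA => ?_)
  rw [mul_comm, ← (mem_powersetCard.1 hA).2, ← card_compl]
  congr 2
  ext x
  simp

theorem ratio {Y : ℕ} (hY : ∀ l, Y ≤ Fintype.card (P l)) {s j : ℕ}
    (hs : 2 * s ≤ Fintype.card Λ) (hj : j ≤ s) :
    (TT P (s - j)).card * (Fintype.card Λ * Y) ^ j ≤ (2 * s) ^ j * (TT P s).card := by
  induction j with
  | zero => simp
  | succ j ih =>
    have h := ratio_step hY (s - (j + 1))
    rw [show s - (j + 1) + 1 = s - j by omega] at h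
    have k : (TT P (s - (j + 1))).card * (Fintype.card Λ * Y) ≤ 2 * s * (TT P (s - j)).card :=
      calc _ ≤ (TT P (s - (j + 1))).card * (2 * (Fintype.card Λ - (s - (j + 1))) * Y) := by
            gcongr
            omega
        _ ≤ 2 * ((s - j) * (TT P (s - j)).card) := by linarith
        _ ≤ _ := by
            rw [mul_assoc]
            gcongr
            omega
    calc _ = (TT P (s - (j + 1))).card * (Fintype.card Λ * Y) * (Fintype.card Λ * Y) ^ j := by ring
      _ ≤ 2 * s * ((TT P (s - j)).card * (Fintype.card Λ * Y) ^ j) :=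
          (Nat.mul_le_mul_right _ k).trans_eq (mul_assoc _ _ _)
      _ ≤ 2 * s * ((2 * s) ^ j * (TT P s).card) := Nat.mul_le_mul_left _ (ih (by omega))
      _ = _ := by ring

theorem TT_pos (hY : ∀ l, 1 ≤ Fintype.card (P l)) {s : ℕ} (hs : s ≤ Fintype.card Λ) :
    0 < (TT P s).card := by
  rw [card_TT]
  exact sum_pos (fun A _ => prod_pos fun l _ => hY l) (powersetCard_nonempty.2 hs)

theorem dens_low {Y : ℕ} (h1 : ∀ l, Y ≤ Fintype.card (P l)) (h2 : ∀ l, Fintype.card (P l) ≤ 2 * Y)
    (y : ∀ l, Option (P l)) (hs : 2 * (sup y).card ≤ Y) (Lv : Finset Λ) (φ : ∀ l, P l) {j k : ℕ}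
    (hk : k ≤ (sup y ∩ Lv).card) :
    k.choose j * (univ.filter fun y' : ∀ l, Option (P l) => sup y' = sup y).card ≤
      2 * (2 * Y) ^ j * (univ.filter fun y' : ∀ l, Option (P l) => sup y' = sup y ∧
        j ≤ (Lv.filter fun l => y' l = some (φ l)).card).card := by
  generalize sup y = A at hs hk ⊢
  let B : Finset Λ → ∀ l, Finset (P l) := fun J l => if l ∈ J then {φ l} else univ.erase (φ l)
  have key : ∀ J ⊆ A, ∀ z ∈ box A (B J), ∀ l, l ∈ J ↔ z l = some (φ l) := fun J hJ z hz l => by
    obtain ⟨e, h⟩ := mem_box.1 hz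
    refine ⟨fun hl => ?_, fun hl => ?_⟩
    · obtain ⟨w, hw⟩ := Option.isSome_iff_exists.1 (mem_filter.1 (e ▸ hJ hl : l ∈ sup z)).2
      have := h l w hw
      simp only [B, if_pos hl, mem_singleton] at this
      rw [hw, this]
    · by_contra hn
      simpa [B, hn] using h l _ hl
  have sub : ∀ J ∈ powersetCard j (A ∩ Lv), J ⊆ A := fun J hJ =>
    (mem_powersetCard.1 hJ).1.trans inter_subset_left
  have one : ∀ J ∈ powersetCard j (A ∩ Lv),
      ∏ l ∈ A, Fintype.card (P l) ≤ 2 * (2 * Y) ^ j * (box A (B J)).card := fun J hJ => by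
    rw [card_box, ← prod_sdiff (sub J hJ), ← prod_sdiff (sub J hJ)]
    have e1 : ∏ l ∈ J, (B J l).card = 1 := prod_eq_one fun l hl => by simp [B, hl]
    have e2 : ∏ l ∈ J, Fintype.card (P l) ≤ (2 * Y) ^ j :=
      (mem_powersetCard.1 hJ).2 ▸ prod_le_pow_card _ _ _ fun l _ => h2 l
    have e3 := half (A := A \ J) (b := fun l => (B J l).card) (d := 1) h1
      (fun l _ => card_le_univ _) (fun l hl => by
        simp only [B, if_neg (mem_sdiff.1 hl).2, card_erase_add_one (mem_univ _), card_univ, le_rfl])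
      (by have := card_le_card (sdiff_subset (s := A) (t := J)); omega)
    rw [e1, mul_one, mul_right_comm]
    exact Nat.mul_le_mul e3 e2
  rw [card_sup]
  calc _ ≤ ∑ _J ∈ powersetCard j (A ∩ Lv), ∏ l ∈ A, Fintype.card (P l) := by
        rw [sum_const, card_powersetCard]
        exact Nat.mul_le_mul_right _ (Nat.choose_le_choose j hk)
    _ ≤ _ := sum_le_sum one
    _ = 2 * (2 * Y) ^ j * ((powersetCard j (A ∩ Lv)).biUnion fun J => box A (B J)).card := by
        rw [← mul_sum, card_biUnion fun J hJ J' hJ' ne => disjoint_left.2 fun z hz hz' =>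
          ne (Finset.ext fun l => (key J (sub J hJ) z hz l).trans (key J' (sub J' hJ') z hz' l).symm)]
    _ ≤ _ := by
        refine Nat.mul_le_mul_left _ (card_le_card fun z hz => ?_)
        obtain ⟨J, hJ, hz⟩ := mem_biUnion.1 hz
        refine mem_filter.2 ⟨mem_univ _, (mem_box.1 hz).1, ?_⟩
        rw [← (mem_powersetCard.1 hJ).2]
        exact card_le_card fun l hl => mem_filter.2
          ⟨(mem_inter.1 ((mem_powersetCard.1 hJ).1 hl)).2, (key J (sub J hJ) z hz l).1 hl⟩

end MG.C1
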