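import Pool.Agent.Lib.MP_33b3f9_ag.MG.C1.FDefs
import Pool.Agent.Lib.MP_33b3f9_ag.MG.C1.Ratio
import Pool.Agent.Lib.MP_33b3f9_ag.MG.C1.G2
import Pool.Agent.Lib.MP_33b3f9_ag.MG.Hb.Hilb

/-!
Case I: counting.
-/

set_option autoImplicit false

noncomputable section

namespace MG.C1

open Matrix Finset M4 Pool.Agent.M4.Det Pool.Agent.M4.Mx Function Polynomial

variable [Dim] {e : ℕ} {a b : MZ} {m n : ℕ} {L : Type} [Field L] {l₁ : ℕ}
  {K : IntermediateField ℚ ℂ} {r : Rep K} {τ : Mat} {F : Frs e a b L l₁}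
  {LY : Finset (GP L l₁)} {sl : GP L l₁ → Fin e × Fin 3} {Cp : ℕ}
  {y : MZ → ℕ → Bits → (ν → ℚ) → ℂ}

theorem card_SS_filter (Q : TL LY → Prop) [DecidablePred Q] (s : ℕ) :
    (univ.filter fun x : SS F LY s => Q (ln x.1)).card =
      ((TT (fun l : LY => P1 l.1.1) s).filter Q).card * ∏ l : LY, Fintype.card (X0 (F l.1)) := by
  rw [← Fintype.card_pi, ← card_univ, ← card_product]
  refine card_bij (fun x _ => (ln x.1, fun l => (x.1 l).2)) (fun x hx => ?_)
    (fun x _ x' _ h => ?_) fun p hp => ?_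
  · exact mem_product.2 ⟨mem_filter.2 ⟨mem_filter.2 ⟨mem_univ _, x.2⟩, (mem_filter.1 hx).2⟩,
      mem_univ _⟩
  · obtain ⟨h1, h2⟩ := Prod.mk.inj h
    exact Subtype.ext (funext fun l => Prod.ext (congrFun h1 l) (congrFun h2 l))
  · obtain ⟨h1, h2⟩ := mem_filter.1 (mem_product.1 hp).1
    exact ⟨⟨fun l => (p.1 l, p.2 l), (mem_filter.1 h1).2⟩, mem_filter.2 ⟨mem_univ _, h2⟩, rfl⟩

theorem card_SS (s : ℕ) : Fintype.card (SS F LY s) =
    (TT (fun l : LY => P1 l.1.1) s).card * ∏ l : LY, Fintype.card (X0 (F l.1)) := by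
  have h := card_SS_filter (F := F) (LY := LY) (fun _ => True) s
  rwa [filter_true, filter_true, card_univ] at h

omit [Dim] in
theorem card_P1 (l : GP L l₁) : Fintype.card (P1 l.1) = l.1 + 1 := by
  rw [Fintype.card_option, ZMod.card]

theorem card_SS_le {Y : ℕ} (hY : ∀ l ∈ LY, l.1 ≤ 2 * Y) (h2 : 2 ≤ Y) (hn : LY.card ≤ Y) (s : ℕ) :
    Fintype.card (SS F LY s) ≤ Y ^ ((3 + 8 * Fintype.card ν ^ 2) * Y) := by
  refine (Fintype.card_subtype_le _).trans ?_
  rw [Fintype.card_pi]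
  refine (prod_le_pow_card _ _ (Y ^ (3 + 8 * Fintype.card ν ^ 2)) fun l _ => ?_).trans ?_
  · have h1 := hY l.1 l.2
    have h3 : l.1.1 ≤ Y ^ 2 := by nlinarith
    have h4 : l.1.1 + 1 + 1 ≤ Y ^ 3 := by
      have : 2 * 2 * Y ≤ Y * Y * Y := Nat.mul_le_mul_right _ (Nat.mul_le_mul h2 h2)
      nlinarith
    rw [Fintype.card_prod, Fintype.card_option, card_P1, pow_add]
    refine Nat.mul_le_mul h4 (card_X0.trans ((Nat.pow_le_pow_left h3 _).trans_eq ?_))
    ring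
  · rw [← pow_mul, card_univ, Fintype.card_coe]
    exact Nat.pow_le_pow_right (by omega) (Nat.mul_le_mul_left _ hn)

omit [Dim] in
theorem MM_le {Y : ℕ} (hY : ∀ l ∈ LY, l.1 ≤ 2 * Y) (y : TL LY) :
    MM y ≤ (2 * Y) ^ (sup y).card := prod_le_pow_card _ _ _ fun l _ => hY l.1 l.2

omit [Dim] in
theorem MM_pos (y : TL LY) : 0 < MM y := prod_pos fun l _ => l.1.2.1.pos

omit [Dim] in
theorem le_NN {Y : ℕ} (hY : ∀ l ∈ LY, Y < l.1) : Y ^ LY.card ≤ NN LY :=
  pow_card_le_prod _ _ _ fun l hl => (hY l hl).le.trans (Nat.le_self_pow two_ne_zero _)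

theorem card_mv (hS : Sys F r) (mu : MUst r) {σ : ℂ ≃ₐ[K] ℂ} {x : XG F LY} {l : LY}
    {p p' : P1 l.1.1} (hx : ln x l = some p) (h : Mv F r l.1 (sl l.1) σ p p') :
    ln (aG hS mu sl LY σ x) l = some p' := by
  obtain ⟨k, hk⟩ := hS.im l.1 σ
  exact act_some (k := rK hS mu l.1 σ) hk (h k hk) hx

theorem card_inv (hS : Sys F r) (mu : MUst r) (σ : ℂ ≃ₐ[K] ℂ) {x x' : XG F LY}
    (h : ln x = ln x') : ln (aG hS mu sl LY σ x) = ln (aG hS mu sl LY σ x') := by
  funext l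
  cases hx : ln x l with
  | none => exact (act_none _ hx).trans (act_none _ (h ▸ hx : ln x' l = none)).symm
  | some p =>
    obtain ⟨p', h1, -⟩ := Mv.ex hS l.1 (sl l.1) σ p
    rw [card_mv hS mu hx h1, card_mv hS mu (h ▸ hx : ln x' l = some p) h1]

theorem card_range (hS : Sys F r) (mu : MUst r) (x : XG F LY) :
    (Set.range fun σ => ln (aG hS mu sl LY σ x)) = {y | sup y = sup (ln x)} := by
  refine Set.ext fun y => ⟨?_, fun hy => ?_⟩
  · rintro ⟨σ, rfl⟩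
    exact sup_aG hS mu σ x
  obtain ⟨σ, hσ⟩ := g2 hS LY sl (fun l => if h : l ∈ LY then (ln x ⟨l, h⟩).getD none else none)
    fun l => if h : l ∈ LY then (y ⟨l, h⟩).getD none else none
  refine ⟨σ, funext fun l => ?_⟩
  have h1 := hσ l.1 l.2
  have h2 : (y l).isSome ↔ (ln x l).isSome := by
    simpa [sup] using Finset.ext_iff.1 hy l
  simp only [SetLike.coe_mem, dite_true] at h1
  cases hx : ln x l with
  | none =>
    rw [hx] at h2
    exact (act_none _ hx).trans (Option.not_isSome_iff_eq_none.1 (by simpa using h2)).symm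
  | some p =>
    obtain ⟨p', h3⟩ := Option.isSome_iff_exists.1 (h2.2 (by rw [hx]; rfl))
    rw [hx, h3] at h1
    exact (card_mv hS mu hx h1).trans h3.symm

theorem dens_St (hS : Sys F r) (mu : MUst r) {Y s j k : ℕ}
    (hY : ∀ l ∈ LY, Y < l.1 ∧ l.1 ≤ 2 * Y) (hs : 2 * s ≤ Y) (x : SS F LY s) (Lp : Finset LY)
    (φ : ∀ l : LY, P1 l.1.1) (hk : k ≤ (sup (ln x.1) ∩ Lp).card) :
    (k.choose j : ℝ) / (2 * (2 * (Y + 1)) ^ j) ≤ Hb.dens (aS hS mu sl LY s) x (St F s Lp φ j) := by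
  have h1 := dens_low (P := fun l : LY => P1 l.1.1) (Y := Y + 1)
    (fun l => by rw [card_P1]; have := hY l.1 l.2; omega)
    (fun l => by rw [card_P1]; have := hY l.1 l.2; omega) (ln x.1) (by rw [x.2]; omega) Lp φ
    (j := j) hk
  have h2 : (Set.range fun σ => ln (aS hS mu sl LY s σ x).1) = {y | sup y = sup (ln x.1)} :=
    card_range hS mu x.1
  have h3 : 0 < (univ.filter fun y : TL LY => sup y = sup (ln x.1)).card :=
    card_pos.2 ⟨_, mem_filter.2 ⟨mem_univ _, rfl⟩⟩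
  rw [St, Hb.dens_comap (aS hS mu sl LY s) (fun x => ln x.1)
    (fun σ _ _ h => card_inv hS mu σ h), h2, show {y : TL LY | sup y = sup (ln x.1)} ∩ StT Lp φ j =
      ↑(univ.filter fun y : TL LY => sup y = sup (ln x.1) ∧
        j ≤ (Lp.filter fun l => y l = some (φ l)).card) by ext y; simp [StT],
    show {y : TL LY | sup y = sup (ln x.1)} =
      ↑(univ.filter fun y : TL LY => sup y = sup (ln x.1)) by ext y; simp,
    Set.ncard_coe_finset, Set.ncard_coe_finset,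
    div_le_div_iff₀ (by positivity) (by exact_mod_cast h3), mul_comm _ (2 * _ : ℝ)]
  exact_mod_cast h1

open Classical in
theorem card_SpL {Y x : ℕ} (hn : ∀ l ∈ LY, ∀ (q : Fin e × Fin 3) (d : Fin 3 → MZ)
      (w : Fin 3 → Fin 2 → ZMod l.1), (∀ i, DD F LY Y x (d i)) → (∀ i, Spec F l q (d i) (w i)) →
      ∃ i j, i ≠ j ∧ wd (w i) (w j) = 0) (l : LY) :
    (univ.filter (SpL F LY sl Y x l)).card ≤ 2 := by
  by_contra hc
  obtain ⟨t, ht, h3⟩ := exists_subset_card_eq (show 3 ≤ _ from not_le.1 hc)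
  let w : Fin 3 → P1 l.1.1 := fun i => (t.equivFinOfCardEq h3).symm i
  choose d h1 h2 using fun i => (mem_filter.1 (ht ((t.equivFinOfCardEq h3).symm i).2)).2
  obtain ⟨i, j, h4, h5⟩ := hn l.1 l.2 _ d (fun i => vec (w i)) h1 h2
  exact h4 ((t.equivFinOfCardEq h3).symm.injective (Subtype.ext (vec_inj h5)))

end MG.C1
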