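import Pool.Agent.Lib.MP_33b3f9_ag.MG.C1.Eq

/-!
Case I: integral models exist.
-/

set_option autoImplicit false

noncomputable section

namespace MG.C1

open Matrix Finset M4 Pool.Agent.M4.Det Pool.Agent.M4.Mx Function Polynomial

variable [Dim] {e : ℕ} {a b : MZ} {m n : ℕ} {L : Type} [Field L] {l₁ : ℕ}
  {K : IntermediateField ℚ ℂ} {r : Rep K} {τ : Mat} {F : Frs e a b L l₁}
  {LY : Finset (GP L l₁)} {sl : GP L l₁ → Fin e × Fin 3} {Cp : ℕ}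
  {y : MZ → ℕ → Bits → (ν → ℚ) → ℂ}

omit [Dim] in
theorem ch_inj : Injective fun k : LY => k.1.1 := fun _ _ h => Subtype.ext (Subtype.ext h)

omit [Dim] in
/-- Chinese remainders at the primes of `LY`. -/
theorem ch_crt (x : ∀ l : LY, ℤ_[l.1.1]) :
    ∃ z : ℤ, ∀ l : LY, (l.1.1 : ℤ_[l.1.1]) ^ 4 ∣ x l - z := by
  obtain ⟨z, hz⟩ := Kz.exists_crt_dvd
    (fun l _ => ((Function.extend (fun k : LY => k.1.1) (fun k => (x k).appr 4) 0 l : ℕ) : ℤ_[l]))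
    (NN LY ^ 2) (pow_ne_zero _ NN_ne)
  refine ⟨z, fun l => ?_⟩
  have h1 := (NN_iff l).1 (hz l.1.1)
  rw [ch_inj.extend_apply] at h1
  have h2 := dvd_add (Ideal.mem_span_singleton.1 (PadicInt.appr_spec 4 (x l))) h1
  rwa [sub_add_sub_cancel] at h2

/-- The isogeny of a tuple of lines. -/
theorem ch_g (hS : Sys F r) (hl : LAGRst) (sl : GP L l₁ → Fin e × Fin 3) (y : TL LY) :
    ∃ g, Iso g (MM y) ∧ ∀ l : LY, Ad (F l.1) (sl l.1) g (MM y) (y l) := by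
  obtain ⟨g, h1, h2⟩ := hl ((sup y).image fun k : LY => k.1.1)
    (Function.extend (fun k : LY => k.1.1) (fun k => (y k).elim ⊥ fun p =>
      slot ((F k.1).map (rd k.1.1)) (sl k.1) (vec p)) ⊥) fun l h => by
      obtain ⟨k, h3, rfl⟩ := Finset.mem_image.1 h
      obtain ⟨p, hp⟩ := Option.isSome_iff_exists.1 (Finset.mem_filter.1 h3).2
      refine ⟨k.1.2.1, hS.l32 k.1, ?_⟩
      rw [ch_inj.extend_apply, hp]
      exact lag_slot _ _ (vec_ne p)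
  rw [Finset.prod_image fun _ _ _ _ h => ch_inj h] at h1
  refine ⟨g, h1, fun l => ?_⟩
  cases hp : y l with
  | none =>
    intro h
    obtain ⟨k, h3, h4⟩ := (dvd_MM l.1.2.1).1 h
    have h5 := (Finset.mem_filter.1 h3).2
    rw [ch_inj h4, hp] at h5
    exact absurd h5 (by simp)
  | some p =>
    have h3 : l ∈ sup y := Finset.mem_filter.2 ⟨Finset.mem_univ _, by rw [hp]; rfl⟩
    refine ⟨(dvd_MM l.1.2.1).2 ⟨l, h3, rfl⟩, ?_⟩
    rw [h2 _ (Finset.mem_image_of_mem _ h3), ch_inj.extend_apply, hp]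
    rfl

/-- The local level structure and its multiplier. -/
theorem ch_U {l : ℕ} [Fact l.Prime] {F : Fm e a b ℤ_[l]} {q : Fin e × Fin 3} {g : MZ} {M : ℕ}
    (hg : Iso g M) (x : XL F) (h : Ad F q g M x.1) : ∃ (U : GL ν ℤ_[l]) (μ : ℤ_[l]),
      zM ℚ_[l] g * (kx q x : Matrix ν ν ℚ_[l]) = tQ l U ∧ Sm U.1 μ := by
  obtain ⟨U, h1, -⟩ := exists_U hg h
  obtain ⟨μ, h2⟩ := (rp_mem x.2).1
  have h3 : zM ℚ_[l] g * (kx q x : Matrix ν ν ℚ_[l]) = tQ l (U * rp x.2) := by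
    rw [kx, Units.val_mul, ← Matrix.mul_assoc, h1, map_mul, Units.val_mul]
  have h4 := (sm_zM hg.2.2 ℚ_[l]).mul ((sm_kk F q x.1).mul (h2.map (cq l)))
  rw [← tQ_val, ← Units.val_mul, ← kx, h3, tQ_val] at h4
  obtain ⟨μ', -, h5⟩ := h4.desc cq_inj
  exact ⟨_, μ', h3, h5⟩

/-- The relation of similitude modulo `l ^ 4`. -/
theorem ch_sm {l : ℕ} [Fact l.Prime] {U : Matrix ν ν ℤ_[l]} {μ : ℤ_[l]} (h : Sm U μ) {u : MZ}
    {c : ℤ} (hu : D4 (zM ℤ_[l] u) U) (hc : (l : ℤ_[l]) ^ 4 ∣ μ - c) (i j : ν) :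
    (l : ℤ_[l]) ^ 4 ∣ (((uᵀ * Matrix.J ι ℤ * u - c • Matrix.J ι ℤ) i j : ℤ) : ℤ_[l]) := by
  let φ := Ideal.Quotient.mk (Ideal.span {(l : ℤ_[l]) ^ 4})
  have h1 : U.map φ = u.map (Int.castRingHom _) := by
    ext i j
    exact (Ideal.Quotient.eq.2 (Ideal.mem_span_singleton.2 (hu i j))).symm.trans (map_intCast φ _)
  have h2 : φ μ = Int.castRingHom _ c :=
    (Ideal.Quotient.eq.2 (Ideal.mem_span_singleton.2 hc)).trans (map_intCast φ _)
  have h3 := h.map φ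
  rw [h1, h2, Sm, ← map_J ι (Int.castRingHom _), ← transpose_map, ← Matrix.map_mul,
    ← Matrix.map_mul, ← Matrix.map_smul' _ _ _ (map_mul _)] at h3
  rw [← Ideal.mem_span_singleton, ← Ideal.Quotient.eq_zero_iff_mem, map_intCast, Matrix.sub_apply,
    Int.cast_sub, sub_eq_zero]
  exact congrFun (congrFun h3 i) j

theorem exists_ch (hS : Sys F r) (hl : LAGRst) (LY : Finset (GP L l₁))
    (sl : GP L l₁ → Fin e × Fin 3) : Nonempty (Ch F LY sl) := by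
  choose g h1 h2 using ch_g (LY := LY) hS hl sl
  choose U μ h3 h4 using fun (x : XG F LY) (l : LY) => ch_U (h1 (ln x)) (x l) (h2 (ln x) l)
  choose u h5 using fun (x : XG F LY) i j => ch_crt fun l => (U x l).1 i j
  choose c h6 using fun x : XG F LY => ch_crt (μ x)
  have h7 : ∀ x (l : LY), D4 (zM ℤ_[l.1.1] (Matrix.of (u x))) (U x l).1 := fun x l i j =>
    dvd_sub_comm.1 (h5 x i j l)
  refine ⟨⟨g, fun x => Matrix.of (u x), c, U, h1, h2, h3, h7, fun x => ⟨?_, fun i j =>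
    dvd_of_loc fun l => (NN_iff l).2 (ch_sm (h4 x l) (h7 x l) (h6 x l) i j)⟩⟩⟩
  rw [NN, Nat.cast_prod]
  refine IsCoprime.prod_right fun l hl => ?_
  rw [Nat.cast_pow]
  refine IsCoprime.pow_right (((Nat.prime_iff_prime_int.1 l.2.1).irreducible.coprime_iff_not_dvd.2
    fun h => ?_).symm)
  have h8 : (l.1 : ℤ_[l.1]) ∣ (c x : ℤ_[l.1]) := by
    simpa using map_dvd (Int.castRingHom ℤ_[l.1]) h
  have h9 := dvd_add ((dvd_pow_self _ four_ne_zero).trans (h6 x ⟨l, hl⟩)) h8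
  rw [sub_add_cancel] at h9
  exact not_unit_l (isUnit_of_dvd_unit h9 ((h4 x ⟨l, hl⟩).unit (U x ⟨l, hl⟩).isUnit))

end MG.C1
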