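import Pool.Agent.Lib.MP_33b3f9_ag.MG.C1.FDefs

/-!
Case I: the vectors are equivariant.
-/

set_option autoImplicit false

noncomputable section

namespace MG.C1

open Matrix Finset M4 Pool.Agent.M4.Det Pool.Agent.M4.Mx Function Polynomial

variable [Dim] {e : ℕ} {a b : MZ} {m n : ℕ} {L : Type} [Field L] {l₁ : ℕ}
  {K : IntermediateField ℚ ℂ} {r : Rep K} {τ : Mat} {F : Frs e a b L l₁}
  {LY : Finset (GP L l₁)} {sl : GP L l₁ → Fin e × Fin 3} {Cp : ℕ}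
  {y : MZ → ℕ → Bits → (ν → ℚ) → ℂ}

omit [Dim] in
theorem dvd_of_loc {z : ℤ} (h : ∀ l : LY, ((NN LY ^ 2 : ℕ) : ℤ_[l.1.1]) ∣ (z : ℤ_[l.1.1])) :
    (NN LY : ℤ) ^ 2 ∣ z := by
  have e1 : (NN LY : ℤ) ^ 2 = ∏ l ∈ LY, (l.1 : ℤ) ^ 4 := by
    rw [NN, Nat.cast_prod, ← Finset.prod_pow]
    exact Finset.prod_congr rfl fun l _ => by rw [Nat.cast_pow, ← pow_mul]
  rw [e1]
  refine Finset.prod_dvd_of_coprime (fun l _ k _ hlk => ?_) fun l hl => ?_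
  · exact (Nat.isCoprime_iff_coprime.2
      ((Nat.coprime_primes l.2.1 k.2.1).2 fun e => hlk (Subtype.ext e))).pow
  · exact (PadicInt.pow_p_dvd_int_iff 4 z).1 ((NN_iff ⟨l, hl⟩).1 (h ⟨l, hl⟩))

theorem eq_sm {R : Type} [CommRing R] {N : ℕ} {u : MZ} {c : ℤ} (hN : ((N ^ 2 : ℕ) : R) = 0)
    (h : SimN N u c) : Sm (zM R u) (c : R) := by
  have h1 : (uᵀ * J ι ℤ * u).map (Int.castRingHom R) = (c • J ι ℤ).map (Int.castRingHom R) := by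
    ext i j
    obtain ⟨k, hk⟩ := h.2 i j
    rw [Matrix.sub_apply] at hk
    rw [map_apply, map_apply, ← sub_eq_zero, ← map_sub, hk, map_mul, ← Nat.cast_pow, map_natCast,
      hN, zero_mul]
  rw [Matrix.map_mul, Matrix.map_mul, transpose_map, Matrix.map_smul' _ _ _ (map_mul _),
    map_J] at h1
  exact h1

theorem Ch.mult (c : Ch F LY sl) {x x' : XG F LY} (l : LY) {W : Matrix ν ν ℤ_[l.1.1]}
    {χ : ℤ_[l.1.1]} (hW : Sm W χ) (h : ∀ i j, ((NN LY ^ 2 : ℕ) : ℤ_[l.1.1]) ∣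
      (W * zM ℤ_[l.1.1] (c.u x) - zM ℤ_[l.1.1] (c.u x')) i j) :
    ((NN LY ^ 2 : ℕ) : ℤ_[l.1.1]) ∣ (c.c x' : ℤ_[l.1.1]) - χ * c.c x := by
  set I : Ideal ℤ_[l.1.1] := Ideal.span {((NN LY ^ 2 : ℕ) : ℤ_[l.1.1])} with hI
  have k : ∀ z, Ideal.Quotient.mk I z = 0 ↔ ((NN LY ^ 2 : ℕ) : ℤ_[l.1.1]) ∣ z := fun z => by
    rw [Ideal.Quotient.eq_zero_iff_mem, hI, Ideal.mem_span_singleton]
  have hN : ((NN LY ^ 2 : ℕ) : ℤ_[l.1.1] ⧸ I) = 0 := by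
    rw [← map_natCast (Ideal.Quotient.mk I), k]
  have z1 : ∀ u : MZ, (zM ℤ_[l.1.1] u).map (Ideal.Quotient.mk I) = zM _ u := fun u => by
    ext i j
    exact map_intCast (Ideal.Quotient.mk I) _
  have h1 : W.map (Ideal.Quotient.mk I) * zM _ (c.u x) = zM _ (c.u x') := by
    rw [← z1, ← z1, ← Matrix.map_mul]
    ext i j
    rw [map_apply, map_apply, ← sub_eq_zero, ← map_sub, k]
    exact h i j
  have h2 := (hW.map (Ideal.Quotient.mk I)).mul (eq_sm hN (c.sim x))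
  rw [h1] at h2
  rw [← k, map_sub, map_mul, map_intCast, map_intCast, sub_eq_zero]
  exact (eq_sm hN (c.sim x')).unique h2

theorem eq_cancel {R : Type} [CommRing R] {W g : Matrix ν ν R} {χ μ : R} (hg : IsUnit g)
    (h1 : Sm g μ) (h2 : Sm (W * g) (μ * χ)) : Sm W χ := by
  refine ((isUnit_transpose g).2 hg).mul_left_cancel (hg.mul_right_cancel ?_)
  rw [Sm, transpose_mul] at h2
  rw [Matrix.mul_smul, Matrix.smul_mul, h1, smul_smul, mul_comm χ, ← h2]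
  simp only [Matrix.mul_assoc]

theorem eq_zM {l : ℕ} [Fact l.Prime] (g : MZ) : (zM ℤ_[l] g).map (cq l) = zM ℚ_[l] g := by
  ext i j
  exact map_intCast (cq l) _

theorem eq_smW {l : ℕ} [Fact l.Prime] {g g' : MZ} {M : ℕ} (h : Iso g M) (h' : Iso g' M)
    {ρ W : Matrix ν ν ℤ_[l]} {χ : ℤ_[l]} (hρ : Sm ρ χ) (e : zM ℤ_[l] g' * ρ = W * zM ℤ_[l] g) :
    Sm W χ := by
  have h1 := ((sm_zM h'.2.2 ℤ_[l]).mul hρ).map (cq l)
  have h2 := sm_zM h.2.2 ℚ_[l]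
  rw [e, Matrix.map_mul, eq_zM, map_mul, map_natCast] at h1
  exact Sm.of_map cq_inj (eq_cancel (h2.isUnit (Nat.cast_ne_zero.2 h.1.1.ne_zero).isUnit) h2 h1)

omit [Dim] in
theorem eq_root (σ : ℂ ≃ₐ[K] ℂ) : ∃ t : ℕ,
    (∀ z : ℤ, σ (ee (z / (NN LY : ℂ) ^ 2)) = ee (t * z / (NN LY : ℂ) ^ 2)) ∧
    ∀ (l : LY) (χ : ℤ_[l.1.1]),
      (∀ ζ : ℂ, ζ ^ l.1.1 ^ 4 = 1 → σ ζ = ζ ^ (PadicInt.toZModPow 4 χ).val) →
      ((NN LY ^ 2 : ℕ) : ℤ_[l.1.1]) ∣ (t : ℤ_[l.1.1]) - χ := by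
  have h0 : NN LY ^ 2 ≠ 0 := pow_ne_zero _ NN_ne
  have hζ := Complex.isPrimitiveRoot_exp _ h0
  set ζ := Complex.exp (2 * Real.pi * Complex.I / (NN LY ^ 2 : ℕ)) with eζ
  have e1 : ∀ z : ℤ, ee (z / (NN LY : ℂ) ^ 2) = ζ ^ z := fun z => by
    rw [eζ, ← Complex.exp_int_mul, ee, Nat.cast_pow]
    exact congrArg _ (by ring)
  obtain ⟨t, -, ht⟩ := hζ.eq_pow_of_pow_eq_one (ξ := σ ζ)
    (by rw [← map_pow, hζ.pow_eq_one, map_one])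
  refine ⟨t, fun z => ?_, fun l χ h => ?_⟩
  · rw [e1, map_zpow₀, ← ht, ← zpow_natCast, ← _root_.zpow_mul, ← e1, Int.cast_mul, Int.cast_natCast]
  · obtain ⟨m, hm⟩ : l.1.1 ^ 4 ∣ NN LY ^ 2 := by
      rw [show 4 = 2 * 2 from rfl, pow_mul]
      exact pow_dvd_pow_of_dvd (Finset.dvd_prod_of_mem (fun k : GP L l₁ => k.1 ^ 2) l.2) 2
    have hξ := hζ.pow (Nat.pos_of_ne_zero h0) (hm.trans (mul_comm _ _))
    have h1 := h _ hξ.pow_eq_one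
    rw [map_pow, ← ht, ← pow_mul, mul_comm, pow_mul] at h1
    have h2 : ((l.1.1 ^ 4 : ℕ) : ℤ) ∣ (t : ℤ) - (PadicInt.toZModPow 4 χ).val := by
      have hne := hξ.ne_zero (pow_ne_zero 4 l.1.2.1.ne_zero)
      rw [← hξ.zpow_eq_one_iff_dvd, zpow_sub₀ hne, zpow_natCast, zpow_natCast, h1,
        div_self (pow_ne_zero _ hne)]
    have : NeZero (l.1.1 ^ 4) := ⟨pow_ne_zero 4 l.1.2.1.ne_zero⟩
    rw [NN_iff, ← Ideal.mem_span_singleton, ← PadicInt.ker_toZModPow, RingHom.mem_ker, map_sub,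
      map_natCast, ← ZMod.natCast_zmod_val (PadicInt.toZModPow 4 χ)]
    exact_mod_cast (ZMod.intCast_zmod_eq_zero_iff_dvd _ _).2 h2

theorem Ch.equiv (c : Ch F LY sl) (hS : Sys F r) (mu : MUst r) (hp : PT τ r Cp y)
    (σ : ℂ ≃ₐ[K] ℂ) (x : XG F LY) (i : IX LY) :
    σ (c.Φ y x i) = c.Φ y (aG hS mu sl LY σ x) i := by
  set x' := aG hS mu sl LY σ x with hx
  have eM : MM (ln x') = MM (ln x) := by rw [MM, MM, hx, sup_aG]
  have i1 := c.iso (ln x)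
  have i2 := c.iso (ln x')
  rw [eM] at i2
  have hW : ∀ (l : ℕ) [Fact l.Prime], ∃ W : Matrix ν ν ℤ_[l],
      zM ℤ_[l] (c.g (ln x')) * (r l σ : Matrix ν ν ℤ_[l]) = W * zM ℤ_[l] (c.g (ln x)) ∧
        ∀ i j, ((NN LY ^ 2 : ℕ) : ℤ_[l]) ∣ (W * zM ℤ_[l] (c.u x) - zM ℤ_[l] (c.u x')) i j := by
    intro l _
    refine all_primes (LY := LY) (p := fun l _ => ∃ W : Matrix ν ν ℤ_[l],
      zM ℤ_[l] (c.g (ln x')) * (r l σ : Matrix ν ν ℤ_[l]) = W * zM ℤ_[l] (c.g (ln x)) ∧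
        ∀ i j, ((NN LY ^ 2 : ℕ) : ℤ_[l]) ∣ (W * zM ℤ_[l] (c.u x) - zM ℤ_[l] (c.u x')) i j)
      (fun l => ?_) (fun l _ h => ?_) l
    · obtain ⟨W, h1, h2⟩ := c.W (emb_aG hS mu σ x l)
      refine ⟨W, Matrix.map_injective cq_inj ?_, h2⟩
      change (_ * _ : Matrix ν ν ℤ_[l.1.1]).map (cq l.1.1) =
        (_ * _ : Matrix ν ν ℤ_[l.1.1]).map (cq l.1.1)
      rw [Matrix.map_mul, Matrix.map_mul, eq_zM, eq_zM]
      exact h1
    · obtain ⟨g, hg⟩ := (sm_zM i1.2.2 ℤ_[l]).isUnit (MM_unit h _)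
      refine ⟨zM ℤ_[l] (c.g (ln x')) * (r l σ : Matrix ν ν ℤ_[l]) * g⁻¹.1, ?_,
        fun i j => (NN_unit h).dvd⟩
      rw [← hg, Matrix.mul_assoc _ _ g.1, ← Units.val_mul, inv_mul_cancel, Units.val_one,
        Matrix.mul_one]
  choose W h1 h2 using hW
  obtain ⟨t, t1, t2⟩ := eq_root (LY := LY) σ
  have hc : (NN LY : ℤ) ^ 2 ∣ c.c x' - t * c.c x := dvd_of_loc fun l => by
    obtain ⟨χ, q1, q2⟩ := mu l.1.1 σ
    have q3 := c.mult l (eq_smW i1 i2 q1 (h1 l.1.1)) (h2 l.1.1)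
    have q4 := (t2 l χ (q2 4)).mul_right (c.c x : ℤ_[l.1.1])
    have q5 := dvd_sub q3 q4
    push_cast at q5 ⊢
    rwa [show (c.c x' : ℤ_[l.1.1]) - χ * c.c x - (t - χ) * c.c x = c.c x' - t * c.c x by
      ring] at q5
  rw [Ch.Φ, Ch.Φ, Phi, Phi, map_mul, eM]
  refine congrArg₂ (· * ·) ?_ ?_
  · obtain ⟨k, hk⟩ := hc
    have hN : (NN LY : ℂ) ≠ 0 := Nat.cast_ne_zero.2 NN_ne
    have e1 := t1 (c.c x * i.2.val)
    have e2 : (c.c x' : ℂ) = t * c.c x + (NN LY : ℂ) ^ 2 * k := by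
      exact_mod_cast eq_add_of_sub_eq' hk
    push_cast at e1
    rw [e1]
    refine (Kz.ee_congr (k * i.2.val) ?_).symm
    rw [e2]
    push_cast
    field_simp
  · refine (hp _ _ i1).2.2.2 σ _ W i2 h1 (NN LY) _ _ NN_ne (fun l _ k => ?_) i.1.1
    have e1 : ∀ u : MZ, (fun j => (((u *ᵥ Kz.lift i.1.2) j : ℤ) : ℤ_[l])) =
        zM ℤ_[l] u *ᵥ fun j => ((Kz.lift i.1.2 j : ℤ) : ℤ_[l]) := fun u =>
      funext fun j => RingHom.map_mulVec (Int.castRingHom ℤ_[l]) u _ j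
    rw [e1, congrFun (e1 (c.u x')) k, mulVec_mulVec, ← Pi.sub_apply, ← sub_mulVec]
    exact Finset.dvd_sum fun j _ => (h2 l k j).mul_right _

end MG.C1
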