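import Pool.Agent.Lib.MP_33b3f9_ag.MG.C1.LocD
import Pool.Agent.Lib.MP_33b3f9_ag.MG.C1.Card
import Pool.Agent.Lib.MP_33b3f9_ag.MG.C1.Eq

/-!
Case I: few close vectors.
-/

set_option autoImplicit false

noncomputable section

namespace MG.C1

open Matrix Finset M4 Pool.Agent.M4.Det Pool.Agent.M4.Mx Function Polynomial

variable [Dim] {e : ℕ} {a b : MZ} {m n : ℕ} {L : Type} [Field L] {l₁ : ℕ}
  {K : IntermediateField ℚ ℂ} {r : Rep K} {τ : Mat} {F : Frs e a b L l₁}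
  {LY : Finset (GP L l₁)} {sl : GP L l₁ → Fin e × Fin 3} {Cp : ℕ}
  {y : MZ → ℕ → Bits → (ν → ℚ) → ℂ}

omit [Dim] in
theorem close_dvd {y : TL LY} {z : ℤ} (h : ∀ l ∈ sup y, (l.1.1 : ℤ) ∣ z) : (MM y : ℤ) ∣ z := by
  rw [MM, Nat.cast_prod]
  exact Finset.prod_dvd_of_coprime (fun l _ k _ hne => Nat.isCoprime_iff_coprime.2
    ((Nat.coprime_primes l.1.2.1 k.1.2.1).2 fun e => hne (Subtype.ext (Subtype.ext e)))) h

theorem close_delta (c : Ch F LY sl) (x x' : XG F LY) {W : MZ} (h1 : Sim (zr W) (1 : ℕ))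
    (h2 : ∀ i j, ((NN LY : ℤ) ^ 2) ∣ (W * c.u x - c.u x') i j) (l : LY) :
    ∃ δ : GL ν ℚ_[l.1.1], emb (sl l.1) (x' l) = δ • emb (sl l.1) (x l) ∧
      (zM ℤ_[l.1.1] (adj (c.g (ln x')) * W * c.g (ln x))).map (cq l.1.1) =
        cq l.1.1 (MM (ln x')) • (δ : Matrix ν ν ℚ_[l.1.1]) := by
  have hu : ∀ y : TL LY, IsUnit (zM ℚ_[l.1.1] (c.g y)) := fun y =>
    (sm_zM (c.iso y).2.2 _).isUnit (Nat.cast_ne_zero.2 (MM_pos y).ne').isUnit
  obtain ⟨u, h3⟩ := hu (ln x)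
  obtain ⟨u', h4⟩ := hu (ln x')
  obtain ⟨w, h5⟩ := (sm_zM h1 ℚ_[l.1.1]).isUnit (by simp)
  have h6 : zM ℚ_[l.1.1] (c.g (ln x')) * ((u'⁻¹ * w * u : GL ν ℚ_[l.1.1]) : Matrix ν ν ℚ_[l.1.1]) =
      zM ℚ_[l.1.1] W * zM ℚ_[l.1.1] (c.g (ln x)) := by
    rw [← h3, ← h4, ← h5, ← Units.val_mul, ← Units.val_mul, mul_assoc, mul_inv_cancel_left]
  refine ⟨u'⁻¹ * w * u, (emb_iff (W := zM ℤ_[l.1.1] W) (c.hU x l) (c.hU x' l)
    (by rw [h6, zM_map])).2 ?_, (hu (ln x')).mul_left_cancel ?_⟩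
  · refine (((c.hu x l).mul_left _).symm.trans fun i j => (NN_iff l).1 ?_).trans (c.hu x' l)
    have h7 := map_dvd (Int.castRingHom ℤ_[l.1.1]) (h2 i j)
    rw [← zM_mul]
    simpa using h7
  · rw [zM_map, Matrix.mul_smul, h6, ← zM_mul, ← zM_mul, ← Matrix.mul_assoc, ← Matrix.mul_assoc,
      mul_adj (MM_pos _) (c.iso _).2.2, Matrix.smul_mul, Matrix.smul_mul, Matrix.one_mul, zM_smul,
      map_natCast, Int.cast_natCast]

theorem close_one (c : Ch F LY sl) (hS : Sys F r) {C : ℕ} {η : ℝ} (hg : GR τ C η) {Y s t : ℕ}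
    (hY : ∀ l ∈ LY, l.1 ≤ 2 * Y) (hN : (2 * (2 * Y) ^ s * (2 * Y) ^ s) ^ C ≤ NN LY)
    (h1 : 2 * s ≤ t) (h2 : C * (2 * Y) ^ (2 * s) ≤ Y ^ t) (x : SS F LY s)
    (hx : ∀ l w, ln x.1 l = some w → ¬ SpL F LY sl Y t l w) (x' : SS F LY s)
    (hc : Cls η (c.Ψ τ x.1) (c.Ψ τ x'.1)) : ∃ d : MZ, (∀ i j, d i j ∈ Icc (-C : ℤ) C) ∧
      ∀ l : LY, ∃ δ : GL ν ℚ_[l.1.1], emb (sl l.1) (x'.1 l) = δ • emb (sl l.1) (x.1 l) ∧
        zM ℚ_[l.1.1] d = δ := by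
  have hM := MM_le hY (ln x.1)
  have hM' := MM_le hY (ln x'.1)
  rw [x.2] at hM
  rw [x'.2] at hM'
  have hodd : Odd (NN LY) := Finset.prod_induction _ Odd (fun _ _ => Odd.mul) odd_one
    fun l _ => Odd.pow (Nat.odd_iff.2 (by
      have := hS.l32 l
      rw [Nat.ModEq] at this
      omega))
  obtain ⟨W, w1, w2, w3⟩ := hg _ _ _ _ _ _ (NN LY) _ _ (c.iso (ln x.1)) (c.iso (ln x'.1)) hodd
    ((Nat.pow_le_pow_left (Nat.mul_le_mul (Nat.mul_le_mul_left 2 hM) hM') C).trans hN)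
    (c.sim x.1) (c.sim x'.1) hc
  rw [← Nat.cast_one] at w1
  choose δ d1 d2 using close_delta c x.1 x'.1 w1 w2
  have hsim : Sim (zr (adj (c.g (ln x'.1)) * W * c.g (ln x.1))) (MM (ln x'.1) * MM (ln x.1) : ℕ) :=
    sim_nat.2 (by
      have := ((show Sm _ _ from sim_nat.1 (sim_adj (MM_pos _) (c.iso (ln x'.1)).2.2)).mul
        (show Sm _ _ from sim_nat.1 w1)).mul (show Sm _ _ from sim_nat.1 (c.iso (ln x.1)).2.2)
      rwa [Nat.cast_one, mul_one, ← Nat.cast_mul] at this)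
  generalize adj (c.g (ln x'.1)) * W * c.g (ln x.1) = D at w3 d2 hsim
  have hDD : DD F LY Y t D := by
    refine ⟨fun i j => ?_, _, (sup (ln x.1) ∪ sup (ln x'.1)).image Subtype.val,
      Nat.mul_pos (MM_pos _) (MM_pos _), hsim, ?_, fun l hl hn => ?_⟩
    · have h3 : (D i j).natAbs ^ 2 ≤ C * MM (ln x.1) * MM (ln x'.1) := by
        zify
        rw [sq_abs]
        exact w3 i j
      refine (Nat.le_self_pow two_ne_zero _).trans (h3.trans (le_trans ?_ h2))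
      rw [mul_assoc, two_mul s, pow_add]
      exact Nat.mul_le_mul_left C (Nat.mul_le_mul hM hM')
    · refine card_image_le.trans ((card_union_le _ _).trans ?_)
      rw [x.2, x'.2]
      omega
    · have h3 : ∀ y : TL LY, y = ln x.1 ∨ y = ln x'.1 → (⟨l, hl⟩ : LY) ∉ sup y := fun y hy h =>
        hn (mem_image.2 ⟨⟨l, hl⟩, mem_union.2
          (hy.imp (fun e => by rwa [e] at h) fun e => by rwa [e] at h), rfl⟩)
      have h4 : ∀ y : TL LY, y = ln x.1 ∨ y = ln x'.1 → ¬ l.1 ∣ MM y := fun y hy h => by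
        obtain ⟨k, k1, k2⟩ := (dvd_MM l.2.1).1 h
        exact h3 y hy ((show k = ⟨l, hl⟩ from Subtype.ext (Subtype.ext k2)) ▸ k1)
      have h5 : ∀ y : TL LY, y = ln x.1 ∨ y = ln x'.1 → y ⟨l, hl⟩ = none := fun y hy => by
        simpa [sup] using h3 y hy
      refine ⟨fun h => (l.2.1.dvd_mul.1 h).elim (h4 _ (Or.inr rfl)) (h4 _ (Or.inl rfl)), ?_⟩
      obtain ⟨k, hk⟩ := cub (d1 ⟨l, hl⟩) (h5 _ (Or.inl rfl)) (h5 _ (Or.inr rfl)) (d2 ⟨l, hl⟩)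
      exact ⟨k, (zM_map _ D).symm.trans hk⟩
  have h3 : ∀ l ∈ sup (ln x.1), l ∈ sup (ln x'.1) ∧
      ∃ V : Matrix ν ν ℤ_[l.1.1], V.map (cq l.1.1) = δ l := fun l hl => by
    obtain ⟨p, hp⟩ := Option.isSome_iff_exists.1 (mem_filter.1 hl).2
    obtain ⟨-, -, u, hu⟩ := exists_U (c.iso (ln x'.1)) (c.ad (ln x'.1) l)
    rcases spec_or (d1 l) hp (u := u) (hu ▸ d2 l) with h | h
    · exact absurd ⟨D, hDD, vec_ne p, h⟩ (hx l p hp)
    · exact ⟨mem_filter.2 ⟨mem_univ _, h.1⟩, h.2⟩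
  have h4 : MM (ln x'.1) = MM (ln x.1) := by
    rw [MM, MM, eq_of_subset_of_card_le (fun l hl => (h3 l hl).1) (by rw [x.2, x'.2])]
  rw [h4] at w3 d2
  have h5 : ∀ i j, (MM (ln x.1) : ℤ) ∣ D i j := fun i j => close_dvd fun l hl => by
    obtain ⟨-, V, hV⟩ := h3 l hl
    have h6 := d2 l
    rw [← hV, ← Matrix.map_smul' _ _ _ (map_mul (cq l.1.1))] at h6
    have h7 : ((D i j : ℤ) : ℤ_[l.1.1]) = MM (ln x.1) * V i j :=
      congrFun (congrFun (Matrix.map_injective cq_inj h6) i) j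
    have h8 : (l.1.1 : ℤ_[l.1.1]) ∣ (D i j : ℤ) :=
      h7 ▸ (Nat.cast_dvd_cast ((dvd_MM l.1.2.1).2 ⟨l, hl, rfl⟩)).mul_right _
    rwa [dvd_iff_rd, map_intCast, ZMod.intCast_zmod_eq_zero_iff_dvd] at h8
  choose d hd using h5
  have h6 : (0 : ℤ) < MM (ln x.1) := Nat.cast_pos.2 (MM_pos _)
  refine ⟨Matrix.of d, fun i j => ?_, fun l => ⟨δ l, d1 l, ?_⟩⟩
  · have h7 := w3 i j
    rw [hd] at h7
    have h8 : d i j ^ 2 ≤ C := le_of_mul_le_mul_left (a := (MM (ln x.1) : ℤ) ^ 2)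
      (by nlinarith) (by positivity)
    rw [mem_Icc, of_apply]
    constructor <;> nlinarith [sq_nonneg (d i j - 1), sq_nonneg (d i j + 1), Int.le_self_sq (d i j),
      Int.le_self_sq (-d i j)]
  · have h7 : D = (MM (ln x.1) : ℤ) • Matrix.of d := by
      ext i j
      exact hd i j
    have h8 := d2 l
    rw [zM_map, h7, zM_smul, map_natCast, Int.cast_natCast] at h8
    exact smul_right_injective _ (Nat.cast_ne_zero.2 (MM_pos _).ne') h8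

open Classical in
theorem Ch.close (c : Ch F LY sl) (hS : Sys F r) {C : ℕ} {η : ℝ} (hg : GR τ C η) {Y s t : ℕ}
    (hY : ∀ l ∈ LY, l.1 ≤ 2 * Y) (hN : (2 * (2 * Y) ^ s * (2 * Y) ^ s) ^ C ≤ NN LY)
    (h1 : 2 * s ≤ t) (h2 : C * (2 * Y) ^ (2 * s) ≤ Y ^ t) (x : SS F LY s)
    (hx : ∀ l w, ln x.1 l = some w → ¬ SpL F LY sl Y t l w) :
    (univ.filter fun x' : SS F LY s => Cls η (c.Ψ τ x.1) (c.Ψ τ x'.1)).card ≤
      (2 * C + 1) ^ Fintype.card ν ^ 2 := by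
  choose! d d1 d2 using close_one c hS hg hY hN h1 h2 x hx
  refine (card_le_card_of_injOn (t := Fintype.piFinset fun _ : ν => Fintype.piFinset fun _ : ν =>
    Icc (-C : ℤ) C) d (fun x' h => ?_) fun x' h x'' h' e => ?_).trans (le_of_eq ?_)
  · exact mem_coe.2 (Fintype.mem_piFinset.2 fun i => Fintype.mem_piFinset.2 fun j =>
      d1 x' (mem_filter.1 h).2 i j)
  · refine Subtype.ext (funext fun l => emb_inj (sl l.1) ?_)
    obtain ⟨δ, a1, a2⟩ := d2 x' (mem_filter.1 h).2 l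
    obtain ⟨δ', b1, b2⟩ := d2 x'' (mem_filter.1 h').2 l
    rw [a1, b1, show δ = δ' from Units.ext (by rw [← a2, ← b2, e])]
  · simp only [Fintype.card_piFinset, prod_const, card_univ, Int.card_Icc]
    rw [← pow_mul, sq]
    congr 1
    omega

end MG.C1
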