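import Pool.Agent.Lib.MP_33b3f9_ag.MG.IDefs

/-!
Case I: tuples of lines.
-/

set_option autoImplicit false

noncomputable section

namespace MG.C1

open Matrix Finset M4 Pool.Agent.M4.Mx

section comb

variable {Λ : Type} [Fintype Λ] [DecidableEq Λ] {P : Λ → Type}

/-- The support of a tuple. -/
def sup (y : ∀ l, Option (P l)) : Finset Λ := univ.filter fun l => (y l).isSome

/-- The tuples with support of size `s`. -/
def TT (P : Λ → Type) [∀ l, Fintype (P l)] (s : ℕ) : Finset (∀ l, Option (P l)) :=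
  univ.filter fun y => (sup y).card = s

end comb

/-- The projective line. -/
abbrev P1 (l : ℕ) : Type := Option (ZMod l)

/-- A vector on the line. -/
def vec {R : Type} [CommRing R] : Option R → Fin 2 → R
  | none => ![1, 0]
  | some t => ![t, 1]

variable [Dim] {e : ℕ} {a b : MZ} {L : Type} [Field L] {l₁ : ℕ} {K : IntermediateField ℚ ℂ}

/-- `σ` moves the line `p` to the line `p'` in the slot `q`. -/
def Mv (F : Frs e a b L l₁) (r : Rep K) (l : GP L l₁) (q : Fin e × Fin 3) (σ : ℂ ≃ₐ[K] ℂ)
    (p p' : P1 l.1) : Prop :=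
  ∀ h, (r l.1 σ : Matrix ν ν ℤ_[l.1]) = (F l).T h →
    wd (vec p') ((h q.1 q.2).map PadicInt.toZMod *ᵥ vec p) = 0

end MG.C1
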