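import Pool.Agent.Lib.MP_33b3f9_ag.MG.C1.LocC
import Pool.Agent.Lib.MP_33b3f9_ag.M4.KzTate

/-!
Case I: the global family of level structures.
-/

set_option autoImplicit false

noncomputable section

namespace MG.C1

open Matrix M4 Pool.Agent.M4.Det Pool.Agent.M4.Mx Function Polynomial

variable [Dim] {e : ℕ} {a b : MZ} {m n : ℕ} {L : Type} [Field L] {l₁ : ℕ}
  {K : IntermediateField ℚ ℂ} {r : Rep K} {τ : Mat}

section loc

variable {l : ℕ} [Fact l.Prime] {F : Fm e a b ℤ_[l]} {q : Fin e × Fin 3}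

/-- The integral matrix that intertwines two level structures. -/
theorem loc_W {δ : GL ν ℚ_[l]} {g g' : Matrix ν ν ℚ_[l]} {U U' : GL ν ℤ_[l]} {x y : XL F}
    (hx : g * (kx q x : Matrix ν ν ℚ_[l]) = tQ l U)
    (hy : g' * (kx q y : Matrix ν ν ℚ_[l]) = tQ l U') (h : emb q y = δ • emb q x) :
    ∃ W : Matrix ν ν ℤ_[l], g' * (δ : Matrix ν ν ℚ_[l]) = W.map (cq l) * g ∧
      D4 (W * U.1) U'.1 := by
  have h' := h
  rw [smul_emb, emb, QuotientGroup.eq] at h'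
  obtain ⟨k, -, hk⟩ := h'
  have h1 : g' * (δ : Matrix ν ν ℚ_[l]) = (U' * k * U⁻¹ : GL ν ℤ_[l]).1.map (cq l) * g := by
    refine (kx q x).isUnit.mul_right_cancel ?_
    rw [Matrix.mul_assoc _ g, hx, ← tQ_val, ← Units.val_mul, ← map_mul, inv_mul_cancel_right,
      map_mul, hk, Units.val_mul, ← hy, Matrix.mul_assoc, Matrix.mul_assoc, ← Units.val_mul,
      ← Units.val_mul, mul_inv_cancel_left]
  exact ⟨_, h1, (emb_iff hx hy h1).1 h⟩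

theorem D4.trans {A B C : Matrix ν ν ℤ_[l]} (h : D4 A B) (h' : D4 B C) : D4 A C := fun i j => by
  have := dvd_add (h i j) (h' i j)
  rwa [← Matrix.add_apply, sub_add_sub_cancel] at this

theorem D4.symm {A B : Matrix ν ν ℤ_[l]} (h : D4 A B) : D4 B A := fun i j => by
  have := (dvd_neg).2 (h i j)
  rwa [← Matrix.neg_apply, neg_sub] at this

theorem D4.mul_left {A B : Matrix ν ν ℤ_[l]} (h : D4 A B) (C : Matrix ν ν ℤ_[l]) :
    D4 (C * A) (C * B) := by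
  obtain ⟨z, rfl⟩ := D4_iff.1 h
  exact D4_iff.2 ⟨C * z, by rw [Matrix.mul_add, Matrix.mul_smul]⟩

omit [Dim] in
theorem pow_iff {c : ℕ} (h : IsUnit (c : ℤ_[l])) {x : ℤ_[l]} :
    (((l ^ 2 * c) ^ 2 : ℕ) : ℤ_[l]) ∣ x ↔ (l : ℤ_[l]) ^ 4 ∣ x := by
  push_cast
  rw [mul_pow, (h.pow 2).mul_right_dvd, ← pow_mul]

end loc

/-- Tuples of lines. -/
abbrev TL (LY : Finset (GP L l₁)) : Type := ∀ l : LY, Option (P1 l.1.1)

/-- Tuples of local level structures. -/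
abbrev XG (F : Frs e a b L l₁) (LY : Finset (GP L l₁)) : Type := ∀ l : LY, XL (F l.1)

variable {F : Frs e a b L l₁} {LY : Finset (GP L l₁)} {sl : GP L l₁ → Fin e × Fin 3}

/-- The lines of a level structure. -/
def ln (x : XG F LY) : TL LY := fun l => (x l).1

/-- The level structures with `s` lines. -/
abbrev SS (F : Frs e a b L l₁) (LY : Finset (GP L l₁)) (s : ℕ) : Type :=
  {x : XG F LY // (sup (ln x)).card = s}

/-- The degree attached to a tuple of lines. -/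
def MM (y : TL LY) : ℕ := ∏ l ∈ sup y, l.1.1

/-- The level. -/
def NN (LY : Finset (GP L l₁)) : ℕ := ∏ l ∈ LY, l.1 ^ 2

omit [Dim] in
theorem NN_ne : NN LY ≠ 0 := Finset.prod_ne_zero_iff.2 fun l _ => pow_ne_zero _ l.2.1.ne_zero

instance : NeZero (NN LY) := ⟨NN_ne⟩

omit [Dim] in
theorem dvd_MM {y : TL LY} {p : ℕ} (hp : p.Prime) : p ∣ MM y ↔ ∃ l ∈ sup y, l.1.1 = p := by
  rw [MM, hp.prime.dvd_finsetProd_iff]
  exact exists_congr fun l => and_congr_right fun _ =>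
    ((Nat.prime_dvd_prime_iff_eq hp l.1.2.1).trans eq_comm)

omit [Dim] in
theorem dvd_NN {p : ℕ} (hp : p.Prime) : p ∣ NN LY ↔ ∃ l ∈ LY, l.1 = p := by
  rw [NN, hp.prime.dvd_finsetProd_iff]
  exact exists_congr fun l => and_congr_right fun _ => (hp.prime.dvd_pow_iff_dvd two_ne_zero).trans
    ((Nat.prime_dvd_prime_iff_eq hp l.2.1).trans eq_comm)

omit [Dim] in
theorem NN_iff (l : LY) {x : ℤ_[l.1.1]} :
    ((NN LY ^ 2 : ℕ) : ℤ_[l.1.1]) ∣ x ↔ (l.1.1 : ℤ_[l.1.1]) ^ 4 ∣ x := by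
  have h1 : IsUnit ((∏ k ∈ LY.erase l.1, k.1 ^ 2 : ℕ) : ℤ_[l.1.1]) := unit_nat fun h => by
    obtain ⟨k, h2, h3⟩ := (dvd_NN (LY := LY.erase l.1) l.1.2.1).1 h
    exact (Finset.mem_erase.1 h2).1 (Subtype.ext h3)
  rw [NN, ← Finset.mul_prod_erase LY (fun k => k.1 ^ 2) l.2]
  exact pow_iff h1

omit [Dim] in
/-- A property of all primes is checked on `LY` and outside. -/
theorem all_primes {p : ∀ (l : ℕ) [Fact l.Prime], Prop} (h1 : ∀ l : LY, p l.1.1)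
    (h2 : ∀ (l : ℕ) [Fact l.Prime], (∀ k ∈ LY, k.1 ≠ l) → p l) (l : ℕ) [Fact l.Prime] : p l := by
  by_cases h : ∃ k ∈ LY, k.1 = l
  · obtain ⟨k, hk, rfl⟩ := h
    exact h1 ⟨k, hk⟩
  · exact h2 l fun k hk e => h ⟨k, hk, e⟩

omit [Dim] in
theorem NN_unit {l : ℕ} [Fact l.Prime] (h : ∀ k ∈ LY, k.1 ≠ l) :
    IsUnit ((NN LY ^ 2 : ℕ) : ℤ_[l]) := by
  rw [Nat.cast_pow]
  refine (unit_nat fun h1 => ?_).pow 2
  obtain ⟨k, h2, h3⟩ := (dvd_NN Fact.out).1 h1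
  exact h k h2 h3

omit [Dim] in
theorem MM_unit {l : ℕ} [Fact l.Prime] (h : ∀ k ∈ LY, k.1 ≠ l) (y : TL LY) :
    IsUnit (MM y : ℤ_[l]) := unit_nat fun h1 => by
  obtain ⟨k, -, h3⟩ := (dvd_MM Fact.out).1 h1
  exact h k.1 k.2 h3

theorem mem_KZ (hS : Sys F r) (mu : MUst r) (l : GP L l₁) (σ : ℂ ≃ₐ[K] ℂ) :
    r l.1 σ ∈ KZ (F l) :=
  ⟨(mu l.1 σ).imp fun _ h => h.1, (hS.im l σ).elim fun h e => ⟨fun s _ => h s, e⟩⟩

/-- The representation with values in the local group. -/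
def rK (hS : Sys F r) (mu : MUst r) (l : GP L l₁) : (ℂ ≃ₐ[K] ℂ) →* KZ (F l) :=
  (r l.1).codRestrict _ (mem_KZ hS mu l)

/-- The Galois action on the tuples. -/
def aG (hS : Sys F r) (mu : MUst r) (sl : GP L l₁ → Fin e × Fin 3) (LY : Finset (GP L l₁)) :
    (ℂ ≃ₐ[K] ℂ) →* Equiv.Perm (XG F LY) where
  toFun σ := Equiv.piCongrRight fun l => actL (sl l.1) (rK hS mu l.1 σ)
  map_one' := by
    ext1 x
    funext l
    simp
  map_mul' σ σ' := by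
    ext1 x
    funext l
    simp

theorem aG_apply (hS : Sys F r) (mu : MUst r) (σ : ℂ ≃ₐ[K] ℂ) (x : XG F LY) (l : LY) :
    aG hS mu sl LY σ x l = actL (sl l.1) (rK hS mu l.1 σ) (x l) := rfl

theorem emb_aG (hS : Sys F r) (mu : MUst r) (σ : ℂ ≃ₐ[K] ℂ) (x : XG F LY) (l : LY) :
    emb (sl l.1) (aG hS mu sl LY σ x l) = tQ l.1.1 (r l.1.1 σ) • emb (sl l.1) (x l) :=
  emb_act _ _ _

theorem sup_aG (hS : Sys F r) (mu : MUst r) (σ : ℂ ≃ₐ[K] ℂ) (x : XG F LY) :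
    sup (ln (aG hS mu sl LY σ x)) = sup (ln x) :=
  Finset.filter_congr fun l _ => by rw [ln, ln, aG_apply, act_isSome]

/-- The Galois action on the level structures with `s` lines. -/
def aS (hS : Sys F r) (mu : MUst r) (sl : GP L l₁ → Fin e × Fin 3) (LY : Finset (GP L l₁))
    (s : ℕ) : (ℂ ≃ₐ[K] ℂ) →* Equiv.Perm (SS F LY s) where
  toFun σ := (aG hS mu sl LY σ).subtypePerm fun x => by rw [sup_aG]
  map_one' := by
    ext1 x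
    exact Subtype.ext (by simp)
  map_mul' σ σ' := by
    ext1 x
    exact Subtype.ext (by simp)

theorem aS_val (hS : Sys F r) (mu : MUst r) {s : ℕ} (σ : ℂ ≃ₐ[K] ℂ) (x : SS F LY s) :
    (aS hS mu sl LY s σ x).1 = aG hS mu sl LY σ x.1 := rfl

/-- Integral models of the level structures. -/
structure Ch (F : Frs e a b L l₁) (LY : Finset (GP L l₁)) (sl : GP L l₁ → Fin e × Fin 3) where
  /-- the isogeny -/
  g : TL LY → MZ
  /-- the level structure modulo the square of the level -/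
  u : XG F LY → MZ
  /-- the multiplier -/
  c : XG F LY → ℤ
  /-- the local level structures -/
  U : XG F LY → ∀ l : LY, GL ν ℤ_[l.1.1]
  iso : ∀ y, Iso (g y) (MM y)
  ad : ∀ y (l : LY), Ad (F l.1) (sl l.1) (g y) (MM y) (y l)
  hU : ∀ x (l : LY), zM ℚ_[l.1.1] (g (ln x)) * (kx (sl l.1) (x l) : Matrix ν ν ℚ_[l.1.1]) =
    tQ l.1.1 (U x l)
  hu : ∀ x (l : LY), D4 (zM ℤ_[l.1.1] (u x)) (U x l).1
  sim : ∀ x, SimN (NN LY) (u x) (c x)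

/-- The index set of the vectors. -/
abbrev IX (LY : Finset (GP L l₁)) : Type := (Bits × (ν → ZMod (NN LY ^ 2))) × ZMod (NN LY ^ 2)

/-- The integral vector of a level structure. -/
def Ch.Φ (c : Ch F LY sl) (y : MZ → ℕ → Bits → (ν → ℚ) → ℂ) (x : XG F LY) : IX LY → ℂ :=
  Phi (y (c.g (ln x)) (MM (ln x))) (NN LY) (c.u x) (c.c x)

/-- The analytic vector of a level structure. -/
def Ch.Ψ (c : Ch F LY sl) (τ : Mat) (x : XG F LY) : IX LY → ℂ :=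
  Phi (xx (act (zr (c.g (ln x))) τ)) (NN LY) (c.u x) (c.c x)

theorem Ch.W (c : Ch F LY sl) {x x' : XG F LY} {l : LY} {δ : GL ν ℚ_[l.1.1]}
    (h : emb (sl l.1) (x' l) = δ • emb (sl l.1) (x l)) : ∃ W : Matrix ν ν ℤ_[l.1.1],
      zM ℚ_[l.1.1] (c.g (ln x')) * (δ : Matrix ν ν ℚ_[l.1.1]) =
        W.map (cq l.1.1) * zM ℚ_[l.1.1] (c.g (ln x)) ∧ ∀ i j, ((NN LY ^ 2 : ℕ) : ℤ_[l.1.1]) ∣
          (W * zM ℤ_[l.1.1] (c.u x) - zM ℤ_[l.1.1] (c.u x')) i j := by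
  obtain ⟨W, h1, h2⟩ := loc_W (c.hU x l) (c.hU x' l) h
  exact ⟨W, h1, fun i j => (NN_iff l).2
    (((((c.hu x l).mul_left W).trans h2).trans (c.hu x' l).symm) i j)⟩

/-- The body of `PTSst`. -/
def PT (τ : Mat) (r : Rep K) (C : ℕ) (y : MZ → ℕ → Bits → (ν → ℚ) → ℂ) : Prop :=
  ∀ (g : MZ) (M : ℕ), Iso g M →
    (∃ c : ℂ, c ≠ 0 ∧ ∀ ε x, y g M ε x = c * xx (act (zr g) τ) ε x) ∧
    (∀ ε x, IsIntegral ℤ (y g M ε x)) ∧
    (∀ (φ : ℂ →+* ℂ) ε x, ‖φ (y g M ε x)‖ ≤ (2 * M : ℝ) ^ C) ∧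
    ∀ (σ : ℂ ≃ₐ[K] ℂ) (g' : MZ) (W : ∀ (l : ℕ) [Fact l.Prime], Matrix ν ν ℤ_[l]), Iso g' M →
      (∀ (l : ℕ) [Fact l.Prime], zM ℤ_[l] g' * (r l σ : Matrix ν ν ℤ_[l]) = W l * zM ℤ_[l] g) →
      ∀ (N : ℕ) (x x' : ν → ℤ), N ≠ 0 → (∀ (l : ℕ) [Fact l.Prime] (i : ν),
        ((N ^ 2 : ℕ) : ℤ_[l]) ∣ (W l *ᵥ fun j => (x j : ℤ_[l])) i - x' i) →
      ∀ ε, σ (y g M ε fun i => (x i : ℚ) / N) = y g' M ε fun i => (x' i : ℚ) / N

theorem PT.ex (h : PTSst τ r) : ∃ C y, PT τ r C y := h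

/-- The body of `GRAMst`. -/
def GR (τ : Mat) (C : ℕ) (η : ℝ) : Prop :=
  ∀ (g g' u u' : MZ) (M M' N : ℕ) (c c' : ℤ) [NeZero N],
    Iso g M → Iso g' M' → Odd N → (2 * M * M') ^ C ≤ N → SimN N u c → SimN N u' c' →
    Cls η (Phi (xx (act (zr g) τ)) N u c) (Phi (xx (act (zr g') τ)) N u' c') →
    ∃ W : MZ, Sim (zr W) 1 ∧ (∀ i j, ((N : ℤ) ^ 2) ∣ (W * u - u') i j) ∧
      ∀ i j, (adj g' * W * g) i j ^ 2 ≤ C * M * M'

theorem GR.ex (h : GRAMst τ) : ∃ C η, 0 < η ∧ η < 1 ∧ GR τ C η := h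

/-- The body of `CBst`. -/
def CB (D : PD e a b m n) (F : Frs e a b L l₁) (r : Rep K) (N₀ p : ℕ) (σ : ℂ ≃ₐ[K] ℂ)
    (sl : GP L l₁ → Fin e × Fin 3) (LL : Set (GP L l₁)) {h : ℕ} (cl : MZ → ℕ → Fin h)
    (Γ : MZ → ℕ → ∀ (l : ℕ) [Fact l.Prime], Matrix ν ν ℚ_[l]) : Prop :=
  ∀ g M g' M', Good F r σ sl LL g M → Good F r σ sl LL g' M' → cl g M = cl g' M' →
    M ≡ M' [MOD p ^ N₀] ∧ ∃ (δ : D.E[X]) (c : ℕ)
      (W : ∀ (l : ℕ) [Fact l.Prime], Matrix ν ν ℤ_[l]), (∀ k, δ.coeff k ∈ D.A) ∧ ¬ p ∣ c ∧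
      (∀ (l : ℕ) [Fact l.Prime], l ≠ p → IsUnit (Γ g' M' l) ∧
        Γ g' M' l * D.ev r l σ (1 + C ((p : D.E) ^ N₀ / c) * δ) = Γ g M l ∧
        zM ℚ_[l] g' * D.ev r l σ (1 + C ((p : D.E) ^ N₀ / c) * δ) =
          (W l).map ((↑) : ℤ_[l] → ℚ_[l]) * zM ℚ_[l] g ∧
        (W l)ᵀ * Matrix.J ι ℤ_[l] * W l = Matrix.J ι ℤ_[l] ∧
        ∀ i j, (32 : ℤ_[l]) ∣ (W l - 1) i j) ∧
      ∀ l : GP L l₁, l.1 ≠ p →
        ∃ k, D.ev r l.1 σ (1 + C ((p : D.E) ^ N₀ / c) * δ) = (F.q l).T2 k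

/-- The tuples that contain at least `j` of the lines `φ` at the primes of `Lp`. -/
def StT (Lp : Finset LY) (φ : ∀ l : LY, P1 l.1.1) (j : ℕ) : Set (TL LY) :=
  {y | j ≤ (Lp.filter fun l => y l = some (φ l)).card}

/-- The level structures that contain at least `j` of the lines `φ` at the primes of `Lp`. -/
def St (F : Frs e a b L l₁) (s : ℕ) (Lp : Finset LY) (φ : ∀ l : LY, P1 l.1.1) (j : ℕ) :
    Set (SS F LY s) := (fun x => ln x.1) ⁻¹' StT Lp φ j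

/-- The special lines. -/
def SpL (F : Frs e a b L l₁) (LY : Finset (GP L l₁)) (sl : GP L l₁ → Fin e × Fin 3) (Y x : ℕ)
    (l : LY) (w : P1 l.1.1) : Prop :=
  ∃ d, DD F LY Y x d ∧ Spec F l.1 (sl l.1) d (vec w)

end MG.C1
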