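import Pool.Agent.Lib.MP_33b3f9_ag.MG.C1.Pair
import Pool.Agent.Lib.MP_33b3f9_ag.MG.C1.Card
import Pool.Agent.Lib.MP_33b3f9_ag.MG.Hb.Unr

/-!
Case I: few reductions.
-/

set_option autoImplicit false

noncomputable section

namespace MG.C1

open Matrix Finset M4 Pool.Agent.M4.Det Pool.Agent.M4.Mx Function Polynomial

variable [Dim] {e : ℕ} {a b : MZ} {m n : ℕ} {L : Type} [Field L] {l₁ : ℕ}
  {K : IntermediateField ℚ ℂ} {r : Rep K} {τ : Mat} {F : Frs e a b L l₁}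
  {LY : Finset (GP L l₁)} {sl : GP L l₁ → Fin e × Fin 3} {Cp : ℕ}
  {y : MZ → ℕ → Bits → (ν → ℚ) → ℂ}

section loc

theorem Sm.inv {R : Type} [CommRing R] {g g' : Matrix ν ν R} {μ μ' : R} (h : Sm g μ)
    (hg : g * g' = 1) (hμ : μ' * μ = 1) : Sm g' μ' := by
  have h1 : g'ᵀ * (gᵀ * J ι R * g) * g' = J ι R := by
    rw [← Matrix.mul_assoc, ← Matrix.mul_assoc, ← transpose_mul, Matrix.mul_assoc, hg,
      transpose_one, Matrix.one_mul, Matrix.mul_one]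
  rw [h, Matrix.mul_smul, Matrix.smul_mul] at h1
  rw [Sm, ← h1, smul_smul, hμ, one_smul, h1]

variable {l : ℕ} [Fact l.Prime] {F : Fm e a b ℤ_[l]} {q : Fin e × Fin 3}

theorem loc_step {g g' : MZ} {M M' : ℕ} (hg : Iso g M) (hg' : Iso g' M') {κ κ' : Option (P1 l)}
    (ha : Ad F q g M κ) (ha' : Ad F q g' M' κ') {γ : Matrix ν ν ℚ_[l]} {W : Matrix ν ν ℤ_[l]}
    (hW : zM ℚ_[l] g' * γ = W.map (cq l) * zM ℚ_[l] g) (hs : Sm W 1)
    (hγ : ∃ k, γ = (F.map (cq l)).T2 k) :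
    ∃ γ' : GL ν ℚ_[l], γ'.1 = γ ∧ ∃ k ∈ KZ F, γ' * kk F q κ = kk F q κ' * tQ l k := by
  obtain ⟨U, hU, -⟩ := exists_U hg ha
  obtain ⟨U', hU', -⟩ := exists_U hg' ha'
  obtain ⟨w, rfl⟩ := hs.isUnit isUnit_one
  have e1 : ∀ {g : MZ} {κ : Option (P1 l)} {U : GL ν ℤ_[l]},
      zM ℚ_[l] g * (kk F q κ : Matrix ν ν ℚ_[l]) = tQ l U →
      (tQ l U * (kk F q κ)⁻¹ : GL ν ℚ_[l]).1 = zM ℚ_[l] g := fun h => by
    rw [Units.val_mul, ← h, Units.mul_inv_cancel_right]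
  have e2 : ((tQ l U' * (kk F q κ')⁻¹)⁻¹ * tQ l w * (tQ l U * (kk F q κ)⁻¹) : GL ν ℚ_[l]).1 = γ := by
    rw [Units.val_mul, Units.val_mul, e1 hU, Matrix.mul_assoc, tQ_val, ← hW, ← e1 hU',
      Units.inv_mul_cancel_left]
  have hM : (M' : ℚ_[l]) ≠ 0 := Nat.cast_ne_zero.2 hg'.1.1.ne_zero
  have e3 : ∃ μ, Sm γ μ := by
    rw [← e2, Units.val_mul, Units.val_mul, e1 hU]
    exact ⟨_, ((Sm.inv (e1 hU' ▸ sm_zM hg'.2.2 ℚ_[l]) (Units.mul_inv _) (inv_mul_cancel₀ hM)).mul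
      (hs.map (cq l))).mul (sm_zM hg.2.2 _)⟩
  have e4 : (tQ l U' * (kk F q κ')⁻¹)⁻¹ * tQ l w * (tQ l U * (kk F q κ)⁻¹) * kk F q κ =
      kk F q κ' * tQ l (U'⁻¹ * w * U) := by
    rw [map_mul, map_mul, map_inv]
    group
  refine ⟨_, e2, _, pu_desc (Units.isUnit _) ?_, e4⟩
  rw [← tQ_val, ← inv_mul_cancel_left (kk F q κ') (tQ l _), ← e4, Units.val_mul, Units.val_mul, e2]
  exact (pu_kk_inv F q _).mul (Fm.Pu.mul ⟨e3, hγ⟩ (pu_kk F q _))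

theorem loc_inv {γ : GL ν ℚ_[l]} {κ κ' : Option (P1 l)} {k : GL ν ℤ_[l]} (hk : k ∈ KZ F)
    (h : γ * kk F q κ = kk F q κ' * tQ l k) {x : XL F} (hx : κ = none ∨ x.1 = κ) :
    ∃ z : XL F, emb q z = ((kk F q κ')⁻¹ * γ) • emb q x ∧
      (z.1.isSome ↔ x.1.isSome ∧ ¬ κ.isSome) := by
  have h1 : (kk F q κ')⁻¹ * γ * kk F q κ = tQ l k := by rw [mul_assoc, h, inv_mul_cancel_left]
  cases κ with
  | none =>
    rw [kk_none, mul_one] at h1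
    exact ⟨actL q ⟨k, hk⟩ x, by rw [emb_act, h1], by simp [act_isSome]⟩
  | some p =>
    obtain ⟨z, h2, h3⟩ := exists_emb (q := q) (γ := (kk F q κ')⁻¹ * γ) (τ' := none) hk x (by
      rw [hx.resolve_left (Option.some_ne_none p), h1, kk_none, one_mul])
    exact ⟨z, h3, by simp [h2]⟩

end loc

/-- The tuple of the lines `φ` at the primes of `J`. -/
def kap (φ : ∀ l : LY, P1 l.1.1) (J : Finset LY) : TL LY :=
  fun l => if l ∈ J then some (φ l) else none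

omit [Dim] in
theorem sup_kap (φ : ∀ l : LY, P1 l.1.1) (J : Finset LY) : sup (kap φ J) = J := by
  ext l
  by_cases h : l ∈ J <;> simp [sup, kap, h]

theorem Ch.good (c : Ch F LY sl) {σ : ℂ ≃ₐ[K] ℂ} {LL : Set (GP L l₁)} {φ : ∀ l : LY, P1 l.1.1}
    {J : Finset LY} (hL : ∀ l ∈ J, l.1 ∈ LL ∧ Mv F r l.1 (sl l.1) σ (φ l) (φ l)) :
    Good F r σ sl LL (c.g (kap φ J)) (MM (kap φ J)) := by
  refine ⟨c.iso _, fun l h1 h2 => ?_, fun l _ h2 => ?_⟩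
  · obtain ⟨k, h3, h4⟩ := (dvd_MM h1).1 h2
    exact ⟨k.1, (hL k (sup_kap φ J ▸ h3)).1, h4⟩
  · obtain ⟨k, h3, h4⟩ := (dvd_MM l.2.1).1 h2
    obtain rfl : k.1 = l := Subtype.ext h4
    rw [sup_kap] at h3
    have h5 := c.ad (kap φ J) k
    rw [kap, if_pos h3] at h5
    exact ⟨_, vec_ne _, h5.2, (hL k h3).2⟩

theorem Ch.inert (c : Ch F LY sl) (hS : Sys F r) (mu : MUst r) (hp : PT τ r Cp y)
    {D : PD e a b m n} {N₀ p : ℕ} [Fact p.Prime] {v : ℂ ≃+* PadicAlgCl p} {σ : ℂ ≃ₐ[K] ℂ}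
    (hv : IsPlace K v) (hF : Frob τ D r N₀ v σ) (hY : ∀ l ∈ LY, l.1 ≠ p) (x : XG F LY)
    {t : PadicAlgCl p ≃ₐ[ℚ_[p]] PadicAlgCl p} (ht : Hb.Ine t) (i : IX LY) :
    dec hv t (c.Φ y x i) = c.Φ y x i := by
  have h1 := hF.inert (dec hv t) (fun z ⟨w, hw⟩ => v.injective (by
    rw [e_dec, ← hw, t.commutes])) fun n ζ h1 h2 => v.injective (by
      rw [e_dec, ht.fix h1 (by rw [← map_pow, h2, map_one])])
  rw [c.equiv hS mu hp]
  congr 1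
  funext l
  rw [aG_apply, show rK hS mu l.1 (dec hv t) = 1 from Subtype.ext (h1 _ (hY _ l.2)), map_one,
    Equiv.Perm.one_apply]

theorem Ch.few (c : Ch F LY sl) (hS : Sys F r) (mu : MUst r) (hp : PT τ r Cp y) {D : PD e a b m n}
    {N₀ p : ℕ} [Fact p.Prime] {v : ℂ ≃+* PadicAlgCl p} {σ : ℂ ≃ₐ[K] ℂ} (hv : IsPlace K v)
    (hF : Frob τ D r N₀ v σ) (hY : ∀ l ∈ LY, l.1 ≠ p) {LL : Set (GP L l₁)} {h : ℕ}
    {cl : MZ → ℕ → Fin h} {Γ : MZ → ℕ → ∀ (l : ℕ) [Fact l.Prime], Matrix ν ν ℚ_[l]}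
    (hcb : CB D F r N₀ p σ sl LL cl Γ) {Lp : Finset LY} {φ : ∀ l : LY, P1 l.1.1}
    (hL : ∀ l ∈ Lp, l.1 ∈ LL ∧ Mv F r l.1 (sl l.1) σ (φ l) (φ l)) (s j : ℕ) :
    FewRed (fun x : SS F LY s => c.Φ y x.1) p (h * Fintype.card (SS F LY (s - j)) + 1)
      (St F s Lp φ j) := by
  classical
  let t : Finset LY → Fin h := fun J => cl (c.g (kap φ J)) (MM (kap φ J))
  let G : Finset LY → ∀ l : LY, Matrix ν ν ℚ_[l.1.1] := fun J l =>
    Γ (c.g (kap φ J)) (MM (kap φ J)) l.1.1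
  have key : ∀ J ⊆ Lp, ∀ J' ⊆ Lp, t J = t J' → MM (kap φ J) ≡ MM (kap φ J') [MOD p ^ N₀] ∧
      ∃ γ : ∀ l : LY, GL ν ℚ_[l.1.1], (∀ l, IsUnit (G J' l) ∧ G J' l * (γ l).1 = G J l ∧
        ∃ k ∈ KZ (F l.1), γ l * kk (F l.1) (sl l.1) (kap φ J l) =
          kk (F l.1) (sl l.1) (kap φ J' l) * tQ l.1.1 k) ∧
        ∀ x x' : XG F LY, MM (ln x) * MM (kap φ J') = MM (ln x') * MM (kap φ J) →
          MM (ln x) ≡ MM (ln x') [MOD p ^ N₀] →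
          (∀ l, emb (sl l.1) (x' l) = γ l • emb (sl l.1) (x l)) →
          SameRed v (c.Φ y x) (c.Φ y x') := fun J hJ J' hJ' e1 => by
    obtain ⟨h1, δ, c₀, W, h2, h3, h4, h5⟩ := hcb _ _ _ _ (c.good fun l hl => hL l (hJ hl))
      (c.good fun l hl => hL l (hJ' hl)) e1
    choose γ h6 h7 using fun l : LY => loc_step (c.iso _) (c.iso _) (c.ad (kap φ J) l)
      (c.ad (kap φ J') l) (h4 _ (hY _ l.2)).2.2.1
      ((h4 _ (hY _ l.2)).2.2.2.1.trans (one_smul _ _).symm) (h5 _ (hY _ l.2))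
    exact ⟨h1, γ, fun l => ⟨(h4 _ (hY _ l.2)).1, h6 l ▸ (h4 _ (hY _ l.2)).2.1, h7 l⟩,
      fun x x' a1 a2 a3 => c.pair hS hp hF hY h2 h3 (fun l _ hl => (h4 l hl).2.2) a1 a2
        fun l => ⟨γ l, h6 l, a3 l⟩⟩
  have rep : ∀ i, ∃ J0, ∀ J ⊆ Lp, t J = i → J0 ⊆ Lp ∧ t J0 = i := fun i => by
    by_cases h1 : ∃ J ⊆ Lp, t J = i
    · exact h1.imp fun J0 h2 _ _ _ => h2
    · exact ⟨∅, fun J h2 h3 => absurd ⟨J, h2, h3⟩ h1⟩
  choose J0 hJ0 using rep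
  have inv : ∀ x ∈ St F s Lp φ j, ∃ (J : Finset LY) (z : XG F LY), J ⊆ Lp ∧
      (sup (ln z)).card = s - j ∧ MM (ln x.1) = MM (kap φ J) * MM (ln z) ∧
      ∀ l, ∃ γ : GL ν ℚ_[l.1.1], IsUnit (G (J0 (t J)) l) ∧ G (J0 (t J)) l * γ.1 = G J l ∧
        emb (sl l.1) (z l) = ((kk (F l.1) (sl l.1) (kap φ (J0 (t J)) l))⁻¹ * γ) •
          emb (sl l.1) (x.1 l) := fun x hx => by
    obtain ⟨J, h1, h2⟩ := exists_subset_card_eq hx
    have h3 : J ⊆ Lp := h1.trans (filter_subset _ _)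
    have h4 : ∀ l ∈ J, (x.1 l).1 = some (φ l) := fun l hl => (mem_filter.1 (h1 hl)).2
    obtain ⟨-, γ, h5, -⟩ := key J h3 _ (hJ0 _ J h3 rfl).1 (hJ0 _ J h3 rfl).2.symm
    choose z h6 h7 using fun l : LY => loc_inv (x := x.1 l) (h5 l).2.2.choose_spec.1
      (h5 l).2.2.choose_spec.2 (by
        by_cases hl : l ∈ J
        · exact Or.inr (by rw [kap, if_pos hl, h4 l hl])
        · exact Or.inl (if_neg hl))
    have h8 : J ⊆ sup (ln x.1) := fun l hl => by simp [sup, ln, h4 l hl]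
    have h9 : sup (ln z) = sup (ln x.1) \ J := by
      ext l
      rw [← sup_kap φ J]
      simpa [sup, ln] using h7 l
    refine ⟨J, z, h3, by rw [h9, card_sdiff_of_subset h8, x.2, h2], ?_,
      fun l => ⟨γ l, (h5 l).1, (h5 l).2.1, h6 l⟩⟩
    rw [MM, MM, MM, h9, sup_kap, mul_comm, prod_sdiff h8]
  choose! J z h1 h2 h3 h4 using inv
  have := Hb.fewRed_of_inv hv (y := fun x : SS F LY s => c.Φ y x.1) (fun x => c.int hp x.1)
    (T := St F s Lp φ j) (fun x _ _ ht => c.inert hS mu hp hv hF hY x.1 ht)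
    (univ ×ˢ univ.filter fun z : XG F LY => (sup (ln z)).card = s - j) (fun x => (t (J x), z x))
    (fun x hx => mem_product.2 ⟨mem_univ _, mem_filter.2 ⟨mem_univ _, h2 x hx⟩⟩)
    fun x hx x' hx' e1 => by
      obtain ⟨e2, e3⟩ := Prod.ext_iff.1 e1
      simp only at e2 e3
      obtain ⟨a1, γ, a2, a3⟩ := key _ (h1 x hx) _ (h1 x' hx') e2
      refine a3 _ _ (by rw [h3 x hx, h3 x' hx', e3]; ring)
        (by rw [h3 x hx, h3 x' hx', e3]; exact a1.mul_right _) fun l => ?_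
      obtain ⟨g, b1, b2, b3⟩ := h4 x hx l
      obtain ⟨g', -, b4, b5⟩ := h4 x' hx' l
      rw [← e2] at b4 b5
      have b6 : g' * γ l = g := Units.ext (b1.mul_left_cancel (by
        rw [Units.val_mul, ← Matrix.mul_assoc, b4, (a2 l).2.1, b2]))
      rw [e3, b5, ← b6, ← mul_assoc, mul_smul _ (γ l)] at b3
      exact MulAction.injective _ b3
  rwa [card_product, card_univ, Fintype.card_fin, ← Fintype.card_subtype] at this

end MG.C1
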