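import Pool.Agent.Lib.MP_33b3f9_ag.MG.C1.Defs
import Pool.Agent.Lib.MP_33b3f9_ag.MG.Tr
import Pool.Agent.Lib.MP_33b3f9_ag.M4.G.Slot
import Pool.Agent.Lib.MP_33b3f9_ag.M4.G.Lag

/-!
Case I: pure tensors over a ring.
-/

set_option autoImplicit false

noncomputable section

namespace MG

open Matrix M4 Pool.Agent.M4.Mx Function

theorem tp_desc {R S : Type} [CommRing R] [CommRing S] {φ : R →+* S} (hφ : Injective φ)
    {x : Matrix κ κ R} {h : Fin 3 → M2 S} (e : x.map φ = Pool.Agent.M4.tp h) {i j : κ}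
    (hu : IsUnit (x i j)) : ∃ k : Fin 3 → M2 R, x = Pool.Agent.M4.tp k := by
  obtain ⟨u, hu⟩ := hu
  let k : Fin 3 → M2 R := fun s => Matrix.of fun p q => x (update i s p) (update j s q)
  have h1 : ∀ s p q, φ (k s p q) = h s p q * ∏ t ∈ Finset.univ.erase s, h t (i t) (j t) :=
    fun s p q => (congrFun (congrFun e _) _).trans (G.slot_tp h s i j p q)
  have h2 : φ u = ∏ s, h s (i s) (j s) := by rw [hu]; exact congrFun (congrFun e i) j
  have h3 : (u : R) ^ 2 • x = Pool.Agent.M4.tp k := by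
    ext p q
    refine hφ ?_
    have h4 : φ (x p q) = ∏ s, h s (p s) (q s) := congrFun (congrFun e p) q
    rw [tp_apply, map_prod, Matrix.smul_apply, smul_eq_mul, map_mul, map_pow, h2, h4]
    simp only [h1, Fin.prod_univ_three]
    rw [show Finset.univ.erase (0 : Fin 3) = {1, 2} by decide,
      show Finset.univ.erase (1 : Fin 3) = {0, 2} by decide,
      show Finset.univ.erase (2 : Fin 3) = {0, 1} by decide, Finset.prod_pair (by decide),
      Finset.prod_pair (by decide), Finset.prod_pair (by decide)]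
    ring
  refine ⟨update k 0 (((u⁻¹ : Rˣ) : R) ^ 2 • k 0), ?_⟩
  rw [tp_update_smul, update_eq_self, ← h3, smul_smul, ← mul_pow, Units.inv_mul, one_pow, one_smul]

theorem T_smul0 {R : Type} [CommRing R] (f : Fr ω R) (c : R) (h : Fin 3 → M2 R) (i : Fin 3) :
    f.T (update h i (c • h i)) = c • f.T h := by
  rw [Fr.T, tp_update_smul, update_eq_self, Matrix.mul_smul, Matrix.smul_mul, Fr.T]

theorem T_zero {R : Type} [CommRing R] (f : Fr ω R) {h : Fin 3 → M2 R} {i : Fin 3} (h0 : h i = 0) :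
    f.T h = 0 := by
  have := T_smul0 f 0 h i
  rwa [zero_smul, zero_smul, ← h0, update_eq_self] at this

variable [Dim]

/-- Similitudes over a ring. -/
def Sm {R : Type} [CommRing R] (g : Matrix ν ν R) (μ : R) : Prop := gᵀ * J ι R * g = μ • J ι R

section sm

variable {R : Type} [CommRing R] {g h : Matrix ν ν R} {μ μ' : R}

theorem Sm.mul (h1 : Sm g μ) (h2 : Sm h μ') : Sm (g * h) (μ * μ') := by
  rw [Sm, transpose_mul]
  calc _ = hᵀ * (gᵀ * J ι R * g) * h := by simp only [Matrix.mul_assoc]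
    _ = _ := by rw [h1, Matrix.mul_smul, Matrix.smul_mul, h2, smul_smul]

theorem Sm.smul (h1 : Sm g μ) (c : R) : Sm (c • g) (c ^ 2 * μ) := by
  rw [Sm, transpose_smul, Matrix.smul_mul, Matrix.smul_mul, Matrix.mul_smul, h1, smul_smul,
    smul_smul, sq]

theorem Sm.one : Sm (1 : Matrix ν ν R) 1 := by simp [Sm]

theorem Sm.map {S : Type} [CommRing S] (φ : R →+* S) (h1 : Sm g μ) : Sm (g.map φ) (φ μ) := by
  rw [Sm, ← map_J ι φ, ← transpose_map, ← Matrix.map_mul, ← Matrix.map_mul, h1,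
    Matrix.map_smul' _ _ _ (map_mul φ)]

theorem Sm.of_map {S : Type} [CommRing S] {φ : R →+* S} (hφ : Injective φ)
    (h1 : Sm (g.map φ) (φ μ)) : Sm g μ := by
  refine Matrix.map_injective hφ ?_
  change (gᵀ * J ι R * g).map φ = (μ • J ι R).map φ
  rw [Matrix.map_mul, Matrix.map_mul, transpose_map, Matrix.map_smul' _ _ _ (map_mul φ), map_J]
  exact h1

theorem smul_J_inj {μ μ' : R} (h : μ • J ι R = μ' • J ι R) : μ = μ' := by
  obtain ⟨i⟩ : Nonempty ι := inferInstance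
  simpa [J] using congrFun (congrFun h (Sum.inr i)) (Sum.inl i)

theorem Sm.unique (h1 : Sm g μ) (h2 : Sm g μ') : μ = μ' := smul_J_inj (h1.symm.trans h2)

theorem Sm.adj_mul (h1 : Sm g μ) : -(J ι R * gᵀ * J ι R) * g = μ • 1 := by
  rw [neg_mul, mul_assoc (J _ _), mul_assoc (J _ _), h1, Matrix.mul_smul, J_squared]
  simp

theorem Sm.isUnit (h1 : Sm g μ) (hμ : IsUnit μ) : IsUnit g := by
  obtain ⟨u, rfl⟩ := hμ
  refine IsUnit.of_mul_eq_one_right (((u⁻¹ : Rˣ) : R) • -(J ι R * gᵀ * J ι R)) ?_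
  rw [Matrix.smul_mul, h1.adj_mul, smul_smul, Units.inv_mul, one_smul]

theorem Sm.unit (h1 : Sm g μ) (hg : IsUnit g) : IsUnit μ := by
  have hJ : IsUnit (J ι R) := (isUnit_iff_isUnit_det _).2 (isUnit_det_J ι R)
  have h2 : IsUnit (μ • (1 : Matrix ν ν R)) :=
    h1.adj_mul ▸ ((hJ.mul ((isUnit_transpose g).2 hg)).mul hJ).neg.mul hg
  rw [isUnit_iff_isUnit_det, det_smul, det_one, mul_one] at h2
  exact (isUnit_pow_iff Fintype.card_ne_zero).1 h2

theorem Sm.desc {S : Type} [CommRing S] {φ : R →+* S} (hφ : Injective φ) {μ : S}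
    (h1 : Sm (g.map φ) μ) : ∃ μ', φ μ' = μ ∧ Sm g μ' := by
  obtain ⟨i⟩ : Nonempty ι := inferInstance
  have h2 : φ ((gᵀ * J ι R * g) (Sum.inr i) (Sum.inl i)) = μ := by
    rw [← map_apply (f := φ), Matrix.map_mul, Matrix.map_mul, transpose_map, map_J, h1]
    simp [J]
  exact ⟨_, h2, Sm.of_map hφ (h2 ▸ h1)⟩

theorem sm_zM {g : MZ} {M : ℕ} (h : Sim (zr g) M) (R : Type) [CommRing R] : Sm (zM R g) M := by
  have := Sm.map (Int.castRingHom R) (show Sm g (M : ℤ) from sim_nat.1 h)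
  rwa [map_natCast] at this

end sm

variable {e : ℕ} {a b : MZ}

namespace Fm

variable {R : Type} [CommRing R] (F : Fm e a b R)

theorem T_adj (s : Fin e) (h : Fin 3 → M2 R) :
    ((F.f s).T h)ᵀ * J (Fin 4) R = J (Fin 4) R * (F.f s).T fun i => adjugate (h i) := by
  have k : ∀ x y x' y' : M8 R, xᵀ * J (Fin 4) R = J (Fin 4) R * x' →
      yᵀ * J (Fin 4) R = J (Fin 4) R * y' → (x * y)ᵀ * J (Fin 4) R = J (Fin 4) R * (y' * x') :=
    fun x y x' y' h1 h2 => by
      rw [transpose_mul, Matrix.mul_assoc, h1, ← Matrix.mul_assoc, h2, Matrix.mul_assoc]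
  rw [Fr.T_eq, Fr.T_eq, k _ _ _ _ (k _ _ _ _ (F.adj s 0 _) (F.adj s 1 _)) (F.adj s 2 _),
    (F.f s).u_comm (show (1 : Fin 3) ≠ 0 by decide), ← Matrix.mul_assoc ((F.f s).u 2 _),
    (F.f s).u_comm (show (2 : Fin 3) ≠ 0 by decide), Matrix.mul_assoc ((F.f s).u 0 _),
    (F.f s).u_comm (show (2 : Fin 3) ≠ 1 by decide), ← Matrix.mul_assoc ((F.f s).u 0 _)]

theorem T_adj_mul (s : Fin e) (h : Fin 3 → M2 R) :
    ((F.f s).T fun i => adjugate (h i)) * (F.f s).T h = (∏ i, (h i).det) • 1 := by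
  rw [Fr.T_mul, ← (F.f s).T_one, ← Fr.T_smul]
  exact congrArg _ (funext fun i => adjugate_mul _)

theorem T2_adj (h : Fin e → Fin 2 → Fin 3 → M2 R) :
    (F.T2 h)ᵀ * J ι R = J ι R * F.T2 fun s c i => adjugate (h s c.rev i) := by
  have := (F.z.form_iff2 (fun s c => (F.f s).T (h s c)) 1 _).2 fun s c =>
    (Matrix.mul_one _).trans (F.T_adj s (h s c.rev))
  rwa [map_one, Matrix.mul_one] at this

theorem T2_smul (c : R) (h : Fin e → Fin 2 → Fin 3 → M2 R) :
    c • F.T2 h = F.T2 fun s t => update (h s t) 0 (c • h s t 0) := by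
  simp only [T2, T_smul0, ← map_smul]
  rfl

theorem sm_em2 (x : Fin e → Fin 2 → M8 R) (μ : R) : Sm (F.z.em2 x) μ ↔
    ∀ s c, (x s c.rev)ᵀ * J (Fin 4) R * x s c = μ • J (Fin 4) R := by
  simpa only [map_smul, map_one, Matrix.mul_smul, Matrix.mul_one, Pi.smul_apply, Pi.one_apply,
    Sm] using F.z.form_iff2 x x (μ • 1)

/-- Pure similitudes. -/
def Pu (g : Matrix ν ν R) : Prop := (∃ μ, Sm g μ) ∧ ∃ h, g = F.T2 h

variable {F}

theorem Pu.mul {g h : Matrix ν ν R} (h1 : F.Pu g) (h2 : F.Pu h) : F.Pu (g * h) := by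
  obtain ⟨⟨_, a1⟩, _, rfl⟩ := h1
  obtain ⟨⟨_, a2⟩, _, rfl⟩ := h2
  exact ⟨⟨_, a1.mul a2⟩, _, F.T2_mul _ _⟩

theorem Pu.smul {g : Matrix ν ν R} (h1 : F.Pu g) (c : R) : F.Pu (c • g) := by
  obtain ⟨⟨_, a1⟩, _, rfl⟩ := h1
  exact ⟨⟨_, a1.smul c⟩, _, F.T2_smul _ _⟩

theorem Pu.one : F.Pu 1 := ⟨⟨_, Sm.one⟩, _, F.T2_one.symm⟩

theorem Pu.map {S : Type} [CommRing S] (φ : R →+* S) {g : Matrix ν ν R} (h1 : F.Pu g) :
    (F.map φ).Pu (g.map φ) := by
  obtain ⟨⟨_, a1⟩, _, rfl⟩ := h1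
  exact ⟨⟨_, a1.map φ⟩, _, F.map_T2 φ _⟩

theorem Pu.inv {g g' : Matrix ν ν R} (h1 : F.Pu g) (h : g * g' = 1) : F.Pu g' := by
  obtain ⟨⟨μ, a1⟩, k, rfl⟩ := h1
  obtain ⟨u, rfl⟩ := a1.unit (IsUnit.of_mul_eq_one _ h)
  have a2 : F.T2 (fun s c i => adjugate (k s c.rev i)) * F.T2 k = (u : R) • 1 := by
    rw [← a1.adj_mul, Matrix.mul_assoc (J _ _), T2_adj, ← Matrix.mul_assoc, J_squared]
    simp
  have a3 : g' = ((u⁻¹ : Rˣ) : R) • F.T2 fun s c i => adjugate (k s c.rev i) := by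
    have := congrArg (fun x => ((u⁻¹ : Rˣ) : R) • (x * g')) a2
    simp only [Matrix.mul_assoc, h, Matrix.mul_one, Matrix.smul_mul, Matrix.one_mul, smul_smul,
      Units.inv_mul, one_smul] at this
    exact this.symm
  refine ⟨⟨(u⁻¹ : Rˣ), ?_⟩, _, a3.trans (F.T2_smul _ _)⟩
  have a4 := congrArg (fun x => ((u⁻¹ : Rˣ) : R) • (g'ᵀ * x * g')) a1
  simp only [Matrix.mul_smul, Matrix.smul_mul, smul_smul, Units.inv_mul, one_smul] at a4
  rw [Sm, ← a4, ← Matrix.mul_assoc, ← Matrix.mul_assoc, ← transpose_mul, Matrix.mul_assoc, h,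
    transpose_one, Matrix.one_mul, Matrix.mul_one]

variable (F) (q : Fin e × Fin 3)

/-- The tuple with `c` in the slot `q` and the scalars `x`, `y` in the other blocks. -/
def el (c : M2 R) (x y : R) : Fin e → Fin 2 → Fin 3 → M2 R :=
  fun s t => update 1 q.2 (if s = q.1 then c else ![x, y] t • 1)

/-- The element with `c` in the slot `q` and the scalars `x`, `y` in the other blocks. -/
def EL (c : M2 R) (x y : R) : Matrix ν ν R := F.T2 (el q c x y)

theorem EL_mul (c c' : M2 R) (x y x' y' : R) :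
    F.EL q c x y * F.EL q c' x' y' = F.EL q (c * c') (x * x') (y * y') := by
  rw [EL, EL, EL, T2_mul]
  congr 1
  funext s t
  rw [Pi.mul_apply, Pi.mul_apply, el, el, el, ← update_mul, mul_one]
  congr 1
  split_ifs
  · rfl
  · fin_cases t <;> simp [smul_smul, mul_comm]

theorem EL_scalar (x : R) : F.EL q (x • 1) x x = x • 1 := by
  rw [EL, T2, ← map_one F.z.em2, ← map_smul]
  congr 1
  funext s t
  have : (if s = q.1 then x • (1 : M2 R) else ![x, x] t • 1) = x • 1 := by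
    fin_cases t <;> simp
  rw [el, this, ← Fr.u_apply, map_smul, map_one]
  rfl

theorem EL_map {S : Type} [CommRing S] (φ : R →+* S) (c : M2 R) (x y : R) :
    (F.EL q c x y).map φ = (F.map φ).EL q (c.map φ) (φ x) (φ y) := by
  rw [EL, EL, map_T2]
  congr 1
  funext s t i
  simp only [el]
  by_cases hi : i = q.2
  · subst hi
    rw [update_self, update_self]
    split_ifs
    · rfl
    · fin_cases t <;> simp [Matrix.map_smul' _ _ _ (map_mul φ)]
  · simp [update_of_ne hi]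

theorem EL_sm {c : M2 R} {x y μ : R} (h1 : c.det = μ) (h2 : x * y = μ) : Sm (F.EL q c x y) μ := by
  refine (F.sm_em2 _ μ).2 fun s t => ?_
  rw [el, el, ← Fr.u_apply, ← Fr.u_apply, F.adj, Matrix.mul_assoc, ← map_mul]
  have : adjugate (if s = q.1 then c else ![x, y] t.rev • 1) *
      (if s = q.1 then c else ![x, y] t • 1) = μ • 1 := by
    split_ifs
    · rw [adjugate_mul, h1]
    · fin_cases t <;> simp [adjugate_smul, smul_smul, ← h2, mul_comm]
  rw [this, map_smul, map_one, Matrix.mul_smul, Matrix.mul_one]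

theorem EL_pu {c : M2 R} {x y : R} (h : c.det = x * y) : F.Pu (F.EL q c x y) :=
  ⟨⟨_, F.EL_sm q h rfl⟩, _, rfl⟩

/-- A product with a pure tensor in the middle. -/
theorem EL_T2 (c c' : M2 R) (x y x' y' : R) (h : Fin e → Fin 2 → Fin 3 → M2 R) :
    F.EL q c x y * F.T2 h * F.EL q c' x' y' = F.T2 fun s t => update (h s t) q.2
      (if s = q.1 then c * h s t q.2 * c' else (![x, y] t * ![x', y'] t) • h s t q.2) := by
  rw [EL, EL, T2_mul, T2_mul]
  congr 1
  funext s t i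
  simp only [Pi.mul_apply, el]
  by_cases hi : i = q.2
  · subst hi
    simp only [update_self]
    split_ifs
    · rfl
    · simp [smul_smul, mul_comm]
  · simp [update_of_ne hi]

theorem T2_zero {h : Fin e → Fin 2 → Fin 3 → M2 R} (h0 : ∀ s t, ∃ i, h s t i = 0) :
    F.T2 h = 0 := by
  rw [T2, ← map_zero F.z.em2]
  exact congrArg _ (funext fun s => funext fun t => T_zero _ (h0 s t).choose_spec)

theorem pr2_T2 (h : Fin e → Fin 2 → Fin 3 → M2 R) (s : Fin e) (t : Fin 2) :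
    F.z.pr2 (F.T2 h) s t = (F.f s).T (h s t) := by
  rw [T2, Mor.pr2_em2]

end Fm

end MG
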