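import Pool.Agent.Lib.MP_33b3f9_ag.MG.C1.LocA
import Pool.Agent.Lib.MP_33b3f9_ag.MG.C1.G2

/-!
Case I: the local group and the elements attached to lines.
-/

set_option autoImplicit false

noncomputable section

namespace MG.C1

open Matrix M4 Pool.Agent.M4.Mx Function

variable {l : ℕ} [Fact l.Prime]

/-- The inclusion of the integers. -/
abbrev cq (l : ℕ) [Fact l.Prime] : ℤ_[l] →+* ℚ_[l] := PadicInt.Coe.ringHom

/-- The reduction. -/
abbrev rd (l : ℕ) [Fact l.Prime] : ℤ_[l] →+* ZMod l := PadicInt.toZMod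

theorem cq_inj : Injective (cq l) := Subtype.val_injective

theorem rd_l : rd l (l : ℤ_[l]) = 0 := by rw [map_natCast, ZMod.natCast_self]

theorem l_ne : (l : ℤ_[l]) ≠ 0 := Nat.cast_ne_zero.2 (Fact.out : l.Prime).ne_zero

theorem dvd_iff_rd {x : ℤ_[l]} : (l : ℤ_[l]) ∣ x ↔ rd l x = 0 := by
  rw [← RingHom.mem_ker, PadicInt.ker_toZMod, PadicInt.maximalIdeal_eq_span_p,
    Ideal.mem_span_singleton]

theorem unit_iff_rd {x : ℤ_[l]} : IsUnit x ↔ rd l x ≠ 0 := by
  rw [Ne, ← RingHom.mem_ker, PadicInt.ker_toZMod, IsLocalRing.mem_maximalIdeal, mem_nonunits_iff,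
    not_not]

theorem not_unit_l : ¬ IsUnit (l : ℤ_[l]) := fun h => unit_iff_rd.1 h rd_l

theorem unit_nat {M : ℕ} (h : ¬ l ∣ M) : IsUnit (M : ℤ_[l]) := by
  rwa [unit_iff_rd, map_natCast, Ne, ZMod.natCast_eq_zero_iff]

theorem exists_div {m n : Type} {A : Matrix m n ℤ_[l]} (h : A.map (rd l) = 0) :
    ∃ U : Matrix m n ℤ_[l], A = (l : ℤ_[l]) • U := by
  choose U hU using fun i j => dvd_iff_rd.2 (congrFun (congrFun h i) j)
  exact ⟨Matrix.of U, by ext i j : 1; exact hU i j⟩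

theorem det_unit (f : Fr ω ℤ_[l]) {h : Fin 3 → M2 ℤ_[l]} (hu : IsUnit (f.T h)) (i : Fin 3) :
    IsUnit (h i).det := by
  obtain ⟨V, hV⟩ := (hu.map (rd l).mapMatrix).exists_left_inv
  rw [RingHom.mapMatrix_apply, Fr.map_T] at hV
  have h1 := G.isUnit_of_tp (T := (f.map (rd l)).Q * V * (f.map (rd l)).P)
    (h := fun s => (h s).map (rd l)) (by
      rw [← (f.map (rd l)).QTP, Matrix.mul_assoc, ← Matrix.mul_assoc (Fr.P _),
        ← Matrix.mul_assoc (Fr.P _), Fr.pq, Matrix.one_mul, Matrix.mul_assoc, ← Matrix.mul_assoc V,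
        hV, Matrix.one_mul, Fr.qp]) i
  rw [unit_iff_rd, RingHom.map_det]
  exact ((isUnit_iff_isUnit_det _).1 h1).ne_zero

theorem T_desc (f : Fr ω ℤ_[l]) {B : M8 ℤ_[l]} (hu : IsUnit B) {h : Fin 3 → M2 ℚ_[l]}
    (e : B.map (cq l) = (f.map (cq l)).T h) : ∃ k, B = f.T k := by
  have h1 : (f.Q * B * f.P).map (cq l) = Pool.Agent.M4.tp h := by
    rw [Matrix.map_mul, Matrix.map_mul, e]
    exact (f.map (cq l)).QTP h
  have h2 : ∃ i j, IsUnit ((f.Q * B * f.P) i j) := by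
    by_contra hn
    have h3 : (f.Q * B * f.P).map (rd l) = 0 := by
      ext i j
      exact not_not.1 fun h4 => hn ⟨i, j, unit_iff_rd.2 h4⟩
    have h4 := hu.map (rd l).mapMatrix
    rw [← f.PQ_conj B, RingHom.mapMatrix_apply, Matrix.map_mul, Matrix.map_mul, h3,
      Matrix.mul_zero, Matrix.zero_mul] at h4
    exact not_isUnit_zero h4
  obtain ⟨i, j, h2⟩ := h2
  obtain ⟨k, hk⟩ := tp_desc cq_inj h1 h2
  exact ⟨k, by rw [Fr.T, ← hk, f.PQ_conj]⟩

/-- A lift of a line to the special linear group. -/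
def cz : P1 l → M2 ℤ_[l]
  | none => 1
  | some t => !![(t.val : ℤ_[l]), -1; 1, 0]

theorem det_cz (p : P1 l) : (cz p).det = 1 := by
  cases p <;> simp [cz, det_fin_two]

theorem rd_cz (p : P1 l) (i : Fin 2) : rd l (cz p i 0) = vec p i := by
  cases p <;> fin_cases i <;> simp [cz, vec, one_apply]

theorem vec_ne (p : P1 l) : vec p ≠ 0 := by
  cases p
  · exact fun h => one_ne_zero (congrFun h 0)
  · exact fun h => one_ne_zero (congrFun h 1)

/-- The first diagonal matrix. -/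
def dn (l : ℕ) [Fact l.Prime] : M2 ℤ_[l] := !![1, 0; 0, l]

/-- The second diagonal matrix. -/
def dm (l : ℕ) [Fact l.Prime] : M2 ℤ_[l] := !![l, 0; 0, 1]

theorem dn_dm : dn l * dm l = (l : ℤ_[l]) • 1 := by
  ext i j
  fin_cases i <;> fin_cases j <;> simp [dn, dm]

theorem dm_dn : dm l * dn l = (l : ℤ_[l]) • 1 := by
  ext i j
  fin_cases i <;> fin_cases j <;> simp [dn, dm]

theorem rd_mn (p p' : P1 l) (h : M2 ℤ_[l]) :
    (dm l * adjugate (cz p') * h * (cz p * dn l)).map (rd l) =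
      !![0, 0; wd (vec p') (h.map (rd l) *ᵥ vec p), 0] := by
  ext i j
  fin_cases i <;> fin_cases j <;>
    simp [dn, dm, Matrix.mul_apply, Fin.sum_univ_two, adjugate_fin_two, wd, ← rd_cz, mulVec,
      dotProduct, vecMul]
  ring

variable [Dim] {e : ℕ} {a b : MZ} (F : Fm e a b ℤ_[l]) (q : Fin e × Fin 3)

/-- The inclusion of the groups. -/
def tQ (l : ℕ) [Fact l.Prime] : GL ν ℤ_[l] →* GL ν ℚ_[l] := GeneralLinearGroup.map (cq l)

theorem tQ_val (g : GL ν ℤ_[l]) : (tQ l g : Matrix ν ν ℚ_[l]) = (g : Matrix ν ν ℤ_[l]).map (cq l) :=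
  rfl

/-- The integral pure similitudes. -/
def KZ : Subgroup (GL ν ℤ_[l]) where
  carrier := {k | F.Pu (k : Matrix ν ν ℤ_[l])}
  one_mem' := Fm.Pu.one
  mul_mem' := Fm.Pu.mul
  inv_mem' := fun {k} h => Fm.Pu.inv h k.mul_inv

theorem block_unit {R : Type} [CommRing R] (z : MorD e a b R) {x : Fin e → Fin 2 → M8 R}
    (h : IsUnit (z.em2 x)) (s : Fin e) (t : Fin 2) : IsUnit (x s t) := by
  obtain ⟨u, hu⟩ := h
  have h1 : Commute (zM R a) (u⁻¹ : (Matrix ν ν R)ˣ) := (hu ▸ z.comm_a2 x).units_inv_right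
  have h2 : x * z.pr2 (u⁻¹ : (Matrix ν ν R)ˣ) = 1 :=
    z.em2_inj (by rw [map_mul, map_one, z.em2_pr2 h1, ← hu, u.mul_inv])
  exact IsUnit.of_mul_eq_one _ (congrFun (congrFun h2 s) t)

variable {F}

theorem pu_desc {U : Matrix ν ν ℤ_[l]} (hu : IsUnit U) (h : (F.map (cq l)).Pu (U.map (cq l))) :
    F.Pu U := by
  obtain ⟨⟨μ, h1⟩, k, h2⟩ := h
  obtain ⟨μ', -, h3⟩ := h1.desc cq_inj
  have h4 : F.z.em2 (F.z.pr2 U) = U := F.z.em2_pr2 (Matrix.map_injective cq_inj (by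
    change (zM ℤ_[l] a * U).map (cq l) = (U * zM ℤ_[l] a).map (cq l)
    rw [Matrix.map_mul, Matrix.map_mul, zM_map, h2]
    exact (F.map (cq l)).z.comm_a2 _))
  choose k' hk using fun s t => T_desc (F.f s) (block_unit F.z (h4.symm ▸ hu) s t) (h := k s t) (by
    rw [Mor.map_pr2, h2]
    exact (F.map (cq l)).pr2_T2 k s t)
  exact ⟨⟨_, h3⟩, k', h4.symm.trans (congrArg F.z.em2 (funext fun s => funext fun t => hk s t))⟩

theorem exists_KZ {γ : GL ν ℚ_[l]} (h : (F.map (cq l)).Pu (γ : Matrix ν ν ℚ_[l]))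
    {U : Matrix ν ν ℤ_[l]} (hu : IsUnit U) (e : U.map (cq l) = γ) : ∃ k ∈ KZ F, tQ l k = γ := by
  obtain ⟨u, rfl⟩ := hu
  exact ⟨u, pu_desc u.isUnit (e ▸ h), Units.ext e⟩

/-- The normal form. -/
theorem KZ_nf {k : GL ν ℤ_[l]} (hk : k ∈ KZ F) : ∃ h, (k : Matrix ν ν ℤ_[l]) = F.T2 h ∧
    (∀ s t i, IsUnit (h s t i).det) ∧ ∀ s t i, ∃ c : ℤ_[l], h s t i = c • h s 0 i := by
  obtain ⟨⟨μ, h1⟩, h, h2⟩ := hk
  have hu := fun s t => block_unit F.z (x := fun s c => (F.f s).T (h s c))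
    (show IsUnit (F.T2 h) from h2 ▸ k.isUnit) s t
  have h3 : ∀ s, ∃ c : ℤ_[l], (F.f s).T (h s 1) = c • (F.f s).T (h s 0) := fun s => by
    have a1 := (F.sm_em2 _ μ).1 (show Sm (F.T2 h) μ from h2 ▸ h1) s 1
    obtain ⟨u, hu⟩ : IsUnit (∏ i, (h s 0 i).det) :=
      IsUnit.prod_univ_iff.2 (det_unit _ (hu s 0))
    have a2 := F.T_adj_mul s (h s 0)
    rw [show (1 : Fin 2).rev = 0 from rfl, F.T_adj, Matrix.mul_assoc] at a1
    have a3 : ((F.f s).T fun i => adjugate (h s 0 i)) * (F.f s).T (h s 1) = μ • 1 := by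
      have := congrArg (fun x => -(J (Fin 4) ℤ_[l] * x)) a1
      simpa [← Matrix.mul_assoc, J_squared] using this
    have a4 : (F.f s).T (h s 0) * ((F.f s).T fun i => adjugate (h s 0 i)) = (u : ℤ_[l]) • 1 := by
      rw [hu, Fr.T_mul, ← (F.f s).T_one, ← Fr.T_smul]
      exact congrArg _ (funext fun i => mul_adjugate _)
    refine ⟨(u⁻¹ : ℤ_[l]ˣ) * μ, ?_⟩
    have a5 := congrArg (fun x => ((u⁻¹ : ℤ_[l]ˣ) : ℤ_[l]) • ((F.f s).T (h s 0) * x)) a3
    simpa only [← Matrix.mul_assoc, a4, Matrix.smul_mul, Matrix.one_mul, smul_smul, Units.inv_mul,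
      one_smul, Matrix.mul_smul, Matrix.mul_one] using a5
  choose c hc using h3
  have h4 : ∀ s t, (F.f s).T (h s t) = (F.f s).T (update (h s 0) 0 (![1, c s] t • h s 0 0)) :=
    fun s t => by
      rw [T_smul0]
      fin_cases t
      · exact (one_smul _ _).symm
      · exact hc s
  refine ⟨fun s t => update (h s 0) 0 (![1, c s] t • h s 0 0),
    h2.trans (congrArg F.z.em2 (funext fun s => funext fun t => h4 s t)),
    fun s t => det_unit _ (h4 s t ▸ hu s t), fun s t i => ?_⟩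
  by_cases hi : i = 0
  · subst hi
    exact ⟨![1, c s] t, by simp⟩
  · exact ⟨1, by simp [update_of_ne hi]⟩

variable (F)

/-- The numerator of the element of a line. -/
def no : Option (P1 l) → Matrix ν ν ℤ_[l]
  | none => 1
  | some p => F.EL q (cz p * dn l) 1 l

/-- The inverse of the element of a line. -/
def mo : Option (P1 l) → Matrix ν ν ℤ_[l]
  | none => 1
  | some p => F.EL q (dm l * adjugate (cz p)) l 1

/-- The denominator of the element of a line. -/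
def de : Option (P1 l) → ℤ_[l]
  | none => 1
  | some _ => l

omit [Dim] in
theorem de_ne (τ : Option (P1 l)) : cq l (de τ) ≠ 0 := by
  cases τ
  · exact (map_ne_zero_iff _ cq_inj).2 one_ne_zero
  · exact (map_ne_zero_iff _ cq_inj).2 l_ne

theorem mo_no (τ : Option (P1 l)) : mo F q τ * no F q τ = de τ • 1 := by
  cases τ
  · simp [mo, no, de]
  · rw [mo, no, de, Fm.EL_mul, Matrix.mul_assoc, ← Matrix.mul_assoc (adjugate _), adjugate_mul,
      det_cz, one_smul, Matrix.one_mul, dm_dn, mul_one, one_mul, Fm.EL_scalar]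

theorem no_mo (τ : Option (P1 l)) : no F q τ * mo F q τ = de τ • 1 := by
  cases τ
  · simp [mo, no, de]
  · rw [mo, no, de, Fm.EL_mul, Matrix.mul_assoc, ← Matrix.mul_assoc (dn l), dn_dm,
      Matrix.smul_mul, Matrix.one_mul, Matrix.mul_smul, mul_adjugate, det_cz, one_smul, mul_one,
      one_mul, Fm.EL_scalar]

theorem sm_mo (τ : Option (P1 l)) : Sm (mo F q τ) (de τ) := by
  cases τ
  · exact Sm.one
  · exact F.EL_sm q (by rw [det_mul, det_adjugate, det_cz]; simp [dm, de]) (mul_one _)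

theorem sm_no (τ : Option (P1 l)) : Sm (no F q τ) (de τ) := by
  cases τ
  · exact Sm.one
  · exact F.EL_sm q (by rw [det_mul, det_cz]; simp [dn, de]) (one_mul _)

theorem pu_mo (τ : Option (P1 l)) : F.Pu (mo F q τ) := by
  cases τ
  · exact Fm.Pu.one
  · exact ⟨⟨_, sm_mo F q _⟩, _, rfl⟩

/-- The element of a line. -/
def kk (τ : Option (P1 l)) : GL ν ℚ_[l] where
  val := (cq l (de τ))⁻¹ • (no F q τ).map (cq l)
  inv := (mo F q τ).map (cq l)
  val_inv := by
    rw [Matrix.smul_mul, ← Matrix.map_mul, no_mo, Matrix.map_smul' _ _ _ (map_mul _), smul_smul,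
      inv_mul_cancel₀ (de_ne τ), one_smul, Matrix.map_one _ (map_zero _) (map_one _)]
  inv_val := by
    rw [Matrix.mul_smul, ← Matrix.map_mul, mo_no, Matrix.map_smul' _ _ _ (map_mul _), smul_smul,
      inv_mul_cancel₀ (de_ne τ), one_smul, Matrix.map_one _ (map_zero _) (map_one _)]

theorem kk_val (τ : Option (P1 l)) :
    (kk F q τ : Matrix ν ν ℚ_[l]) = (cq l (de τ))⁻¹ • (no F q τ).map (cq l) := rfl

theorem kk_inv (τ : Option (P1 l)) :
    ((kk F q τ)⁻¹ : GL ν ℚ_[l]) = (mo F q τ).map (cq l) := rfl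

theorem kk_none : kk F q none = 1 := Units.ext (by simp [kk_val, de, no])

theorem pu_kk_inv (τ : Option (P1 l)) :
    (F.map (cq l)).Pu (((kk F q τ)⁻¹ : GL ν ℚ_[l]) : Matrix ν ν ℚ_[l]) := (pu_mo F q τ).map _

theorem pu_kk (τ : Option (P1 l)) : (F.map (cq l)).Pu (kk F q τ : Matrix ν ν ℚ_[l]) :=
  (pu_kk_inv F q τ).inv (kk F q τ).inv_mul

theorem sm_kk (τ : Option (P1 l)) : Sm (kk F q τ : Matrix ν ν ℚ_[l]) (cq l (de τ))⁻¹ := by
  have := ((sm_no F q τ).map (cq l)).smul (cq l (de τ))⁻¹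
  rwa [sq, mul_assoc, inv_mul_cancel₀ (de_ne τ), mul_one] at this

theorem map_smul_inv {A U : Matrix ν ν ℤ_[l]} {c : ℤ_[l]} (hc : cq l c ≠ 0) (h : A = c • U) :
    U.map (cq l) = (cq l c)⁻¹ • A.map (cq l) := by
  rw [h, Matrix.map_smul' _ _ _ (map_mul _), smul_smul, inv_mul_cancel₀ hc, one_smul]

variable {F q}

/-- The local group moves the lines. -/
theorem move {k : GL ν ℤ_[l]} (hk : k ∈ KZ F) {h : Fin e → Fin 2 → Fin 3 → M2 ℤ_[l]}
    (e : (k : Matrix ν ν ℤ_[l]) = F.T2 h) {p p' : P1 l}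
    (hp : ∀ t, wd (vec p') ((h q.1 t q.2).map (rd l) *ᵥ vec p) = 0) :
    ∃ k' ∈ KZ F, tQ l k * kk F q (some p) = kk F q (some p') * tQ l k' := by
  obtain ⟨U, hU⟩ := exists_div (A := mo F q (some p') * k.1 * no F q (some p)) (by
    simp only [mo, no]
    rw [e, Fm.EL_T2, Fm.map_T2]
    refine Fm.T2_zero _ fun s t => ⟨q.2, ?_⟩
    simp only [update_self]
    split_ifs with hs
    · rw [rd_mn, hs, hp]
      ext i j
      fin_cases i <;> fin_cases j <;> simp
    · fin_cases t <;> simp [Matrix.map_smul' _ _ _ (map_mul (rd l))])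
  have h1 : U.map (cq l) = ((kk F q (some p'))⁻¹ * tQ l k * kk F q (some p) : GL ν ℚ_[l]).1 := by
    rw [map_smul_inv (de_ne (some p)) hU, Units.val_mul, Units.val_mul, kk_val, Matrix.mul_smul,
      Matrix.map_mul, Matrix.map_mul, kk_inv, tQ_val]
  obtain ⟨μ, hμ⟩ := hk.1
  have h2 : Sm U μ := Sm.of_map cq_inj (by
    have := (((sm_mo F q (some p')).mul hμ).map (cq l)).mul (sm_kk F q (some p))
    rw [map_mul, mul_right_comm, show de (some p') = de (some p) from rfl,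
      mul_inv_cancel₀ (de_ne _), one_mul, Matrix.map_mul] at this
    rwa [h1, Units.val_mul, Units.val_mul, kk_inv, tQ_val])
  obtain ⟨k', h3, h4⟩ := exists_KZ (F := F) (by
    rw [Units.val_mul, Units.val_mul]
    exact ((pu_kk_inv F q _).mul (Fm.Pu.map _ hk)).mul (pu_kk F q _))
    (h2.isUnit (hμ.unit k.isUnit)) h1
  exact ⟨k', h3, by rw [h4, mul_assoc, mul_inv_cancel_left]⟩

theorem exists_move {k : GL ν ℤ_[l]} (hk : k ∈ KZ F) (τ : Option (P1 l)) :
    ∃ τ', ∃ k' ∈ KZ F, tQ l k * kk F q τ = kk F q τ' * tQ l k' := by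
  cases τ with
  | none => exact ⟨none, k, hk, by rw [kk_none, mul_one, one_mul]⟩
  | some p =>
    obtain ⟨h, h1, h2, h3⟩ := KZ_nf hk
    have h4 : (h q.1 0 q.2).map (rd l) *ᵥ vec p ≠ 0 := fun h0 => vec_ne p
      (eq_zero_of_mulVec_eq_zero (by
        rw [← RingHom.mapMatrix_apply, ← RingHom.map_det]
        exact unit_iff_rd.1 (h2 _ _ _)) h0)
    obtain ⟨p', c, -, h5⟩ := exists_vec h4
    refine ⟨some p', move hk h1 fun t => ?_⟩
    obtain ⟨d, hd⟩ := h3 q.1 t q.2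
    rw [hd, Matrix.map_smul' _ _ _ (map_mul _), smul_mulVec, h5]
    simp only [wd, Pi.smul_apply, smul_eq_mul]
    ring

/-- The line is determined by the lattice. -/
theorem kk_inj {τ τ' : Option (P1 l)} {U : GL ν ℤ_[l]} (h : kk F q τ = kk F q τ' * tQ l U) :
    τ = τ' := by
  have h1 : (U : Matrix ν ν ℤ_[l]).map (cq l) = ((kk F q τ')⁻¹ * kk F q τ : GL ν ℚ_[l]) := by
    rw [h, inv_mul_cancel_left, tQ_val]
  obtain ⟨μ, h2, h3⟩ := Sm.desc (g := (U : Matrix ν ν ℤ_[l])) cq_inj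
    (by rw [h1]; exact ((sm_mo F q τ').map (cq l)).mul (sm_kk F q τ))
  have h4 := h3.unit U.isUnit
  have h5 : μ * de τ = de τ' := cq_inj (by rw [map_mul, h2, inv_mul_cancel_right₀ (de_ne τ)])
  rcases τ with _ | p <;> rcases τ' with _ | p'
  · rfl
  · exact absurd (h5 ▸ h4.mul isUnit_one) not_unit_l
  · exact absurd (IsUnit.of_mul_eq_one_right _ h5) not_unit_l
  have h6 : mo F q (some p') * 1 * no F q (some p) = (l : ℤ_[l]) • (U : Matrix ν ν ℤ_[l]) := by
    refine Matrix.map_injective cq_inj ?_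
    change (_ * _ * _ : Matrix ν ν ℤ_[l]).map (cq l) = (_ • _ : Matrix ν ν ℤ_[l]).map (cq l)
    rw [Matrix.map_smul' _ _ _ (map_mul _), h1, Units.val_mul, kk_val, Matrix.mul_smul, smul_smul,
      Matrix.mul_one, Matrix.map_mul]
    exact ((congrArg (· • _) (mul_inv_cancel₀ (de_ne (some p)))).trans (one_smul _ _)).symm
  have h7 := congrArg (fun x => (F.map (rd l)).z.pr2 (x.map (rd l)) q.1 0) h6
  simp only [mo, no] at h7
  rw [← F.T2_one, Fm.EL_T2, Fm.map_T2, Fm.pr2_T2, Matrix.map_smul' _ _ _ (map_mul _), rd_l,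
    zero_smul, map_zero, if_pos rfl] at h7
  have h8 := congrArg (fun x => (((F.map (rd l)).f q.1).Q * x * ((F.map (rd l)).f q.1).P)
    (update 0 q.2 1) 0) h7
  simp only [Fr.QTP, Pi.zero_apply, Matrix.mul_zero, Matrix.zero_mul, Matrix.zero_apply] at h8
  rw [tp_apply, Finset.prod_eq_single q.2 (fun i _ hi => by simp [update_of_ne hi]) (by simp),
    update_self, update_self, rd_mn] at h8
  have h9 : wd (vec p') (vec p) = 0 := by simpa using h8
  rw [vec_inj h9]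

end MG.C1
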