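import Pool.Agent.Lib.MP_33b3f9_ag.MG.C1.LocB
import Pool.Agent.Lib.MP_33b3f9_ag.MG.C1.Slot

/-!
Case I: the local level structures.
-/

set_option autoImplicit false

noncomputable section

namespace MG.C1

open Matrix M4 Pool.Agent.M4.Mx Function

variable {l : ℕ} [Fact l.Prime] [Dim] {e : ℕ} {a b : MZ} (F : Fm e a b ℤ_[l]) (q : Fin e × Fin 3)

/-- The reduction modulo `l ^ 4`. -/
def r4 (l : ℕ) [Fact l.Prime] : GL ν ℤ_[l] →* GL ν (ZMod (l ^ 4)) :=
  GeneralLinearGroup.map (PadicInt.toZModPow 4)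

/-- The congruence subgroup of level `l ^ 4`. -/
def G4 (l : ℕ) [Fact l.Prime] : Subgroup (GL ν ℚ_[l]) := (r4 l).ker.map (tQ l)

/-- Congruence modulo `l ^ 4`. -/
def D4 (A B : Matrix ν ν ℤ_[l]) : Prop := ∀ i j, (l : ℤ_[l]) ^ 4 ∣ (A - B) i j

theorem D4_iff {A B : Matrix ν ν ℤ_[l]} : D4 A B ↔ ∃ z, A = B + (l : ℤ_[l]) ^ 4 • z := by
  refine ⟨fun h => ?_, fun ⟨z, h⟩ i j => ⟨z i j, by simp [h]⟩⟩
  choose z hz using h
  exact ⟨Matrix.of z, eq_add_of_sub_eq' (by ext i j : 1; exact hz i j)⟩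

theorem mem_ker {k : GL ν ℤ_[l]} : k ∈ (r4 l).ker ↔ D4 (k : Matrix ν ν ℤ_[l]) 1 := by
  rw [MonoidHom.mem_ker, Units.ext_iff, ← Matrix.ext_iff]
  refine forall₂_congr fun i j => ?_
  rw [← Ideal.mem_span_singleton, ← PadicInt.ker_toZModPow, RingHom.mem_ker, Matrix.sub_apply,
    map_sub, sub_eq_zero]
  refine Eq.congr_right ?_
  exact (congrFun (congrFun (map_one (PadicInt.toZModPow (p := l) 4).mapMatrix) i) j).symm

theorem mem_G4 {γ : GL ν ℚ_[l]} :
    γ ∈ G4 l ↔ ∃ z : Matrix ν ν ℤ_[l], (1 + (l : ℤ_[l]) ^ 4 • z).map (cq l) = γ := by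
  refine ⟨fun ⟨k, h1, h2⟩ => ?_, fun ⟨z, h⟩ => ?_⟩
  · obtain ⟨z, hz⟩ := D4_iff.1 (mem_ker.1 h1)
    exact ⟨z, by rw [← hz, ← h2, tQ_val]⟩
  · obtain ⟨u, hu⟩ : IsUnit (1 + (l : ℤ_[l]) ^ 4 • z) := by
      rw [isUnit_iff_isUnit_det, unit_iff_rd, RingHom.map_det, map_add, map_one,
        RingHom.mapMatrix_apply, Matrix.map_smul' _ _ _ (map_mul _), map_pow, rd_l]
      simp
    exact ⟨u, mem_ker.2 (D4_iff.2 ⟨z, hu⟩), Units.ext (by rw [tQ_val, hu, h])⟩

theorem tQ_inj : Injective (tQ l) := fun _ _ h =>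
  Units.ext (Matrix.map_injective cq_inj (congrArg Units.val h))

/-- The level structures on the standard lattice. -/
def X0 : Type := {x : GL ν ℚ_[l] ⧸ G4 l // ∃ k ∈ KZ F, x = (tQ l k : GL ν ℚ_[l] ⧸ G4 l)}

variable {F}

/-- A representative. -/
def rp (x : X0 F) : GL ν ℤ_[l] := x.2.choose

theorem rp_mem (x : X0 F) : rp x ∈ KZ F := x.2.choose_spec.1

theorem rp_eq (x : X0 F) : x.1 = (tQ l (rp x) : GL ν ℚ_[l] ⧸ G4 l) := x.2.choose_spec.2

theorem rp_inj : Injective fun x : X0 F => (r4 l (rp x) : Matrix ν ν (ZMod (l ^ 4))) :=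
  fun x y h => Subtype.ext (by
    rw [rp_eq, rp_eq, QuotientGroup.eq, ← map_inv, ← map_mul]
    refine Subgroup.mem_map_of_mem _ ?_
    rw [MonoidHom.mem_ker, map_mul, map_inv, Units.ext h, inv_mul_cancel])

instance : Finite (X0 F) := Finite.of_injective _ rp_inj

instance : Fintype (X0 F) := Fintype.ofFinite _

instance : Nonempty (X0 F) := ⟨⟨_, 1, (KZ F).one_mem, rfl⟩⟩

theorem card_X0 : Fintype.card (X0 F) ≤ l ^ (4 * Fintype.card ν ^ 2) := by
  refine (Fintype.card_le_of_injective _ rp_inj).trans (le_of_eq ?_)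
  rw [← Fintype.card_congr (Matrix.of (m := ν) (n := ν) (α := ZMod (l ^ 4))), Fintype.card_fun,
    Fintype.card_fun, ZMod.card, ← pow_mul, ← pow_mul, sq]

variable (F)

/-- The level structures. -/
abbrev XL : Type := Option (P1 l) × X0 F

variable {F}

/-- A representative. -/
def kx (x : XL F) : GL ν ℚ_[l] := kk F q x.1 * tQ l (rp x.2)

/-- The coset of a level structure. -/
def emb (x : XL F) : GL ν ℚ_[l] ⧸ G4 l := (kx q x : GL ν ℚ_[l] ⧸ G4 l)

theorem emb_eq (x : XL F) : emb q x = kk F q x.1 • x.2.1 := by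
  rw [rp_eq]
  rfl

theorem smul_emb (δ : GL ν ℚ_[l]) (x : XL F) :
    δ • emb q x = ((δ * kx q x : GL ν ℚ_[l]) : GL ν ℚ_[l] ⧸ G4 l) := rfl

theorem emb_inj : Injective (emb (F := F) q) := fun x y h => by
  obtain ⟨k, -, h2⟩ := QuotientGroup.eq.1 h.symm
  have h3 : x.1 = y.1 := kk_inj (F := F) (q := q) (U := rp y.2 * k * (rp x.2)⁻¹) (by
    rw [map_mul, map_mul, map_inv, h2, kx, kx]
    group)
  rw [emb_eq, emb_eq, h3] at h
  exact Prod.ext h3 (Subtype.ext (MulAction.injective _ h))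

variable {q}

theorem exists_emb {γ : GL ν ℚ_[l]} {τ' : Option (P1 l)} {k : GL ν ℤ_[l]} (hk : k ∈ KZ F)
    (x : XL F) (h : γ * kk F q x.1 = kk F q τ' * tQ l k) :
    ∃ y : XL F, y.1 = τ' ∧ emb q y = γ • emb q x := by
  refine ⟨(τ', ⟨_, k * rp x.2, (KZ F).mul_mem hk (rp_mem _), rfl⟩), rfl, ?_⟩
  rw [emb_eq, smul_emb, kx, ← mul_assoc, h, mul_assoc, ← map_mul]
  rfl

theorem exists_act (k : KZ F) (x : XL F) : ∃ y : XL F, emb q y = tQ l k • emb q x := by
  obtain ⟨τ', k', h1, h2⟩ := exists_move (q := q) k.2 x.1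
  exact (exists_emb h1 x h2).imp fun _ h => h.2

variable (q)

/-- The action of the local group. -/
def actL : KZ F →* Equiv.Perm (XL F) :=
  MonoidHom.toHomPerm
    { toFun := fun k x => (exists_act (q := q) k x).choose
      map_one' := funext fun x => emb_inj q (by
        rw [(exists_act (q := q) 1 x).choose_spec, Subgroup.coe_one, map_one, one_smul]
        rfl)
      map_mul' := fun k k' => funext fun x => emb_inj q (by
        rw [(exists_act (q := q) (k * k') x).choose_spec, Subgroup.coe_mul, map_mul, mul_smul,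
          ← (exists_act (q := q) k' x).choose_spec]
        exact (exists_act (q := q) k _).choose_spec.symm) }

theorem emb_act (k : KZ F) (x : XL F) : emb q (actL q k x) = tQ l k • emb q x :=
  (exists_act (q := q) k x).choose_spec

variable {q}

theorem act_fst {k : KZ F} {k' : GL ν ℤ_[l]} (hk : k' ∈ KZ F) {x : XL F} {τ' : Option (P1 l)}
    (h : tQ l k * kk F q x.1 = kk F q τ' * tQ l k') : (actL q k x).1 = τ' := by
  obtain ⟨y, h1, h2⟩ := exists_emb hk x h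
  rw [emb_inj q ((emb_act q k x).trans h2.symm), h1]

theorem act_none (k : KZ F) {x : XL F} (h : x.1 = none) : (actL q k x).1 = none :=
  act_fst k.2 (by rw [h, kk_none, mul_one, one_mul])

theorem act_some {k : KZ F} {h : Fin e → Fin 3 → M2 ℤ_[l]}
    (e : ((k : GL ν ℤ_[l]) : Matrix ν ν ℤ_[l]) = F.T h) {p p' : P1 l}
    (hp : wd (vec p') ((h q.1 q.2).map (rd l) *ᵥ vec p) = 0) {x : XL F} (hx : x.1 = some p) :
    (actL q k x).1 = some p' := by
  obtain ⟨k', h1, h2⟩ := move (q := q) k.2 (h := fun s _ => h s) e fun _ => hp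
  exact act_fst h1 (hx ▸ h2)

theorem act_isSome (k : KZ F) (x : XL F) : (actL q k x).1.isSome = x.1.isSome := by
  cases h : x.1 with
  | none => rw [act_none k h]
  | some p =>
    cases h' : (actL q k x).1 with
    | none =>
      have := act_none (q := q) k⁻¹ h'
      rw [← Equiv.Perm.mul_apply, ← map_mul, inv_mul_cancel, map_one, Equiv.Perm.one_apply,
        h] at this
      exact absurd this (Option.some_ne_none p)
    | some p' => rfl

variable (F q)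

/-- The kernel of `g` at `l` is the Lagrangian of the line. -/
def Ad (g : MZ) (M : ℕ) : Option (P1 l) → Prop
  | none => ¬ l ∣ M
  | some p => l ∣ M ∧ Ker g l = slot (F.map (rd l)) q (vec p)

theorem no_mem (p : P1 l) (j : ν) :
    (fun i => ((rd l (no F q (some p) i j)).val : ℤ)) ∈ slot (F.map (rd l)) q (vec p) := by
  have h1 : (fun i => (((rd l (no F q (some p) i j)).val : ℤ) : ZMod l)) =
      (F.map (rd l)).T2 (Fm.el q ((cz p * dn l).map (rd l)) 1 0) *ᵥ Pi.single j 1 := by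
    rw [← Fm.EL, ← map_one (rd l), ← rd_l, ← Fm.EL_map, map_one, mulVec_single_one]
    funext i
    rw [Int.cast_natCast, ZMod.natCast_zmod_val]
    rfl
  have h2 : (cz p * dn l).map (rd l) = vecMulVec (vec p) ![1, 0] := by
    ext i j
    fin_cases j <;> simp [dn, Matrix.mul_apply, vecMulVec_apply, rd_cz]
  refine ⟨fun c k => ?_, fun s hs => ?_⟩
  · simp only [h1, Fm.co_T2, Fm.el, if_true, h2, G.tp_rank_one, wd, update_self, update_idem]
    ring
  · rw [h1, Fm.co_T2, Fm.el, if_neg hs]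
    have : Pool.Agent.M4.tp (update (1 : Fin 3 → M2 (ZMod l)) q.2 ((0 : ZMod l) • 1)) = 0 := by
      rw [tp_update_smul, zero_smul]
    exact (congrArg (· *ᵥ _) this).trans (zero_mulVec _)

variable {F q}

theorem exists_U {g : MZ} {M : ℕ} (hg : Iso g M) {τ : Option (P1 l)} (h : Ad F q g M τ) :
    ∃ U : GL ν ℤ_[l], zM ℚ_[l] g * (kk F q τ : Matrix ν ν ℚ_[l]) = tQ l U ∧
      ∃ u : ℤ_[l]ˣ, (M : ℤ_[l]) = de τ * u := by
  have hs := sm_zM hg.2.2 ℤ_[l]
  cases τ with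
  | none =>
    obtain ⟨u, hu⟩ := unit_nat (l := l) h
    obtain ⟨U, hU⟩ := hs.isUnit (unit_nat h)
    exact ⟨U, by rw [kk_none, Units.val_one, Matrix.mul_one, tQ_val, hU, zM_map], u,
      by rw [hu, de, one_mul]⟩
  | some p =>
    obtain ⟨⟨c, rfl⟩, h2⟩ := h
    obtain ⟨u, hu⟩ := unit_nat (l := l) (M := c) fun hc => (Fact.out : l.Prime).not_isUnit
      (hg.1.1 l (mul_dvd_mul_left l hc))
    obtain ⟨U, hU⟩ := exists_div (A := zM ℤ_[l] g * no F q (some p)) (by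
      ext i j
      have h3 : (l : ℤ) ∣ _ := (h2 ▸ no_mem F q p j : _ ∈ Ker g l) i
      rw [← ZMod.intCast_zmod_eq_zero_iff_dvd] at h3
      simp only [mulVec, dotProduct, Int.cast_sum, Int.cast_mul, Int.cast_natCast,
        ZMod.natCast_zmod_val] at h3
      simpa [Matrix.mul_apply] using h3)
    have h4 : U.map (cq l) = zM ℚ_[l] g * (kk F q (some p) : Matrix ν ν ℚ_[l]) := by
      rw [map_smul_inv (de_ne (some p)) hU, kk_val, Matrix.mul_smul, Matrix.map_mul, zM_map]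
    have h5 : Sm U u := Sm.of_map cq_inj (by
      have := (sm_zM hg.2.2 ℚ_[l]).mul (sm_kk F q (some p))
      rwa [← h4, ← map_natCast (cq l), Nat.cast_mul, map_mul, mul_right_comm,
        show (l : ℤ_[l]) = de (some p) from rfl, mul_inv_cancel₀ (de_ne _), one_mul, ← hu] at this)
    obtain ⟨V, hV⟩ := h5.isUnit u.isUnit
    exact ⟨V, by rw [tQ_val, hV, h4], u, by rw [hu, Nat.cast_mul]; rfl⟩

theorem emb_iff {δ : GL ν ℚ_[l]} {g g' : Matrix ν ν ℚ_[l]} {W : Matrix ν ν ℤ_[l]}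
    {U U' : GL ν ℤ_[l]} {x y : XL F} (hx : g * (kx q x : Matrix ν ν ℚ_[l]) = tQ l U)
    (hy : g' * (kx q y : Matrix ν ν ℚ_[l]) = tQ l U')
    (hW : g' * (δ : Matrix ν ν ℚ_[l]) = W.map (cq l) * g) :
    emb q y = δ • emb q x ↔ D4 (W * U.1) U'.1 := by
  have h1 : ((U'⁻¹).1 * (W * U.1)).map (cq l) = ((kx q y)⁻¹ * (δ * kx q x) : GL ν ℚ_[l]).1 := by
    refine (tQ l U').isUnit.mul_left_cancel ?_
    rw [tQ_val, ← Matrix.map_mul, Units.mul_inv_cancel_left, ← tQ_val, ← hy, Matrix.mul_assoc,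
      ← Units.val_mul, mul_inv_cancel_left, Units.val_mul, ← Matrix.mul_assoc, hW,
      Matrix.mul_assoc, hx, Matrix.map_mul, tQ_val]
  rw [smul_emb, emb, QuotientGroup.eq, mem_G4, D4_iff, ← h1]
  refine ⟨fun ⟨z, h⟩ => ⟨U'.1 * z, ?_⟩, fun ⟨z, h⟩ => ⟨(U'⁻¹).1 * z, ?_⟩⟩
  · have := congrArg (U'.1 * ·) (Matrix.map_injective cq_inj h)
    simpa only [Units.mul_inv_cancel_left, Matrix.mul_add, Matrix.mul_one, Matrix.mul_smul]
      using this.symm
  · rw [h, Matrix.mul_add, Units.inv_mul, Matrix.mul_smul]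

theorem decomp {δ : GL ν ℚ_[l]} {x y : XL F} (h : emb q y = δ • emb q x) {d : Matrix ν ν ℤ_[l]}
    {u : ℤ_[l]} (hd : d.map (cq l) = cq l (de y.1 * u) • (δ : Matrix ν ν ℚ_[l])) :
    ∃ k ∈ KZ F, ∃ z, d = u • (no F q y.1 * k.1 * mo F q x.1) + (l : ℤ_[l]) ^ 4 • z := by
  rw [smul_emb, emb, QuotientGroup.eq, mem_G4] at h
  obtain ⟨z, hz⟩ := h
  refine ⟨rp y.2 * (rp x.2)⁻¹, (KZ F).mul_mem (rp_mem _) ((KZ F).inv_mem (rp_mem _)),
    u • (no F q y.1 * ((rp y.2).1 * z * ((rp x.2)⁻¹).1) * mo F q x.1), ?_⟩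
  have h1 : δ.1 = (kx q y).1 * (1 + (l : ℤ_[l]) ^ 4 • z).map (cq l) * ((kx q x)⁻¹).1 := by
    rw [hz, ← Units.val_mul, ← Units.val_mul, mul_inv_cancel_left, mul_inv_cancel_right]
  have h2 : d = u • (no F q y.1 * ((rp y.2).1 * (1 + (l : ℤ_[l]) ^ 4 • z) * ((rp x.2)⁻¹).1) *
      mo F q x.1) := Matrix.map_injective cq_inj (by
    change d.map (cq l) = (_ • _ : Matrix ν ν ℤ_[l]).map (cq l)
    rw [hd, h1, kx, kx, _root_.mul_inv_rev, Units.val_mul, Units.val_mul, kk_val, kk_inv,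
      ← map_inv (tQ l), tQ_val, tQ_val, Matrix.map_smul' _ _ _ (map_mul _)]
    simp only [Matrix.map_mul, Matrix.smul_mul, smul_smul, map_mul, Matrix.mul_assoc]
    rw [mul_right_comm, mul_inv_cancel₀ (de_ne _), one_mul])
  rw [h2]
  simp only [Matrix.mul_add, Matrix.add_mul, Matrix.mul_one, Matrix.mul_smul, Matrix.smul_mul,
    smul_add, Units.val_mul, smul_comm u]

theorem cub {δ : GL ν ℚ_[l]} {x y : XL F} (h : emb q y = δ • emb q x) (hx : x.1 = none)
    (hy : y.1 = none) {d : Matrix ν ν ℤ_[l]} {u : ℤ_[l]}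
    (hd : d.map (cq l) = cq l u • (δ : Matrix ν ν ℚ_[l])) :
    ∃ k, d.map (rd l) = (F.map (rd l)).T2 k := by
  obtain ⟨k, h1, z, rfl⟩ := decomp h (u := u) (by rwa [hy, de, one_mul])
  obtain ⟨-, k', h2⟩ := (Fm.Pu.smul h1 u).map (rd l)
  refine ⟨k', ?_⟩
  rw [hx, hy, no, mo, Matrix.one_mul, Matrix.mul_one, Matrix.map_add _ (map_add _), h2,
    Matrix.map_smul' _ _ _ (map_mul _), map_pow, rd_l]
  simp

end MG.C1
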