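import Pool.Agent.Lib.MP_33b3f9_ag.MG.C1.FDefs

/-!
Case I: special lines.
-/

set_option autoImplicit false

noncomputable section

namespace MG.C1

open Matrix Finset M4 Pool.Agent.M4.Det Pool.Agent.M4.Mx Function Polynomial

variable [Dim] {e : ℕ} {a b : MZ} {m n : ℕ} {L : Type} [Field L] {l₁ : ℕ}
  {K : IntermediateField ℚ ℂ} {r : Rep K} {τ : Mat} {F : Frs e a b L l₁}
  {LY : Finset (GP L l₁)} {sl : GP L l₁ → Fin e × Fin 3} {Cp : ℕ}
  {y : MZ → ℕ → Bits → (ν → ℚ) → ℂ}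

omit [Dim] in
theorem locd_kill {l : ℕ} [Fact l.Prime] (p : P1 l) :
    (dm l * adjugate (cz p)).map (rd l) *ᵥ vec p = 0 := by
  funext i
  fin_cases i <;>
    simp [dm, Fin.sum_univ_two, adjugate_fin_two, ← rd_cz, mulVec, dotProduct]
  ring

omit [Dim] in
theorem locd_det {l : ℕ} [Fact l.Prime] (p : P1 l) : (dm l * adjugate (cz p)).det = l := by
  rw [det_mul, det_adjugate, det_cz]
  simp [dm]

omit [Dim] in
theorem locd_ne {l : ℕ} [Fact l.Prime] (p : P1 l) {g : M2 ℤ_[l]} (hg : IsUnit g.det) :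
    (g * (dm l * adjugate (cz p))).map (rd l) ≠ 0 := fun h0 => by
  obtain ⟨U, hU⟩ := exists_div h0
  have h1 := congrArg det hU
  rw [det_mul, locd_det, det_smul, Fintype.card_fin, sq, mul_assoc, mul_comm g.det] at h1
  exact not_unit_l (isUnit_of_mul_isUnit_left (mul_left_cancel₀ l_ne h1 ▸ hg))

theorem locd_left {l : ℕ} [Fact l.Prime] {F : Fm e a b ℤ_[l]} {q : Fin e × Fin 3} {p : P1 l}
    {u : ℤ_[l]ˣ} {cn : M2 ℤ_[l]} {x y : ℤ_[l]} {k : Fin e → Fin 2 → Fin 3 → M2 ℤ_[l]}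
    (hk : ∀ s t i, IsUnit (k s t i).det) (hc : cn.det ∣ l) (z : Matrix ν ν ℤ_[l])
    (hA : (cn * k q.1 0 q.2 * (dm l * adjugate (cz p))).map (rd l) ≠ 0) :
    ∃ h : Fin 3 → M2 ℤ_[l], (∀ i j, (l : ℤ_[l]) ^ 3 ∣ (F.z.pr2 ((u : ℤ_[l]) •
        (F.EL q cn x y * F.T2 k * mo F q (some p)) + (l : ℤ_[l]) ^ 4 • z) q.1 0 -
        (F.f q.1).T h) i j) ∧
      (∀ t, t ≠ q.2 → IsUnit (h t).det) ∧ (h q.2).det ∣ (l : ℤ_[l]) ^ 2 ∧
      (h q.2).map PadicInt.toZMod ≠ 0 ∧ (h q.2).map PadicInt.toZMod *ᵥ vec p = 0 := by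
  obtain ⟨A, hAe⟩ : ∃ A, A = cn * k q.1 0 q.2 * (dm l * adjugate (cz p)) := ⟨_, rfl⟩
  have hu : rd l u ≠ 0 := unit_iff_rd.1 u.isUnit
  refine ⟨update (k q.1 0) q.2 ((u : ℤ_[l]) • A), fun i j => ?_, fun t ht => ?_, ?_, ?_, ?_⟩
  · have h1 := T_smul0 (F.f q.1) u (update (k q.1 0) q.2 A) q.2
    rw [update_idem, update_self] at h1
    rw [h1, mo, Fm.EL_T2, map_add, map_smul, map_smul, Pi.add_apply, Pi.add_apply, Pi.smul_apply,
      Pi.smul_apply, Pi.smul_apply, Pi.smul_apply, Fm.pr2_T2, if_pos rfl, ← hAe,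
      add_sub_cancel_left, Matrix.smul_apply, smul_eq_mul]
    exact (pow_dvd_pow _ (by norm_num)).mul_right _
  · rw [update_of_ne ht]
    exact hk _ _ _
  · rw [update_self, det_smul, (u.isUnit.pow _).mul_left_dvd, hAe, det_mul, locd_det, det_mul, sq]
    exact mul_dvd_mul_right ((hk _ _ _).mul_right_dvd.2 hc) _
  · rw [update_self, Matrix.map_smul' _ _ _ (map_mul (rd l)), hAe]
    exact smul_ne_zero hu hA
  · rw [update_self, Matrix.map_smul' _ _ _ (map_mul (rd l)), hAe, Matrix.map_mul, smul_mulVec,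
      ← mulVec_mulVec, locd_kill, mulVec_zero, smul_zero]

theorem spec_or {l : ℕ} [Fact l.Prime] {F : Fm e a b ℤ_[l]} {q : Fin e × Fin 3}
    {δ : GL ν ℚ_[l]} {x y : XL F} (h : emb q y = δ • emb q x) {p : P1 l} (hx : x.1 = some p)
    {d : Matrix ν ν ℤ_[l]} {u : ℤ_[l]ˣ}
    (hd : d.map (cq l) = cq l (de y.1 * u) • (δ : Matrix ν ν ℚ_[l])) :
    (∃ h : Fin 3 → M2 ℤ_[l], (∀ i j, (l : ℤ_[l]) ^ 3 ∣ (F.z.pr2 d q.1 0 - (F.f q.1).T h) i j) ∧
      (∀ t, t ≠ q.2 → IsUnit (h t).det) ∧ (h q.2).det ∣ (l : ℤ_[l]) ^ 2 ∧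
      (h q.2).map PadicInt.toZMod ≠ 0 ∧ (h q.2).map PadicInt.toZMod *ᵥ vec p = 0) ∨
    (y.1.isSome ∧ ∃ V : Matrix ν ν ℤ_[l], V.map (cq l) = δ) := by
  obtain ⟨k, h1, z, h2⟩ := decomp h hd
  obtain ⟨g, h3, h4, h5⟩ := KZ_nf h1
  rw [hx, h3] at h2
  cases hy : y.1 with
  | none =>
    have h6 : no F q none = F.EL q 1 1 1 := by
      have := F.EL_scalar q 1
      rw [one_smul, one_smul] at this
      exact this.symm
    rw [hy, h6] at h2
    rw [h2]
    exact Or.inl (locd_left h4 (by simp) z (by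
      rw [Matrix.one_mul]
      exact locd_ne p (h4 _ _ _)))
  | some p' =>
    rw [hy] at h2 hd
    by_cases hA : (cz p' * dn l * g q.1 0 q.2 * (dm l * adjugate (cz p))).map (rd l) = 0
    · refine Or.inr ⟨rfl, ?_⟩
      obtain ⟨V, hV⟩ := exists_div (A := d) (by
        have h6 : (no F q (some p') * F.T2 g * mo F q (some p)).map (rd l) = 0 := by
          simp only [mo, no]
          rw [Fm.EL_T2, Fm.map_T2]
          refine Fm.T2_zero _ fun s t => ⟨q.2, ?_⟩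
          simp only [update_self]
          split_ifs with hs
          · obtain ⟨c, hc⟩ := h5 s t q.2
            rw [hc, Matrix.mul_smul, Matrix.smul_mul, Matrix.map_smul' _ _ _ (map_mul (rd l)), hs,
              hA, smul_zero]
          · fin_cases t <;> simp [Matrix.map_smul' _ _ _ (map_mul (rd l))]
        rw [h2, Matrix.map_add _ (map_add _), Matrix.map_smul' _ _ _ (map_mul (rd l)), h6,
          Matrix.map_smul' _ _ _ (map_mul (rd l)), map_pow, rd_l]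
        simp)
      refine ⟨((u⁻¹ : ℤ_[l]ˣ) : ℤ_[l]) • V, ?_⟩
      rw [Matrix.map_smul' _ _ _ (map_mul (cq l)), map_smul_inv (de_ne (some p')) hV, hd,
        smul_smul, smul_smul, map_mul, mul_assoc, inv_mul_cancel_left₀ (de_ne _), ← map_mul,
        Units.inv_mul, map_one, one_smul]
    · rw [h2]
      exact Or.inl (locd_left h4 (by rw [det_mul, det_cz]; simp [dn]) z hA)

end MG.C1
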