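import Mathlib

/-! The numerical choices for large `Y`. -/

set_option autoImplicit false

noncomputable section

namespace MG.C1

theorem num_large (K θ : ℝ) (hK : 0 < K) (hθ : 0 < θ) : ∃ Y₀ : ℕ, ∀ Y : ℕ, Y₀ ≤ Y →
    K * Real.log Y ^ 4 ≤ (Y : ℝ) ^ θ ∧ 1 ≤ Real.log Y := by
  have h1 := (isLittleO_log_rpow_rpow_atTop (4 : ℝ) hθ).def (inv_pos.2 hK)
  have h2 := Real.tendsto_log_atTop.eventually_ge_atTop 1
  obtain ⟨Y₀, h⟩ := Filter.eventually_atTop.1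
    (tendsto_natCast_atTop_atTop (R := ℝ).eventually (h1.and h2))
  refine ⟨Y₀, fun Y hY => ⟨?_, (h Y hY).2⟩⟩
  have h3 := (h Y hY).1
  have h4 : (0 : ℝ) ≤ Real.log Y := zero_le_one.trans (h Y hY).2
  rw [Real.norm_of_nonneg (Real.rpow_nonneg h4 _),
    Real.norm_of_nonneg (Real.rpow_nonneg (Nat.cast_nonneg _) _),
    show (4 : ℝ) = ((4 : ℕ) : ℝ) by norm_num, Real.rpow_natCast, le_inv_mul_iff₀ hK] at h3
  exact h3

theorem num_choose {m j J : ℕ} (hj : j ≤ J) (hJ : 0 < J) (hm : 2 * J ≤ m) :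
    ((m : ℝ) / (2 * J)) ^ j ≤ m.choose j := by
  refine le_trans ?_ (Nat.pow_le_choose j m)
  have h1 : (m : ℝ) / 2 ≤ ((m + 1 - j : ℕ) : ℝ) := by
    have : m ≤ 2 * (m + 1 - j) := by omega
    have h : (m : ℝ) ≤ 2 * ((m + 1 - j : ℕ) : ℝ) := by exact_mod_cast this
    linarith
  have h2 : ((j.factorial : ℕ) : ℝ) ≤ (J : ℝ) ^ j := by
    exact_mod_cast (Nat.factorial_le_pow j).trans (Nat.pow_le_pow_left hj j)
  rw [← div_div, div_pow]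
  exact div_le_div₀ (by positivity) (pow_le_pow_left₀ (by positivity) h1 j)
    (by exact_mod_cast j.factorial_pos) h2

theorem num_j {C Y P : ℕ} (hC : 1 ≤ C) (hY : 2 ≤ Y) (h1 : Y ^ 8 ≤ P) :
    ∃ j : ℕ, (2 * P) ^ (2 * C) * Y ^ 4 ≤ Y ^ j ∧ Y ^ j ≤ P ^ (5 * C) := by
  have h2 : 2 ≤ P := (hY.trans (Nat.le_self_pow (by norm_num) Y)).trans h1
  refine ⟨Nat.log Y ((2 * P) ^ (2 * C) * Y ^ 4) + 1, (Nat.lt_pow_succ_log_self hY _).le, ?_⟩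
  have h3 := Nat.pow_log_le_self Y (x := (2 * P) ^ (2 * C) * Y ^ 4) (by positivity)
  calc _ = Y ^ Nat.log Y ((2 * P) ^ (2 * C) * Y ^ 4) * Y := pow_succ _ _
    _ ≤ (2 * P) ^ (2 * C) * Y ^ 4 * Y := Nat.mul_le_mul_right _ h3
    _ = (2 * P) ^ (2 * C) * Y ^ 5 := by ring
    _ ≤ (P * P) ^ (2 * C) * P ^ C := Nat.mul_le_mul
        (Nat.pow_le_pow_left (Nat.mul_le_mul_right _ h2) _)
        (((Nat.pow_le_pow_right (by omega) (by norm_num)).trans h1).trans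
          (Nat.le_self_pow (by omega) P))
    _ = P ^ (5 * C) := by ring

theorem num_k {η : ℝ} (h0 : 0 < η) (h1 : η < 1) {S : ℝ} (hS : 1 ≤ S) : ∃ k : ℕ,
    S * ((1 - η) ^ 2) ^ k ≤ 1 ∧ (k : ℝ) ≤ Real.log S / (-Real.log ((1 - η) ^ 2)) + 1 := by
  have h2 : 0 < (1 - η) ^ 2 := pow_pos (sub_pos.2 h1) 2
  have h3 : 0 < -Real.log ((1 - η) ^ 2) := neg_pos.2 (Real.log_neg h2 (by nlinarith))
  refine ⟨⌈Real.log S / (-Real.log ((1 - η) ^ 2))⌉₊, ?_,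
    (Nat.ceil_lt_add_one (div_nonneg (Real.log_nonneg hS) h3.le)).le⟩
  have h4 := (div_le_iff₀ h3).1 (Nat.le_ceil (Real.log S / (-Real.log ((1 - η) ^ 2))))
  rw [← Real.log_le_log_iff (by positivity) one_pos, Real.log_mul (by positivity) (by positivity),
    Real.log_pow, Real.log_one]
  linarith

/-- the last inequality -/
theorem num_e2 {C J L Y Q n s B ρ : ℝ} {j : ℕ} (hC : 1 ≤ C) (hJ : 1 ≤ J) (hL : 1 ≤ L)
    (hρ : ρ = 1 / (6 * C * L ^ 2)) (hs : 0 < s) (hQ : 0 < Q) (hn : Y ≤ n * L ^ 2)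
    (h1 : (768 * C * J * L ^ 4) ^ 2 ≤ Y) (h2 : 36864 * (C + 1) * C ^ 2 * L ^ 4 < Y ^ 2)
    (hj : Q ^ 2 * Y ^ 4 ≤ Y ^ j) (hB : (ρ * s / (64 * J * Y)) ^ j / 2 ≤ B) :
    4 * (C + 1) * Q * (2 * s) ^ j < ρ / 16 * (ρ / 8 * B) * (n * Y) ^ j := by
  have hY : 0 < Y := lt_of_lt_of_le (by positivity) h1
  have hn0 : 0 < n := pos_of_mul_pos_left (hY.trans_le hn) (by positivity)
  have hρ0 : 0 < ρ := by rw [hρ]; positivity
  have h3 : Y / (768 * C * J * L ^ 4) ≤ ρ * n / (128 * J) := by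
    rw [hρ, div_le_div_iff₀ (by positivity) (by positivity)]
    calc Y * (128 * J) ≤ n * L ^ 2 * (128 * J) := by gcongr
      _ = _ := by field_simp; ring
  have h4 : Y ≤ (ρ * n / (128 * J)) ^ 2 := by
    refine le_trans ?_ (pow_le_pow_left₀ (by positivity) h3 2)
    rw [div_pow, le_div_iff₀ (by positivity), sq Y]
    gcongr
  have h5 : Q * Y ^ 2 ≤ (ρ * n / (128 * J)) ^ j := by
    refine (pow_le_pow_iff_left₀ (by positivity) (by positivity) two_ne_zero).1 ?_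
    calc (Q * Y ^ 2) ^ 2 = Q ^ 2 * Y ^ 4 := by ring
      _ ≤ Y ^ j := hj
      _ ≤ ((ρ * n / (128 * J)) ^ 2) ^ j := pow_le_pow_left₀ hY.le h4 j
      _ = _ := by rw [← pow_mul, ← pow_mul, mul_comm 2 j]
  have h6 : 4 * (C + 1) < ρ ^ 2 / 256 * Y ^ 2 := by
    rw [hρ, div_pow, div_div, div_mul_eq_mul_div, lt_div_iff₀ (by positivity)]
    linarith
  calc 4 * (C + 1) * Q * (2 * s) ^ j < ρ ^ 2 / 256 * Y ^ 2 * Q * (2 * s) ^ j := by gcongr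
    _ = ρ ^ 2 / 256 * ((Q * Y ^ 2) * (2 * s) ^ j) := by ring
    _ ≤ ρ ^ 2 / 256 * ((ρ * n / (128 * J)) ^ j * (2 * s) ^ j) := by gcongr
    _ = ρ ^ 2 / 256 * ((ρ * s / (64 * J * Y)) ^ j * (n * Y) ^ j) := by
      rw [← mul_pow, ← mul_pow]
      congr 2
      field_simp
      ring
    _ = ρ / 16 * (ρ / 8 * ((ρ * s / (64 * J * Y)) ^ j / 2)) * (n * Y) ^ j := by ring
    _ ≤ _ := by gcongr

/-- the middle inequality -/
theorem num_e1 {C A L Y P LP pp B ρ V lS k l lam : ℝ} (hC : 1 ≤ C) (hL : 1 ≤ L) (hY : 1 ≤ Y)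
    (hρ : ρ = 1 / (6 * C * L ^ 2)) (hlam : 0 < lam) (hA : A = 2 * C * (C + C / lam + 1))
    (hV : 0 < V) (hP : V * Y ^ 4 ≤ P) (hLP : 0 < LP) (hLP' : LP ≤ 51200 * L)
    (hpp : P ≤ pp * LP ^ 3) (hB : 1 / V / 2 ≤ B) (hS : lS ≤ C * Y * L) (hk : k ≤ lS / lam + 1)
    (hl0 : 0 ≤ l) (hl : l ≤ Y * L) (h1 : 96 * 51200 ^ 2 * C * A * L ^ 4 ≤ Y) (h2 : L ^ 2 ≤ Y) :
    2 * C * (lS + k * l) ≤ ρ / 8 * B * pp * LP := by
  have hP0 : 0 < P := lt_of_lt_of_le (by positivity) hP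
  have hpp0 : 0 < pp := pos_of_mul_pos_left (hP0.trans_le hpp) (by positivity)
  have hρ0 : 0 < ρ := by rw [hρ]; positivity
  have hYL : 1 ≤ Y * L := one_le_mul_of_one_le_of_one_le hY hL
  have h3 : k ≤ (C / lam + 1) * (Y * L) :=
    calc k ≤ lS / lam + 1 := hk
      _ ≤ C * Y * L / lam + Y * L := by gcongr
      _ = _ := by ring
  have h4 : lS ≤ C * (Y * L) * (Y * L) :=
    calc lS ≤ C * (Y * L) * 1 := by linarith
      _ ≤ _ := by gcongr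
  have h5 : V * Y ^ 4 / (51200 * L) ^ 2 ≤ pp * LP := by
    rw [div_le_iff₀ (by positivity)]
    calc V * Y ^ 4 ≤ pp * LP * LP ^ 2 := by linarith
      _ ≤ _ := by gcongr
  have hA0 : 0 < A := by rw [hA]; positivity
  calc 2 * C * (lS + k * l) ≤ 2 * C * (C * (Y * L) * (Y * L) + (C / lam + 1) * (Y * L) * (Y * L)) := by
        gcongr
    _ = (96 * 51200 ^ 2 * C * A * L ^ 4) * L ^ 2 * (Y ^ 2 / (96 * 51200 ^ 2 * C * L ^ 4)) := by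
        rw [hA]
        field_simp
        ring
    _ ≤ Y * Y * (Y ^ 2 / (96 * 51200 ^ 2 * C * L ^ 4)) := by gcongr
    _ = ρ / 8 * (1 / V / 2) * (V * Y ^ 4 / (51200 * L) ^ 2) := by
        rw [hρ]
        field_simp
        ring
    _ ≤ ρ / 8 * B * (pp * LP) := by
        have : 0 ≤ B := le_trans (by positivity) hB
        gcongr
    _ = _ := by ring

theorem num_B {ρ s J Y : ℝ} {j J' : ℕ} (hJ : J = J') (hj : j ≤ J') (hJ0 : 0 < J') (hY : 1 ≤ Y)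
    (h : 16 * J ≤ ρ * s) : (ρ * s / (64 * J * Y)) ^ j / 2 ≤
      (⌊ρ * s / 4⌋₊.choose j : ℝ) / (2 * (2 * (Y + 1)) ^ j) := by
  have hJ1 : (1 : ℝ) ≤ J := by rw [hJ]; exact_mod_cast hJ0
  have h1 : ρ * s / 8 ≤ ⌊ρ * s / 4⌋₊ := by
    have := Nat.lt_floor_add_one (ρ * s / 4)
    linarith
  have h2 : 2 * J' ≤ ⌊ρ * s / 4⌋₊ := Nat.le_floor (by push_cast; linarith)
  have h3 := num_choose hj hJ0 h2
  rw [← hJ] at h3
  have h4 : ρ * s / (64 * J * Y) ≤ ⌊ρ * s / 4⌋₊ / (2 * J) / (2 * (Y + 1)) :=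
    calc ρ * s / (64 * J * Y) = ρ * s / 8 / (2 * J) / (2 * (Y + Y)) := by field_simp; ring
      _ ≤ _ := by gcongr
  have h5 : 0 ≤ ρ * s := by linarith
  calc _ ≤ (⌊ρ * s / 4⌋₊ / (2 * J) / (2 * (Y + 1))) ^ j / 2 := by gcongr
    _ = (⌊ρ * s / 4⌋₊ / (2 * J)) ^ j / (2 * (2 * (Y + 1)) ^ j) := by
      rw [div_pow _ (2 * (Y + 1)), div_div, mul_comm _ (2 : ℝ)]
    _ ≤ _ := by gcongr

theorem num_v {C J L v Y : ℝ} (hc : 1 ≤ C) (hJ : 1 ≤ J) (hL : 1 ≤ L)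
    (b1 : 768 * C * J * L ^ 4 ≤ v) (c3 : v ^ 3 ≤ Y) :
    768 * (C * J * L ^ 2) ≤ v ∧ 1 ≤ C * L ^ 2 ∧ C * L ^ 2 ≤ C * J * L ^ 2 ∧ J ≤ C * J * L ^ 2 ∧
      v ≤ v ^ 2 ∧ v ^ 2 ≤ Y ∧ 2 ≤ Y ∧ C ≤ Y ∧ L ^ 2 ≤ Y ∧ v < Y ^ 2 := by
  have hL2 : 1 ≤ L ^ 2 := one_le_pow₀ hL
  have hL4 : L ^ 2 ≤ L ^ 4 := pow_le_pow_right₀ hL (by norm_num)
  have b4 : 768 * (C * J * L ^ 2) ≤ v := le_trans (by rw [← mul_assoc, ← mul_assoc]; gcongr) b1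
  have hCL : 1 ≤ C * L ^ 2 := one_le_mul_of_one_le_of_one_le hc hL2
  have b5 : C * L ^ 2 ≤ C * J * L ^ 2 := by
    calc C * L ^ 2 = C * 1 * L ^ 2 := by ring
      _ ≤ _ := by gcongr
  have b6 : L ^ 2 ≤ C * L ^ 2 := le_mul_of_one_le_left (by positivity) hc
  have b7 : C ≤ C * L ^ 2 := le_mul_of_one_le_right (by positivity) hL2
  have b8 : J ≤ C * J * L ^ 2 :=
    calc J = J * 1 := (mul_one J).symm
      _ ≤ J * (C * L ^ 2) := by gcongr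
      _ = _ := by ring
  have hv1 : 1 ≤ v := by linarith
  have c1 : v ≤ v ^ 2 := le_self_pow₀ hv1 two_ne_zero
  have c2 : v ^ 2 ≤ Y := (pow_le_pow_right₀ hv1 (by norm_num)).trans c3
  have c4 : Y < Y ^ 2 := lt_self_pow₀ (by linarith) one_lt_two
  exact ⟨b4, hCL, b5, b8, c1, c2, by linarith, by linarith, by linarith, by linarith⟩

theorem num_s {C J L v Y s n ρ : ℝ} (hc : 1 ≤ C) (hJ : 1 ≤ J) (hL : 1 ≤ L)
    (b1 : 768 * C * J * L ^ 4 ≤ v) (c3 : v ^ 3 ≤ Y) (d1 : 1 ≤ s) (d2 : s * v ^ 2 ≤ Y)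
    (d3 : Y ≤ 2 * s * v ^ 2) (hn : Y ≤ n * L ^ 2) (hρ : ρ = 1 / (6 * C * L ^ 2)) :
    (4 * s + 1) * C ≤ n ∧ 1 / v ^ 4 ≤ ρ * s / (64 * J * Y) ∧ 16 * J ≤ ρ * s ∧ J ≤ s ∧
      4 * s + 1 ≤ Y / v ∧ ρ * Y ≤ (Y / L ^ 2 / C - J) / 3 := by
  obtain ⟨b4, hCL, b5, b8, c1, c2, hY, -⟩ := num_v hc hJ hL b1 c3
  have hv0 : 0 < v := by linarith
  have e3 : v ≤ 2 * s := le_of_mul_le_mul_right
    (calc v * v ^ 2 = v ^ 3 := by ring
      _ ≤ _ := c3.trans d3) (pow_pos hv0 2)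
  refine ⟨le_of_mul_le_mul_right ?_ (by positivity : 0 < L ^ 2), ?_, ?_, by linarith, ?_, ?_⟩
  · calc (4 * s + 1) * C * L ^ 2 ≤ 5 * s * C * L ^ 2 := by gcongr; linarith
      _ = s * (5 * (C * L ^ 2)) := by ring
      _ ≤ s * v ^ 2 := by gcongr; linarith
      _ ≤ _ := d2.trans hn
  · rw [hρ, div_mul_eq_mul_div, div_div, div_le_div_iff₀ (by positivity) (by positivity)]
    calc 1 * (6 * C * L ^ 2 * (64 * J * Y)) = 384 * (C * J * L ^ 2) * Y := by ring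
      _ ≤ 384 * (C * J * L ^ 2) * (2 * s * v ^ 2) := by gcongr
      _ = 768 * (C * J * L ^ 2) * (s * v ^ 2) := by ring
      _ ≤ v ^ 2 * (s * v ^ 2) := by gcongr; linarith
      _ = _ := by ring
  · rw [hρ, div_mul_eq_mul_div, le_div_iff₀ (by positivity)]
    calc 16 * J * (6 * C * L ^ 2) = 96 * (C * J * L ^ 2) := by ring
      _ ≤ _ := by linarith
  · rw [le_div_iff₀ hv0]
    calc (4 * s + 1) * v ≤ 5 * s * v := by gcongr; linarith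
      _ = s * (5 * v) := by ring
      _ ≤ s * (v * v) := by gcongr; linarith
      _ ≤ _ := by rwa [← sq]
  · have g3 : J ≤ Y / (2 * C * L ^ 2) := by
      rw [le_div_iff₀ (by positivity)]
      calc J * (2 * C * L ^ 2) = 2 * (C * J * L ^ 2) := by ring
        _ ≤ _ := by linarith
    have g4 : ρ * Y = (Y / L ^ 2 / C - Y / (2 * C * L ^ 2)) / 3 := by
      rw [hρ]
      field_simp
      ring
    rw [g4]
    linarith

theorem num_fl {x : ℝ} (h : 1 ≤ x) : ∃ s : ℕ, 1 ≤ s ∧ (s : ℝ) ≤ x ∧ x ≤ 2 * s := by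
  have d1 : 1 ≤ ⌊x⌋₊ := Nat.le_floor (by simpa using h)
  have d2 : (1 : ℝ) ≤ ⌊x⌋₊ := by exact_mod_cast d1
  have := Nat.lt_floor_add_one x
  exact ⟨_, d1, Nat.floor_le (by linarith), by linarith⟩

theorem num_V {v Y P : ℝ} {C j : ℕ} (hC : 1 ≤ C) (hv : 0 < v) (hvT : v ^ (40 * C) = Y)
    (h1 : Y ^ 8 ≤ P) (h2 : Y ^ j ≤ P ^ (5 * C)) : (v ^ 4) ^ j * Y ^ 4 ≤ P := by
  have hY : 0 < Y := hvT ▸ pow_pos hv _
  have hP : 0 < P := (pow_pos hY 8).trans_le h1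
  have g1 : ((v ^ 4) ^ j) ^ 2 ≤ P := by
    refine (pow_le_pow_iff_left₀ (by positivity) hP.le (by omega : 5 * C ≠ 0)).1 ?_
    calc _ = (v ^ (40 * C)) ^ j := by ring
      _ ≤ _ := by rwa [hvT]
  have g2 : (Y ^ 4) ^ 2 ≤ P := by rwa [← pow_mul]
  refine (pow_le_pow_iff_left₀ (by positivity) hP.le two_ne_zero).1 ?_
  rw [mul_pow, sq P]
  gcongr

theorem num_log {x : ℝ} {Y m : ℕ} (hx : 0 < x) (h : x ≤ (Y : ℝ) ^ m) :
    Real.log x ≤ m * Real.log Y := by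
  rw [← Real.log_pow]
  exact Real.log_le_log hx h

/-- everything that must hold for large `Y`. -/
theorem num (C : ℕ) (hC : 1 ≤ C) (η : ℝ) (h0 : 0 < η) (h1 : η < 1) : ∃ (θ : ℝ) (Y₀ : ℕ), 0 < θ ∧
    ∀ Y P n pp : ℕ, Y₀ ≤ Y → Y ^ 8 ≤ P → P ≤ Y ^ (6400 * 8) → (P : ℝ) ≤ pp * Real.log P ^ 3 →
      (Y : ℝ) ≤ n * Real.log Y ^ 2 → n ≤ Y → ∃ (s j x : ℕ) (ρ : ℝ), 0 < ρ ∧
        1 ≤ s ∧ 4 * s ≤ Y ∧ 2 * s ≤ n ∧ j ≤ s ∧
        (x : ℝ) ≤ (Y : ℝ) ^ (1 - θ) ∧ 2 * s ≤ x ∧ C * (2 * Y) ^ (2 * s) ≤ Y ^ x ∧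
        (2 * (2 * Y) ^ s * (2 * Y) ^ s) ^ C ≤ Y ^ n ∧
        (∀ c : ℕ, Y ^ c ≤ (2 * P) ^ C → ρ * Y ≤ (Y / Real.log Y ^ 2 / C - c) / 3) ∧
        ∀ S : ℕ, 1 ≤ S → S ≤ Y ^ (C * Y) → ∃ k : ℕ, (S : ℝ) * ((1 - η) ^ 2) ^ k ≤ 1 ∧
          2 * C * (Real.log S + k * Real.log ((2 * (2 * Y : ℝ) ^ s) ^ C)) ≤
            ρ / 8 * ((⌊ρ * s / 4⌋₊.choose j : ℝ) / (2 * (2 * (Y + 1)) ^ j)) * pp * Real.log P ∧
          4 * (C + 1) * (2 * P : ℝ) ^ C * (2 * s) ^ j <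
            ρ / 16 * (ρ / 8 * ((⌊ρ * s / 4⌋₊.choose j : ℝ) / (2 * (2 * (Y + 1)) ^ j))) *
              ((n : ℝ) * Y) ^ j := by
  have hc : (1 : ℝ) ≤ C := by exact_mod_cast hC
  obtain ⟨lam, hlam⟩ : ∃ lam, lam = -Real.log ((1 - η) ^ 2) := ⟨_, rfl⟩
  have hl0 : 0 < lam := hlam ▸ neg_pos.2 (Real.log_neg (pow_pos (sub_pos.2 h1) 2) (by nlinarith))
  obtain ⟨A, hA⟩ : ∃ A : ℝ, A = 2 * C * (C + C / lam + 1) := ⟨_, rfl⟩
  have hA0 : 0 < A := by rw [hA]; positivity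
  obtain ⟨J, hJ⟩ : ∃ J : ℝ, J = (256000 * C : ℕ) := ⟨_, rfl⟩
  have hJ1 : 1 ≤ J := by rw [hJ]; exact_mod_cast (by omega : 1 ≤ 256000 * C)
  have a1 : 0 < 768 * C * J := by positivity
  have a2 : 0 < 36864 * ((C : ℝ) + 1) * C ^ 2 := by positivity
  have a3 : 0 < 96 * 51200 ^ 2 * C * A := by positivity
  have hθ : (0 : ℝ) < ((40 * C : ℕ) : ℝ)⁻¹ := by positivity
  obtain ⟨Y₀, hY₀⟩ := num_large _ _ (add_pos (add_pos a1 a2) a3) hθ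
  refine ⟨_, Y₀, hθ, fun Y P n pp hY hP hP' hpp hn hn' => ?_⟩
  obtain ⟨hv, hL⟩ := hY₀ Y hY
  have hvT : ((Y : ℝ) ^ ((40 * C : ℕ) : ℝ)⁻¹) ^ (40 * C) = Y :=
    Real.rpow_inv_natCast_pow (Nat.cast_nonneg _) (by omega)
  have hY0 : (0 : ℝ) < Y := by
    rcases Nat.eq_zero_or_pos Y with rfl | h
    · norm_num at hL
    · exact_mod_cast h
  rw [Real.rpow_sub hY0, Real.rpow_one]
  generalize (Y : ℝ) ^ ((40 * C : ℕ) : ℝ)⁻¹ = v at hv hvT ⊢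
  have hL4 : (1 : ℝ) ≤ Real.log Y ^ 4 := one_le_pow₀ hL
  have hL0 : (0 : ℝ) ≤ Real.log Y ^ 4 := zero_le_one.trans hL4
  have b1 := (mul_le_mul_of_nonneg_right
    ((le_add_of_nonneg_right a2.le).trans (le_add_of_nonneg_right a3.le)) hL0).trans hv
  have b2 := (mul_le_mul_of_nonneg_right
    ((le_add_of_nonneg_left a1.le).trans (le_add_of_nonneg_right a3.le)) hL0).trans hv
  have b3 := (mul_le_mul_of_nonneg_right (le_add_of_nonneg_left (add_pos a1 a2).le) hL0).trans hv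
  have hv1 : 1 ≤ v := le_trans (one_le_mul_of_one_le_of_one_le (one_le_mul_of_one_le_of_one_le
    (one_le_mul_of_one_le_of_one_le (by norm_num) hc) hJ1) hL4) b1
  have hv0 : 0 < v := one_pos.trans_le hv1
  have c3 : v ^ 3 ≤ Y := hvT ▸ pow_le_pow_right₀ hv1 (by omega)
  obtain ⟨-, -, -, -, c1, c2, c4, c5, c6, c7⟩ := num_v hc hJ1 hL b1 c3
  have hY1 : (1 : ℝ) ≤ Y := one_le_two.trans c4
  have hY2 : 2 ≤ Y := by exact_mod_cast c4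
  have hCY : C ≤ Y := by exact_mod_cast c5
  obtain ⟨s, d1, d2, d3⟩ := num_fl ((one_le_div (pow_pos hv0 2)).2 c2)
  have d1' : (1 : ℝ) ≤ s := by exact_mod_cast d1
  obtain ⟨ρ, hρ⟩ : ∃ ρ : ℝ, ρ = 1 / (6 * C * Real.log Y ^ 2) := ⟨_, rfl⟩
  have hρ0 : 0 < ρ := by rw [hρ]; positivity
  obtain ⟨e0, e2, e4, e5, e6, e7⟩ := num_s hc hJ1 hL b1 c3 d1' ((le_div_iff₀ (pow_pos hv0 2)).1 d2)
    ((div_le_iff₀ (pow_pos hv0 2)).1 d3) hn hρ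
  have d4 : (4 * s + 1) * C ≤ n := by exact_mod_cast e0
  have d5 : 4 * s + 1 ≤ n := (Nat.le_mul_of_pos_right _ hC).trans d4
  obtain ⟨j, hj1, hj2⟩ := num_j hC hY2 hP
  have e1 : j ≤ 256000 * C := (Nat.pow_le_pow_iff_right hY2).1
    (hj2.trans ((Nat.pow_le_pow_left hP' _).trans_eq (by rw [← pow_mul]; congr 1; ring)))
  have e8 : 256000 * C ≤ s := by rw [hJ] at e5; exact_mod_cast e5
  have hB := num_B hJ e1 (by omega) hY1 e4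
  have f0 : 2 * Y ≤ Y ^ 2 := by rw [sq]; exact Nat.mul_le_mul_right _ hY2
  have f1 : (2 * (2 * Y) ^ s * (2 * Y) ^ s) ^ C ≤ Y ^ n :=
    calc _ ≤ (Y * (Y ^ 2) ^ s * (Y ^ 2) ^ s) ^ C := by gcongr
      _ = Y ^ ((4 * s + 1) * C) := by ring
      _ ≤ _ := Nat.pow_le_pow_right (by omega) d4
  have hP2 : 2 ≤ P := (hY2.trans (Nat.le_self_pow (by norm_num) Y)).trans hP
  refine ⟨s, j, 4 * s + 1, ρ, hρ0, d1, by omega, by omega, e1.trans e8, by exact_mod_cast e6,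
    by omega, ?_, f1, fun c hc' => e7.trans ?_, fun S hS hS' => ?_⟩
  · calc _ ≤ Y * (Y ^ 2) ^ (2 * s) := by gcongr
      _ = _ := by ring
  · have g1 : c ≤ 256000 * C := (Nat.pow_le_pow_iff_right hY2).1 (hc'.trans
      (calc (2 * P) ^ C ≤ (P * P) ^ C := by gcongr
        _ ≤ (Y ^ (6400 * 8) * Y ^ (6400 * 8)) ^ C := by gcongr
        _ = Y ^ (102400 * C) := by rw [← pow_add, ← pow_mul]
        _ ≤ _ := Nat.pow_le_pow_right (by omega) (by omega)))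
    have g2 : (c : ℝ) ≤ J := by rw [hJ]; exact_mod_cast g1
    gcongr
  · have hS1 : (1 : ℝ) ≤ S := by exact_mod_cast hS
    obtain ⟨k, hk, hk'⟩ := num_k h0 h1 hS1
    have hP1 : (1 : ℝ) < P := by exact_mod_cast hP2
    have g1 : (2 * (2 * Y) ^ s) ^ C ≤ Y ^ Y :=
      (Nat.pow_le_pow_left (Nat.le_mul_of_pos_right _ (by positivity)) C).trans
        (f1.trans (Nat.pow_le_pow_right (by omega) hn'))
    refine ⟨k, hk, num_e1 hc hL hY1 hρ hl0 hA (pow_pos (pow_pos hv0 4) j)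
      (num_V hC hv0 hvT (by exact_mod_cast hP) (by exact_mod_cast hj2)) (Real.log_pos hP1)
      ((num_log (m := 6400 * 8) (one_pos.trans hP1) (by exact_mod_cast hP')).trans_eq (by norm_num))
      hpp (le_trans ?_ hB)
      ((num_log (m := C * Y) (one_pos.trans_le hS1) (by exact_mod_cast hS')).trans_eq
        (by rw [Nat.cast_mul])) (hlam ▸ hk')
      (Real.log_nonneg (one_le_pow₀ (one_le_mul_of_one_le_of_one_le one_le_two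
        (one_le_pow₀ (one_le_mul_of_one_le_of_one_le one_le_two hY1)))))
      (num_log (by positivity) (by exact_mod_cast g1)) (b3.trans (c1.trans c2)) c6,
      num_e2 hc hJ1 hL hρ (one_pos.trans_le d1') (by positivity) hn
      ((pow_le_pow_left₀ (by positivity) b1 2).trans c2) (b2.trans_lt c7) ?_ hB⟩
    · rw [← one_pow j, ← div_pow]
      gcongr
    · rw [← pow_mul, mul_comm C 2]
      exact_mod_cast hj1

end MG.C1
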