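import Pool.Agent.Lib.MP_33b3f9_ag.MG.C1.Ratio

/-!
Most supports meet most sets in many points.
-/

set_option autoImplicit false
set_option linter.unusedSectionVars false

noncomputable section

namespace MG.C1

open Finset

variable {Λ : Type} [Fintype Λ] [DecidableEq Λ] {P : Λ → Type} [∀ l, Fintype (P l)]
  [∀ l, DecidableEq (P l)]

theorem tup_sw {c : Λ → ℕ} {l l' : Λ} (h : c l' ≤ 2 * c l) {A : Finset Λ} (hA : l' ∈ A) :
    ∏ x ∈ A, c x ≤ 2 * ∏ x ∈ A, c (Equiv.swap l l' x) := by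
  by_cases hl : l ∈ A
  · rw [prod_equiv (t := A) (g := c) (Equiv.swap l l') (fun x => ?_) fun _ _ => rfl]
    · omega
    · rcases eq_or_ne x l with rfl | e
      · simp [hl, hA]
      rcases eq_or_ne x l' with rfl | e'
      · simp [hl, hA]
      rw [Equiv.swap_apply_of_ne_of_ne e e']
  · rw [← mul_prod_erase A _ hA, ← mul_prod_erase A _ hA, Equiv.swap_apply_right, ← mul_assoc]
    refine Nat.mul_le_mul h (prod_congr rfl fun x hx => ?_).le
    rw [Equiv.swap_apply_of_ne_of_ne (ne_of_mem_of_not_mem (mem_of_mem_erase hx) hl)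
      (ne_of_mem_erase hx)]

theorem tup_low {c : Λ → ℕ} (h : ∀ l l', c l' ≤ 2 * c l) (s : ℕ) (l : Λ) :
    s * ∑ A ∈ powersetCard s (univ : Finset Λ), ∏ x ∈ A, c x ≤ Fintype.card Λ *
      (2 * ∑ A ∈ powersetCard s (univ : Finset Λ) with l ∈ A, ∏ x ∈ A, c x) := by
  rw [← sum_in]
  refine sum_le_card_nsmul _ _ _ fun l' _ => ?_
  refine (sum_le_sum fun A hA => tup_sw (h l l') (mem_filter.1 hA).2).trans_eq ?_
  rw [mul_sum]
  refine sum_equiv (Equiv.finsetCongr (Equiv.swap l l')) (fun A => ?_) fun A _ => ?_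
  · simp [mem_powersetCard, mem_map_equiv]
  · simp

open Classical in
theorem tup {Y : ℕ} (h1 : ∀ l, Y ≤ Fintype.card (P l)) (h2 : ∀ l, Fintype.card (P l) ≤ 2 * Y)
    {V : Type} (PP : Finset V) (hne : PP.Nonempty) (Lv : V → Finset Λ) {ρ : ℝ} (hρ : 0 ≤ ρ)
    (hL : ρ * Fintype.card Λ * PP.card ≤ ∑ v ∈ PP, ((Lv v).card : ℝ)) (Sp : ∀ l, Finset (P l))
    (hSp : ∀ l, (Sp l).card ≤ 2) {s : ℕ} (hs : 4 * s ≤ Y) (hs0 : 1 ≤ s)
    (hΛ : s ≤ Fintype.card Λ) :
    ρ / 16 * (TT P s).card ≤ ((TT P s).filter fun y => (∀ l w, y l = some w → w ∉ Sp l) ∧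
      ρ / 8 * PP.card ≤ (PP.filter fun v => ρ * s / 4 ≤ (sup y ∩ Lv v).card).card).card := by
  let S := powersetCard s (univ : Finset Λ)
  let w : Finset Λ → ℕ := fun A => ∏ l ∈ A, Fintype.card (P l)
  let g : Finset Λ → ℕ := fun A => (PP.filter fun v => ρ * s / 4 ≤ (A ∩ Lv v).card).card
  let G := S.filter fun A => ρ / 8 * PP.card ≤ g A
  have hS : ∀ A ∈ S, A.card = s := fun A hA => (mem_powersetCard.1 hA).2
  have a1 : ∑ A ∈ G, w A ≤ 2 * ((TT P s).filter fun y => (∀ l w, y l = some w → w ∉ Sp l) ∧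
      ρ / 8 * PP.card ≤ g (sup y)).card := by
    rw [card_eq_sum_card_fiberwise (f := sup) (t := G) fun y hy => by
      obtain ⟨a, -, b⟩ := mem_filter.1 hy
      exact mem_filter.2 ⟨mem_powersetCard.2 ⟨subset_univ _, (mem_filter.1 a).2⟩, b⟩, mul_sum]
    refine sum_le_sum fun A hA => ?_
    obtain ⟨a, b⟩ := mem_filter.1 hA
    refine (half (b := fun l => (Sp l)ᶜ.card) (d := 2) h1 (fun l _ => card_le_univ _)
      (fun l _ => by have := card_compl_add_card (Sp l); have := hSp l; omega)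
      (by rw [hS A a]; omega)).trans (Nat.mul_le_mul_left 2 ?_)
    rw [← card_box]
    refine card_le_card fun y hy => ?_
    obtain ⟨rfl, e⟩ := mem_box.1 hy
    exact mem_filter.2 ⟨mem_filter.2 ⟨mem_filter.2 ⟨mem_univ _, hS _ a⟩,
      fun l x hx => mem_compl.1 (e l x hx), b⟩, rfl⟩
  have a2 : ∀ v, ((Lv v).card : ℝ) * (s * ∑ A ∈ S, (w A : ℝ)) ≤
      Fintype.card Λ * (2 * ∑ A ∈ S, ((A ∩ Lv v).card : ℝ) * w A) := fun v => by
    have := sum_le_sum (s := Lv v) fun l _ => tup_low (c := fun l => Fintype.card (P l))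
      (fun l l' => (h2 l').trans (Nat.mul_le_mul_left 2 (h1 l))) s l
    rw [sum_const, ← mul_sum, ← mul_sum, sum_swap _ _ _ fun A l => l ∈ A] at this
    simp only [filter_mem_eq_inter, inter_comm (Lv v)] at this
    exact_mod_cast this
  have a3 : ∀ A ∈ S, ∑ v ∈ PP, ((A ∩ Lv v).card : ℝ) ≤
      s * PP.card * ((if ρ / 8 * PP.card ≤ g A then 1 else 0) + 3 * ρ / 8) := fun A hA => by
    have b : ∑ v ∈ PP, ((A ∩ Lv v).card : ℝ) ≤ s * g A + PP.card * (ρ * s / 4) := by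
      rw [← nsmul_eq_mul, ← nsmul_eq_mul PP.card, ← sum_const]
      simp only [g, card_filter, Nat.cast_sum, smul_sum, ← sum_add_distrib]
      refine sum_le_sum fun v _ => ?_
      have : ((A ∩ Lv v).card : ℝ) ≤ s := by
        exact_mod_cast hS A hA ▸ card_le_card inter_subset_left
      have : 0 ≤ ρ * s / 4 := by positivity
      split_ifs with h
      · simp only [Nat.cast_one, nsmul_eq_mul, mul_one]
        linarith
      · simpa using (not_le.1 h).le
    have b1 : (g A : ℝ) ≤ PP.card := by exact_mod_cast card_filter_le _ _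
    have b2 : (0 : ℝ) ≤ s := by positivity
    have b3 : 0 ≤ s * (ρ * PP.card) := by positivity
    split_ifs with h
    · nlinarith [mul_le_mul_of_nonneg_left b1 b2]
    · nlinarith [mul_le_mul_of_nonneg_left (not_le.1 h).le b2]
  have a4 : ∑ v ∈ PP, ∑ A ∈ S, ((A ∩ Lv v).card : ℝ) * w A ≤
      s * PP.card * (∑ A ∈ G, (w A : ℝ) + 3 * ρ / 8 * ∑ A ∈ S, (w A : ℝ)) := by
    rw [sum_comm, sum_filter, mul_sum, ← sum_add_distrib, mul_sum]
    refine sum_le_sum fun A hA => ?_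
    rw [← sum_mul]
    refine (mul_le_mul_of_nonneg_right (a3 A hA) (by positivity)).trans_eq ?_
    split_ifs <;> ring
  have a5 := sum_le_sum (s := PP) fun v _ => a2 v
  rw [← sum_mul, ← mul_sum, ← mul_sum] at a5
  have n0 : (0 : ℝ) < Fintype.card Λ := by exact_mod_cast hs0.trans hΛ
  have s0 : (0 : ℝ) < s := by exact_mod_cast hs0
  have p0 : (0 : ℝ) < PP.card := by exact_mod_cast hne.card_pos
  have a6 := (mul_le_mul_of_nonneg_right hL (by positivity)).trans (a5.trans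
    (mul_le_mul_of_nonneg_left (mul_le_mul_of_nonneg_left a4 zero_le_two) n0.le))
  have a7 : ρ / 8 * ∑ A ∈ S, (w A : ℝ) ≤ ∑ A ∈ G, (w A : ℝ) :=
    le_of_mul_le_mul_left (a := (2 * Fintype.card Λ * s * PP.card : ℝ)) (by linarith)
      (mul_pos (mul_pos (mul_pos two_pos n0) s0) p0)
  have a8 : ((TT P s).card : ℝ) = ∑ A ∈ S, (w A : ℝ) := by exact_mod_cast card_TT s
  have a9 := (Nat.cast_le (α := ℝ)).2 a1
  push_cast at a9
  rw [a8]
  linarith

theorem pick {V Q : Type} [Fintype Q] [Nonempty Q] [DecidableEq Q] (PP : Finset V)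
    (L0 : V → Finset Λ) (q : V → Λ → Q) : ∃ sl : Λ → Q, ∑ v ∈ PP, (L0 v).card ≤
      Fintype.card Q * ∑ v ∈ PP, ((L0 v).filter fun l => sl l = q v l).card := by
  choose sl hsl using fun l =>
    Finite.exists_max fun x : Q => ∑ v ∈ PP, if l ∈ L0 v ∧ x = q v l then 1 else 0
  have e : ∀ (f : Λ → Q) v, ((L0 v).filter fun l => f l = q v l).card =
      ∑ l, if l ∈ L0 v ∧ f l = q v l then 1 else 0 := fun f v => by
    rw [← card_filter]
    congr 1
    ext l
    simp
  refine ⟨sl, ?_⟩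
  simp only [e]
  rw [sum_comm, mul_sum]
  refine le_trans (le_of_eq ?_)
    (sum_le_sum fun l _ => sum_le_card_nsmul univ _ _ fun x _ => hsl l x)
  refine Eq.trans (sum_congr rfl fun v _ => ?_) (sum_comm.trans (sum_congr rfl fun l _ => sum_comm))
  simp [ite_and]

end MG.C1
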