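import Pool.Agent.Lib.MP_33b3f9_ag.MG.C1.FDefs
import Pool.Agent.Lib.MP_33b3f9_ag.MG.C1.Tup

/-!
Case I: the choice of slots and stable lines.
-/

set_option autoImplicit false

noncomputable section

namespace MG.C1

open Matrix Finset M4 Pool.Agent.M4.Det Pool.Agent.M4.Mx Function Polynomial

variable [Dim] {e : ℕ} {a b : MZ} {m n : ℕ} {L : Type} [Field L] {l₁ : ℕ}
  {K : IntermediateField ℚ ℂ} {r : Rep K} {τ : Mat} {F : Frs e a b L l₁}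
  {LY : Finset (GP L l₁)} {sl : GP L l₁ → Fin e × Fin 3} {Cp : ℕ}
  {y : MZ → ℕ → Bits → (ν → ℚ) → ℂ}

omit [Dim] in
theorem exists_LY (L : Type) [Field L] {l₁ Y : ℕ} (h : l₁ ≤ Y) (ε : ℤ) :
    ∃ LY : Finset (GP L l₁),
    (∀ l ∈ LY, Y < l.1 ∧ l.1 ≤ 2 * Y) ∧ LY.card ≤ Y ∧
      ∀ (Δ : ℤ) (_ : DecidablePred fun l : ℕ => l.Prime ∧ NT.Spl L l ∧ jacobiSym Δ l = ε),
        ((Ioc Y (2 * Y)).filter fun l => l.Prime ∧ NT.Spl L l ∧ jacobiSym Δ l = ε).card ≤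
          (univ.filter fun l : LY => jacobiSym Δ l.1.1 = ε).card := by
  classical
  obtain ⟨LY, hL⟩ : ∃ LY : Finset (GP L l₁), ∀ l, l ∈ LY ↔ l.1 ∈ Ioc Y (2 * Y) :=
    ⟨(Ioc Y (2 * Y)).subtype fun l : ℕ => l.Prime ∧ l₁ < l ∧ NT.Spl L l, fun _ => mem_subtype⟩
  refine ⟨LY, fun l hl => mem_Ioc.1 ((hL l).1 hl), ?_, fun Δ _ => ?_⟩
  · refine (card_le_card_of_injOn (t := Ioc Y (2 * Y)) (fun l => l.1) (fun l hl => (hL l).1 hl)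
      fun _ _ _ _ e => Subtype.ext e).trans_eq ?_
    rw [Nat.card_Ioc]
    omega
  · refine card_le_card_of_surjOn (fun l : LY => l.1.1) fun x hx => ?_
    obtain ⟨h1, h2, h3, h4⟩ := mem_filter.1 (mem_coe.1 hx)
    exact ⟨⟨⟨x, h2, h.trans_lt (mem_Ioc.1 h1).1, h3⟩, (hL _).2 h1⟩,
      mem_coe.2 (mem_filter.2 ⟨mem_univ _, h4⟩), rfl⟩

omit [Dim] in
theorem sel_cut {Y bad : ℕ} (hLY : ∀ l ∈ LY, Y < l.1) (h0 : bad ≠ 0) (idx : GP L l₁ → Fin 3)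
    (A : Finset LY) : ∃ (c : ℕ) (i : Fin 3) (B : Finset LY), Y ^ c ≤ bad ∧
      A.card ≤ 3 * B.card + c ∧ ∀ l ∈ B, l ∈ A ∧ idx l.1 = i ∧ ¬ l.1.1 ∣ bad := by
  obtain ⟨i, hi⟩ := Finite.exists_max fun i : Fin 3 =>
    ((A.filter fun l => ¬ l.1.1 ∣ bad).filter fun l => idx l.1 = i).card
  refine ⟨(A.filter fun l => l.1.1 ∣ bad).card, i,
    (A.filter fun l => ¬ l.1.1 ∣ bad).filter fun l => idx l.1 = i, ?_, ?_, fun l hl => ?_⟩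
  · refine (pow_card_le_prod _ (fun l : LY => l.1.1) Y fun l _ => (hLY _ l.2).le).trans
      (Nat.le_of_dvd (Nat.pos_of_ne_zero h0) (prod_dvd_of_isRelPrime (fun l _ k _ hne => ?_)
        fun l hl => (mem_filter.1 hl).2))
    exact Nat.coprime_iff_isRelPrime.1 ((Nat.coprime_primes l.1.2.1 k.1.2.1).2
      fun e => hne (Subtype.ext (Subtype.ext e)))
  · have h1 := card_filter_add_card_filter_not (s := A) fun l => l.1.1 ∣ bad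
    have h2 := card_eq_sum_card_fiberwise (s := A.filter fun l => ¬ l.1.1 ∣ bad) (t := univ)
      (f := fun l => idx l.1) fun _ _ => mem_coe.2 (mem_univ _)
    rw [Fin.sum_univ_three] at h2
    have := hi 0
    have := hi 1
    have := hi 2
    omega
  · simp only [mem_filter] at hl
    exact ⟨hl.1.1, hl.2, hl.1.2⟩

theorem select (hS : Sys F r) {D : PD e a b m n} {N₀ : ℕ} (hcb : CBst τ D F r N₀) (ε : ℤ) :
    ∃ C₁ : ℕ, ∀ (Y P : ℕ) (LY : Finset (GP L l₁)) (PP : Finset ℕ) (Δ : ℕ → ℤ) (t : ℝ), 1 ≤ Y →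
      2 * Y ≤ P → (∀ l ∈ LY, Y < l.1 ∧ l.1 ≤ 2 * Y) →
      (∀ p ∈ PP, P < p ∧ p ≤ 2 * P ∧ Ty τ D F r N₀ ε p (Δ p) ∧
        t ≤ (univ.filter fun l : LY => jacobiSym (Δ p) l.1.1 = ε).card) →
      ∃ (sl : GP L l₁ → Fin e × Fin 3) (Lp : ℕ → Finset LY) (φ : ℕ → ∀ l : LY, P1 l.1.1) (c : ℕ),
        Y ^ c ≤ (2 * P) ^ C₁ ∧
        PP.card * ((t / (3 * e) - c) / 3) ≤ ∑ p ∈ PP, ((Lp p).card : ℝ) ∧
        ∀ p ∈ PP, ∃ (_ : Fact p.Prime) (v : ℂ ≃+* PadicAlgCl p) (σ : ℂ ≃ₐ[K] ℂ)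
          (LL : Set (GP L l₁)) (h : ℕ) (cl : MZ → ℕ → Fin h)
          (Γ : MZ → ℕ → ∀ (l : ℕ) [Fact l.Prime], Matrix ν ν ℚ_[l]), IsPlace K v ∧
          Frob τ D r N₀ v σ ∧ h ≤ (2 * P) ^ C₁ ∧ CB D F r N₀ p σ sl LL cl Γ ∧
          ∀ l ∈ Lp p, l.1 ∈ LL ∧ Mv F r l.1 (sl l.1) σ (φ p l) (φ p l) := by
  classical
  obtain ⟨C₁, hC⟩ := hcb
  refine ⟨C₁, fun Y P LY PP Δ t hY hP hLY hPP => ?_⟩
  have he := D.pel.pos
  have : Nonempty (Fin e) := ⟨⟨0, he⟩⟩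
  have hne : ∀ p ∈ PP, ∀ l : LY, l.1.1 ≠ p := fun p hp l => by
    have := (hLY _ l.2).2
    have := (hPP p hp).1
    omega
  have h1 : ∀ p, ∃ (q : LY → Fin e × Fin 3) (φ : ∀ l : LY, P1 l.1.1), p ∈ PP →
      ∃ (_ : Fact p.Prime) (v : ℂ ≃+* PadicAlgCl p) (σ : ℂ ≃ₐ[K] ℂ) (Q : D.E[X]) (Δ₀ : ℤ),
        IsPlace K v ∧ Frob τ D r N₀ v σ ∧ Reg D F r p σ Q Δ₀ ∧
          ∀ l : LY, jacobiSym (Δ p) l.1.1 = ε → Mv F r l.1 (q l) σ (φ l) (φ l) := fun p => by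
    by_cases hp : p ∈ PP
    swap
    · exact ⟨fun _ => Classical.arbitrary _, fun _ => none, fun h => absurd h hp⟩
    obtain ⟨_, v, σ, Q, Δ₀, a1, a2, a3, -, -, a5⟩ := (hPP p hp).2.2.1
    have a4 : ∀ l : LY, ∃ (q : Fin e × Fin 3) (w : P1 l.1.1),
        jacobiSym (Δ p) l.1.1 = ε → Mv F r l.1 q σ w w := fun l => by
      by_cases hj : jacobiSym (Δ p) l.1.1 = ε
      · obtain ⟨q, w, h⟩ := split hS l.1 (a5 l.1 (hne p hp l) hj)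
        exact ⟨q, w, fun _ => h⟩
      · exact ⟨Classical.arbitrary _, none, fun h => absurd h hj⟩
    choose q φ hq using a4
    exact ⟨q, φ, fun _ => ⟨_, v, σ, Q, Δ₀, a1, a2, a3, hq⟩⟩
  choose q φ hq using h1
  obtain ⟨s₀, hs⟩ := pick PP (fun p => univ.filter fun l : LY => jacobiSym (Δ p) l.1.1 = ε) q
  obtain ⟨sl, hsl⟩ : ∃ sl : GP L l₁ → Fin e × Fin 3, ∀ l : LY, sl l.1 = s₀ l :=
    ⟨fun l => if h : l ∈ LY then s₀ ⟨l, h⟩ else Classical.arbitrary _, fun l => dif_pos l.2⟩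
  have h2 : ∀ p, ∃ (B : Finset LY) (c : ℕ), p ∈ PP → Y ^ c ≤ (2 * P) ^ C₁ ∧
      ((univ.filter fun l : LY => jacobiSym (Δ p) l.1.1 = ε).filter fun l => s₀ l = q p l).card ≤
        3 * B.card + c ∧ ∃ (_ : Fact p.Prime) (v : ℂ ≃+* PadicAlgCl p) (σ : ℂ ≃ₐ[K] ℂ)
          (LL : Set (GP L l₁)) (h : ℕ) (cl : MZ → ℕ → Fin h)
          (Γ : MZ → ℕ → ∀ (l : ℕ) [Fact l.Prime], Matrix ν ν ℚ_[l]), IsPlace K v ∧
          Frob τ D r N₀ v σ ∧ h ≤ (2 * P) ^ C₁ ∧ CB D F r N₀ p σ sl LL cl Γ ∧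
          ∀ l ∈ B, l.1 ∈ LL ∧ Mv F r l.1 (sl l.1) σ (φ p l) (φ p l) := fun p => by
    by_cases hp : p ∈ PP
    swap
    · exact ⟨∅, 0, fun h => absurd h hp⟩
    obtain ⟨_, v, σ, Q, Δ₀, a1, a2, a3, a4⟩ := hq p hp
    obtain ⟨bad, idx, b1, b2, b3⟩ := hC p v σ Q Δ₀ a2 a3 sl
    obtain ⟨c, i, B, c1, c2, c3⟩ := sel_cut (fun l hl => (hLY l hl).1) b1 idx
      ((univ.filter fun l : LY => jacobiSym (Δ p) l.1.1 = ε).filter fun l => s₀ l = q p l)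
    obtain ⟨h, cl, Γ, d1, d2⟩ := b3 i
    have d3 := Nat.pow_le_pow_left (hPP p hp).2.1 C₁
    refine ⟨B, c, fun _ => ⟨c1.trans (b2.trans d3), c2, _, v, σ, _, h, cl, Γ, a1, a2, d1.trans d3,
      d2, fun l hl => ?_⟩⟩
    obtain ⟨e1, e2, e3⟩ := c3 l hl
    simp only [mem_filter] at e1
    exact ⟨⟨e2, e3, hne p hp l⟩, by rw [hsl, e1.2]; exact a4 l e1.1.2⟩
  choose B c hB using h2
  refine ⟨sl, B, φ, PP.sup c, ?_, ?_, fun p hp => (hB p hp).2.2⟩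
  · exact sup_induction (p := fun c => Y ^ c ≤ (2 * P) ^ C₁) (Nat.one_le_pow _ _ (by omega))
      (fun x hx y hy => sup_ind (p := fun c => Y ^ c ≤ (2 * P) ^ C₁) x y hx hy)
      fun p hp => (hB p hp).1
  have h3 := hs.trans (Nat.mul_le_mul_left _ (sum_le_sum (g := fun p => 3 * (B p).card + PP.sup c)
    fun p hp => (hB p hp).2.1.trans (Nat.add_le_add_left (le_sup hp) _)))
  rw [sum_add_distrib, sum_const, ← mul_sum, Fintype.card_prod, Fintype.card_fin,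
    Fintype.card_fin, smul_eq_mul] at h3
  have h4 := card_nsmul_le_sum PP _ t fun p hp => (hPP p hp).2.2.2
  have h5 := (Nat.cast_le (α := ℝ)).2 h3
  have h6 : (0 : ℝ) < e := Nat.cast_pos.2 he
  push_cast at h5
  rw [nsmul_eq_mul] at h4
  have h7 : (PP.card : ℝ) * (t / (3 * e)) ≤
      3 * ∑ p ∈ PP, ((B p).card : ℝ) + PP.card * PP.sup c := by
    rw [← mul_div_assoc, div_le_iff₀ (by positivity)]
    linarith
  linarith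

end MG.C1
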