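import Pool.Agent.Lib.MP_33b3f9_ag.MG.C1.Few
import Pool.Agent.Lib.MP_33b3f9_ag.MG.C1.Close
import Pool.Agent.Lib.MP_33b3f9_ag.MG.C1.Sel
import Pool.Agent.Lib.MP_33b3f9_ag.MG.C1.Ch
import Pool.Agent.Lib.MP_33b3f9_ag.MG.C1.Num

/-!
Case I: the contradiction.
-/

set_option autoImplicit false

noncomputable section

namespace MG.C1

open Matrix Finset M4 Pool.Agent.M4.Det Pool.Agent.M4.Mx Function Polynomial

variable [Dim] {e : ℕ} {a b : MZ} {m n : ℕ} {L : Type} [Field L] {l₁ : ℕ}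
  {K : IntermediateField ℚ ℂ} {r : Rep K} {τ : Mat} {F : Frs e a b L l₁}
  {LY : Finset (GP L l₁)} {sl : GP L l₁ → Fin e × Fin 3} {Cp : ℕ}
  {y : MZ → ℕ → Bits → (ν → ℚ) → ℂ}

omit [Dim] in
theorem card_line (l : ℕ) [Fact l.Prime] : Fintype.card (P1 l) = l + 1 := by
  rw [Fintype.card_option, ZMod.card]

theorem step (c : Ch F LY sl) (h : AV τ K r) (hS : Sys F r) (mu : MUst r) (hp : PT τ r Cp y)
    {Cg : ℕ} {η : ℝ} (hg : GR τ Cg η) {Y s j t k H : ℕ} {ρ P B δ Cc : ℝ} {PP : Finset ℕ}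
    {Lp : ℕ → Finset LY} {φ : ℕ → ∀ l : LY, P1 l.1.1} (hY : ∀ l ∈ LY, Y < l.1 ∧ l.1 ≤ 2 * Y)
    (hs1 : 1 ≤ s) (hs4 : 4 * s ≤ Y) (hs2 : 2 * s ≤ LY.card)
    (hN : (2 * (2 * Y) ^ s * (2 * Y) ^ s) ^ Cg ≤ NN LY) (h1 : 2 * s ≤ t)
    (h2 : Cg * (2 * Y) ^ (2 * s) ≤ Y ^ t)
    (hn : ∀ l ∈ LY, ∀ (q : Fin e × Fin 3) (d : Fin 3 → MZ) (w : Fin 3 → Fin 2 → ZMod l.1),
      (∀ i, DD F LY Y t (d i)) → (∀ i, Spec F l q (d i) (w i)) → ∃ i j, i ≠ j ∧ wd (w i) (w j) = 0)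
    (hne : PP.Nonempty) (hP : 1 < P) (hPP : ∀ p ∈ PP, p.Prime ∧ P ≤ p)
    (hF : ∀ p ∈ PP, FewRed (fun x : SS F LY s => c.Φ y x.1) p H (St F s (Lp p) (φ p) j))
    (hρ : 0 < ρ) (hL : ρ * LY.card * PP.card ≤ ∑ p ∈ PP, ((Lp p).card : ℝ))
    (hδ : δ = (⌊ρ * s / 4⌋₊.choose j : ℝ) / (2 * (2 * (Y + 1)) ^ j))
    (hB1 : 1 ≤ B) (hB : (2 * (2 * Y : ℝ) ^ s) ^ Cp ≤ B)
    (hC : ((2 * Cg + 1) ^ Fintype.card ν ^ 2 : ℕ) ≤ Cc)
    (hk1 : (Fintype.card (SS F LY s) : ℝ) * ((1 - η) ^ 2) ^ k ≤ 1)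
    (hk2 : 2 * Module.finrank ℚ K * (Real.log (Fintype.card (SS F LY s)) + k * Real.log B) ≤
      ρ / 8 * δ * PP.card * Real.log P) :
    ρ / 16 * (ρ / 8 * δ) * Fintype.card (SS F LY s) ≤ 2 * H * (Cc + 1) := by
  classical
  have := h.fin
  have hδ0 : 0 ≤ δ := by rw [hδ]; positivity
  have a1 := tup (P := fun l : LY => P1 l.1.1) (Y := Y + 1)
    (fun l => by rw [card_line]; exact Nat.succ_le_succ (hY _ l.2).1.le)
    (fun l => by rw [card_line]; have := (hY _ l.2).2; omega) PP hne Lp hρ.le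
    (by rwa [Fintype.card_coe]) (fun l => univ.filter (SpL F LY sl Y t l)) (card_SpL hn)
    (s := s) (by omega) hs1 (by rw [Fintype.card_coe]; omega)
  let Q : TL LY → Prop := fun y => (∀ l w, y l = some w → w ∉ univ.filter (SpL F LY sl Y t l)) ∧
    ρ / 8 * PP.card ≤ (PP.filter fun v => ρ * s / 4 ≤ (sup y ∩ Lp v).card).card
  let X : Finset (SS F LY s) := univ.filter fun x => Q (ln x.1)
  have hX : ∀ x ∈ X, Q (ln x.1) := fun x hx => (mem_filter.1 hx).2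
  have a2 : ρ / 16 * Fintype.card (SS F LY s) ≤ X.card := by
    rw [show X.card = _ from card_SS_filter Q s, card_SS, Nat.cast_mul, Nat.cast_mul, ← mul_assoc]
    exact mul_le_mul_of_nonneg_right (a1.trans_eq (by congr)) (Nat.cast_nonneg _)
  have a3 := Hb.card_le_hil (fun x : X => c.Φ y x.1.1) (fun x => c.ne h.inH hp _) k
    (θ := (1 - η) ^ 2) (C := Cc) (sq_nonneg _) (fun x => by
      refine le_trans (Nat.cast_le.2 (le_trans ?_ (c.close hS hg (fun l hl => (hY l hl).2) hN h1 h2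
        x.1 fun l w h3 h4 => (hX _ x.2).1 l w h3 (mem_filter.2 ⟨mem_univ _, h4⟩)))) hC
      exact card_le_card_of_injOn Subtype.val (fun z hz => mem_coe.2 (mem_filter.2
        ⟨mem_univ _, c.cls hp (mem_filter.1 (mem_coe.1 hz)).2⟩)) Subtype.val_injective.injOn)
    (le_trans (mul_le_mul_of_nonneg_right (Nat.cast_le.2 (Fintype.card_subtype_le _))
      (by positivity)) hk1)
  have a4 := Hb.hilb2' K (aS hS mu sl LY s) (fun x => c.Φ y x.1) (fun σ x => c.equiv hS mu hp σ x.1)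
    (fun x => c.int hp x.1) hB1 (fun ψ x i => (c.bd hp ψ x.1 i).trans (le_trans (by
      have : (MM (ln x.1) : ℝ) ≤ (2 * Y) ^ s := by
        exact_mod_cast x.2 ▸ MM_le (fun l hl => (hY l hl).2) (ln x.1)
      gcongr) hB)) PP hne hP hPP _ hF X (ρ := ρ / 8) hδ0 (fun x hx => (hX x hx).2.trans
      (Nat.cast_le.2 (card_le_card fun p hp => mem_filter.2 ⟨(mem_filter.1 hp).1,
        hδ ▸ dens_St hS mu hY (by omega) x _ _ (Nat.floor_le_of_le (mem_filter.1 hp).2)⟩))) k hk2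
  rw [Fintype.card_coe] at a3
  have a5 : 0 ≤ Cc + 1 := add_nonneg ((Nat.cast_nonneg _).trans hC) zero_le_one
  have a6 : 0 ≤ ρ / 8 * δ := by positivity
  calc _ = ρ / 16 * Fintype.card (SS F LY s) * (ρ / 8 * δ) := by ring
    _ ≤ hil (fun x : X => c.Φ y x.1.1) k * (Cc + 1) * (ρ / 8 * δ) :=
      mul_le_mul_of_nonneg_right (a2.trans a3) a6
    _ = hil (fun x : X => c.Φ y x.1.1) k * (ρ / 8 * δ) * (Cc + 1) := by ring
    _ ≤ _ := mul_le_mul_of_nonneg_right a4 a5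

omit [Dim] in
theorem last {A S S' T E W C : ℝ} (hS : 0 < S) (hS' : 1 ≤ S') (hT : 1 ≤ T) (hE : 0 ≤ E)
    (hC : 0 ≤ C) (h1 : A * S ≤ 2 * (T * S' + 1) * (C + 1)) (h2 : S' * E ≤ W * S)
    (h3 : 4 * (C + 1) * T * W < A * E) : False := by
  have a1 : 1 ≤ T * S' := one_le_mul_of_one_le_of_one_le hT hS'
  have a2 : A * S ≤ 4 * (C + 1) * T * S' := by nlinarith
  have a3 : 0 ≤ 4 * (C + 1) * T := by positivity
  have a4 := mul_le_mul_of_nonneg_right a2 hE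
  have a5 := mul_le_mul_of_nonneg_left h2 a3
  have a6 := mul_lt_mul_of_pos_right h3 hS
  nlinarith

theorem SS_pos {s : ℕ} (hs : s ≤ LY.card) : 1 ≤ Fintype.card (SS F LY s) := by
  rw [card_SS]
  exact Nat.mul_pos (TT_pos (fun l => Fintype.card_pos) (by rwa [Fintype.card_coe]))
    (prod_pos fun _ _ => Fintype.card_pos)

theorem SS_ratio {Y s j : ℕ} (hY : ∀ l ∈ LY, Y < l.1) (hs : 2 * s ≤ LY.card) (hj : j ≤ s) :
    Fintype.card (SS F LY (s - j)) * (LY.card * Y) ^ j ≤ (2 * s) ^ j * Fintype.card (SS F LY s) := by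
  have := ratio (P := fun l : LY => P1 l.1.1) (Y := Y)
    (fun l => by rw [card_line]; have := hY _ l.2; omega) (by rwa [Fintype.card_coe]) hj
  rw [Fintype.card_coe] at this
  rw [card_SS, card_SS, mul_right_comm, ← mul_assoc]
  exact Nat.mul_le_mul_right _ this

end MG.C1

namespace MG

open Matrix Finset M4 Pool.Agent.M4.Det Pool.Agent.M4.Mx C1

variable [Dim] {e : ℕ} {a b : MZ} {m n : ℕ} {τ : Mat} {K : IntermediateField ℚ ℂ} {r : Rep K}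
  {L : Type} [Field L] {l₁ N₀ : ℕ}

/-- The family, the determinant, case I. -/
theorem caseI (h : AV τ K r) (D : PD e a b m n) {F : Frs e a b L l₁} (hS : Sys F r)
    (mu : MUst r) (hl : LAGRst) (hp : PTSst τ r) (hg : GRAMst τ) (hcb : CBst τ D F r N₀)
    (hn : NOSPst F) (ε : ℤ) : ¬ OUT L ε (Ty τ D F r N₀ ε) := by
  classical
  intro hO
  obtain ⟨Cp, y, hp⟩ := PT.ex hp
  obtain ⟨Cg, η, η0, η1, hg⟩ := GR.ex hg
  obtain ⟨C₁, hsel⟩ := select hS hcb ε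
  obtain ⟨C, c1, c2, c3, c4, c5, c6, c7, c8⟩ : ∃ C : ℕ, 1 ≤ C ∧ Cp ≤ C ∧ Cg ≤ C ∧ C₁ ≤ C ∧
      3 * e ≤ C ∧ Module.finrank ℚ K ≤ C ∧ 3 + 8 * Fintype.card ν ^ 2 ≤ C ∧
      (2 * Cg + 1) ^ Fintype.card ν ^ 2 ≤ C :=
    ⟨1 + Cp + Cg + C₁ + 3 * e + Module.finrank ℚ K + (3 + 8 * Fintype.card ν ^ 2) +
      (2 * Cg + 1) ^ Fintype.card ν ^ 2, by omega⟩
  obtain ⟨θ, Y₀, θ0, hnum⟩ := num C c1 η η0 η1
  obtain ⟨Y₁, hn⟩ := hn θ θ0
  obtain ⟨Y, P, PP, Δ, hY, hP1, hP2, hPP, hT⟩ := hO 8 (Y₀ + Y₁ + l₁ + 2) (by norm_num)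
  obtain ⟨LY, hLY, hn1, hn2⟩ := exists_LY L (l₁ := l₁) (Y := Y) (by omega) ε
  have y2 : 2 ≤ Y := by omega
  have p1 : 2 * Y ≤ P := le_trans (by
    calc 2 * Y ≤ Y ^ 2 := by nlinarith
      _ ≤ Y ^ 8 := Nat.pow_le_pow_right (by omega) (by norm_num)) hP1
  have p2 : (1 : ℝ) < P := by exact_mod_cast (by omega : 1 < P)
  have hne : PP.Nonempty := card_pos.1 (Nat.pos_of_ne_zero fun h0 => by
    rw [h0, Nat.cast_zero, zero_mul] at hPP
    linarith)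
  have l0 : 0 < Real.log Y ^ 2 := pow_pos (Real.log_pos (by exact_mod_cast (by omega : 1 < Y))) 2
  have t1 : ∀ p ∈ PP, (Y : ℝ) / Real.log Y ^ 2 ≤
      (univ.filter fun l : LY => jacobiSym (Δ p) l.1.1 = ε).card := fun p hp =>
    (div_le_iff₀ l0).2 ((hT p hp).2.2.2.trans
      (mul_le_mul_of_nonneg_right (Nat.cast_le.2 (hn2 _ _)) l0.le))
  have t2 : (Y : ℝ) ≤ LY.card * Real.log Y ^ 2 := by
    obtain ⟨p, hp⟩ := hne
    refine (div_le_iff₀ l0).1 ((t1 p hp).trans (Nat.cast_le.2 ?_))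
    exact (card_le_univ _).trans (Fintype.card_coe _).le
  obtain ⟨s, j, t, ρ, hρ, s1, s4, s2, hj, x1, x2, x3, x4, x5, x6⟩ :=
    hnum Y P LY.card PP.card (by omega) hP1 hP2 hPP t2 hn1
  obtain ⟨sl, Lp, φ, c₀, q1, q2, q3⟩ := hsel Y P LY PP Δ _ (by omega) p1 hLY fun p hp =>
    ⟨(hT p hp).1, (hT p hp).2.1, (hT p hp).2.2.1, t1 p hp⟩
  obtain ⟨c⟩ := exists_ch hS hl LY sl
  have pc : (2 * P) ^ C₁ ≤ (2 * P) ^ C := Nat.pow_le_pow_right (by omega) c4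
  have S1 : 1 ≤ Fintype.card (SS F LY s) := SS_pos (by omega)
  obtain ⟨k, k1, k2, k3⟩ := x6 _ S1 ((card_SS_le (fun l hl => (hLY l hl).2) y2 hn1 s).trans
    (Nat.pow_le_pow_right (by omega) (Nat.mul_le_mul_right _ c7)))
  have y3 : (1 : ℝ) ≤ 2 * (2 * Y) ^ s := by
    have : (2 : ℝ) ≤ Y := by exact_mod_cast y2
    exact one_le_mul_of_one_le_of_one_le one_le_two (one_le_pow₀ (by linarith))
  have e1 : (0 : ℝ) < 3 * e := by
    have := D.pel.pos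
    positivity
  have := step c h hS mu hp hg (H := (2 * P) ^ C * Fintype.card (SS F LY (s - j)) + 1)
    (Cc := C) (Lp := Lp) (φ := φ) hLY s1 s4 s2
    (((Nat.pow_le_pow_right (by positivity) c3).trans x4).trans (le_NN fun l hl => (hLY l hl).1))
    x2 ((Nat.mul_le_mul_right _ c3).trans x3) (hn Y t LY (by omega) hLY t2 x1) hne p2
    (fun p hp => by
      obtain ⟨hp', -⟩ := (hT p hp).2.2.1
      exact ⟨hp'.out, Nat.cast_le.2 (hT p hp).1.le⟩)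
    (fun p hp' => by
      obtain ⟨_, v, σ, LL, h', cl, Γ, b1, b2, b3, b4, b5⟩ := q3 p hp'
      refine Hb.fewRed_mono (c.few hS mu hp b1 b2 (fun l hl => ?_) b4 b5 s j)
        (Nat.succ_le_succ (Nat.mul_le_mul_right _ (b3.trans pc))) le_rfl
      have := (hLY l hl).2
      have := (hT p hp').1
      omega) hρ (by
      refine le_trans ?_ q2
      rw [mul_comm]
      refine mul_le_mul_of_nonneg_left (le_trans ?_ ((x5 c₀ (q1.trans pc)).trans ?_))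
        (Nat.cast_nonneg _)
      · exact mul_le_mul_of_nonneg_left (Nat.cast_le.2 hn1) hρ.le
      · have : (3 * e : ℝ) ≤ C := by exact_mod_cast c5
        gcongr) rfl (one_le_pow₀ y3) (pow_le_pow_right₀ y3 c2) (Nat.cast_le.2 c8) k1 (by
      refine le_trans (mul_le_mul_of_nonneg_right ?_ (add_nonneg (Real.log_natCast_nonneg _)
        (mul_nonneg (Nat.cast_nonneg _) (Real.log_nonneg (one_le_pow₀ y3))))) k2
      exact mul_le_mul_of_nonneg_left (Nat.cast_le.2 c6) zero_le_two)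
  push_cast at this
  refine last (Nat.cast_pos.2 S1) (Nat.one_le_cast.2 (SS_pos (s := s - j) (by omega)))
    (one_le_pow₀ (by linarith)) (by positivity) (Nat.cast_nonneg C) this ?_ k3
  exact_mod_cast SS_ratio (F := F) (fun l hl => (hLY l hl).1) s2 hj

end MG
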