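import Pool.Agent.Lib.MP_33b3f9_ag.MG.C1.FDefs
import Pool.Agent.Lib.MP_33b3f9_ag.MG.Hb.Rank
import Pool.Agent.Lib.MP_33b3f9_ag.M4.ThBpf

/-!
Case I: the size of the vectors.
-/

set_option autoImplicit false

noncomputable section

namespace MG.C1

open Matrix Finset M4 Pool.Agent.M4.Det Pool.Agent.M4.Mx Function Polynomial

variable [Dim] {e : ℕ} {a b : MZ} {m n : ℕ} {L : Type} [Field L] {l₁ : ℕ}
  {K : IntermediateField ℚ ℂ} {r : Rep K} {τ : Mat} {F : Frs e a b L l₁}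
  {LY : Finset (GP L l₁)} {sl : GP L l₁ → Fin e × Fin 3} {Cp : ℕ}
  {y : MZ → ℕ → Bits → (ν → ℚ) → ℂ}

omit [Dim] in
theorem vec_pow {N : ℕ} (hN : N ≠ 0) (c : ℤ) (k : ℕ) :
    ee ((c : ℂ) * k / (N : ℂ) ^ 2) ^ N ^ 2 = 1 := by
  have h : (N : ℂ) ≠ 0 := Nat.cast_ne_zero.2 hN
  rw [← ee_nat_mul, ← ee_int (c * k)]
  refine congrArg ee ?_
  push_cast
  field_simp

omit [Dim] in
theorem vec_norm {A : Type} [NormedField A] (φ : ℂ →+* A) {N : ℕ} (hN : N ≠ 0) (c : ℤ) (k : ℕ) :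
    ‖φ (ee ((c : ℂ) * k / (N : ℂ) ^ 2))‖ = 1 := by
  have h := congrArg (fun z => ‖φ z‖) (vec_pow hN c k)
  simp only [map_pow, norm_pow, map_one, norm_one] at h
  exact (pow_eq_one_iff_of_nonneg (norm_nonneg _) (pow_ne_zero 2 hN)).1 h

omit [Dim] in
theorem vec_cong {N : ℕ} (hN : N ≠ 0) {c c' : ℤ} (h : (N : ℤ) ^ 2 ∣ c' - c) (k : ℕ) :
    ee ((c' : ℂ) * k / (N : ℂ) ^ 2) = ee ((c : ℂ) * k / (N : ℂ) ^ 2) := by
  have h0 : (N : ℂ) ≠ 0 := Nat.cast_ne_zero.2 hN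
  obtain ⟨t, ht⟩ := h
  rw [sub_eq_iff_eq_add'.1 ht, ← mul_one (ee ((c : ℂ) * k / (N : ℂ) ^ 2)), ← ee_int (t * k),
    ← ee_add]
  refine congrArg ee ?_
  push_cast
  field_simp

omit [Dim] in
theorem vec_cs {I : Type} [Fintype I] {s t : ℂ} (hs : s ≠ 0) (ht : t ≠ 0) (u w : I → ℂ) :
    Hb.cs (s • u) (t • w) = Hb.cs u w := by
  have h1 : Hb.ip (s • u) (t • w) = s * starRingEnd ℂ t * Hb.ip u w := by
    simp only [Hb.ip, Pi.smul_apply, smul_eq_mul, map_mul, Finset.mul_sum]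
    exact Finset.sum_congr rfl fun i _ => by ring
  have h2 : ∀ (z : ℂ) (f : I → ℂ), Hb.nsq (z • f) = ‖z‖ ^ 2 * Hb.nsq f := fun z f => by
    simp only [Hb.nsq, Pi.smul_apply, smul_eq_mul, norm_mul, mul_pow, Finset.mul_sum]
  have h3 : ‖s‖ ^ 2 * ‖t‖ ^ 2 ≠ 0 :=
    mul_ne_zero (pow_ne_zero 2 (norm_ne_zero_iff.2 hs)) (pow_ne_zero 2 (norm_ne_zero_iff.2 ht))
  rw [Hb.cs, Hb.cs, h1, h2, h2, norm_mul, norm_mul, Complex.norm_conj, mul_pow, mul_pow,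
    mul_mul_mul_comm, mul_div_mul_left _ _ h3]

theorem vec_smul (c : Ch F LY sl) (hp : PT τ r Cp y) (x : XG F LY) :
    ∃ s : ℂ, s ≠ 0 ∧ c.Φ y x = s • c.Ψ τ x := by
  obtain ⟨s, hs, h⟩ := (hp _ _ (c.iso (ln x))).1
  refine ⟨s, hs, funext fun i => ?_⟩
  simp only [Ch.Φ, Ch.Ψ, Phi, Tor, h, Pi.smul_apply, smul_eq_mul]
  ring

theorem Ch.int (c : Ch F LY sl) (hp : PT τ r Cp y) (x : XG F LY) (i : IX LY) :
    IsIntegral ℤ (c.Φ y x i) := by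
  refine IsIntegral.mul ?_ ((hp _ _ (c.iso (ln x))).2.1 _ _)
  refine IsIntegral.of_pow (pow_pos (Nat.pos_of_ne_zero (NN_ne (LY := LY))) 2) ?_
  rw [vec_pow NN_ne]
  exact isIntegral_one

theorem Ch.bd (c : Ch F LY sl) (hp : PT τ r Cp y) (φ : ℂ →+* ℂ) (x : XG F LY) (i : IX LY) :
    ‖φ (c.Φ y x i)‖ ≤ (2 * MM (ln x) : ℝ) ^ Cp := by
  rw [Ch.Φ, Phi, map_mul, norm_mul, vec_norm φ NN_ne, one_mul]
  exact (hp _ _ (c.iso (ln x))).2.2.1 φ _ _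

theorem Ch.ne (c : Ch F LY sl) (hτ : InH τ) (hp : PT τ r Cp y) (x : XG F LY) : c.Φ y x ≠ 0 := by
  obtain ⟨s, hs, h⟩ := vec_smul c hp x
  have h1 := c.iso (ln x)
  have h2 : InH (act (zr (c.g (ln x))) τ) :=
    M4.inH_act h1.2.2 (Nat.cast_pos.2 (Nat.pos_of_ne_zero h1.1.1.ne_zero)) hτ
  obtain ⟨ε, hε⟩ := XX_bpf h2 fun i =>
    ((((c.u x *ᵥ Kz.lift (0 : ν → ZMod (NN LY ^ 2))) i : ℚ) / NN LY : ℚ) : ℝ)
  rw [h]
  refine smul_ne_zero hs fun h0 => ?_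
  exact mul_ne_zero (ee_ne_zero _) hε (congrFun h0 ((ε, 0), 0))

theorem Ch.cls (c : Ch F LY sl) (hp : PT τ r Cp y) {η : ℝ} {x x' : XG F LY}
    (h : (1 - η) ^ 2 < Hb.cs (c.Φ y x) (c.Φ y x')) : Cls η (c.Ψ τ x) (c.Ψ τ x') := by
  obtain ⟨s, hs, h1⟩ := vec_smul c hp x
  obtain ⟨t, ht, h2⟩ := vec_smul c hp x'
  rw [h1, h2, vec_cs hs ht] at h
  exact mul_le_of_le_div₀ (sq_nonneg _) (mul_nonneg (Hb.nsq_nonneg _) (Hb.nsq_nonneg _)) h.le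

theorem Ch.same (c : Ch F LY sl) (hp : PT τ r Cp y) {p : ℕ} [Fact p.Prime]
    {v : ℂ ≃+* PadicAlgCl p} {x x' : XG F LY} (hc : (NN LY : ℤ) ^ 2 ∣ c.c x' - c.c x)
    (h : SameRed v (Tor (xx (act (zr (c.g (ln x))) τ)) (NN LY) (c.u x))
      (Tor (xx (act (zr (c.g (ln x'))) τ)) (NN LY) (c.u x'))) :
    SameRed v (c.Φ y x) (c.Φ y x') := by
  obtain ⟨s, hs, h1⟩ := vec_smul c hp x
  obtain ⟨t, ht, h2⟩ := vec_smul c hp x'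
  obtain ⟨d, d', h3, ⟨i, h4⟩, h5⟩ := h
  have hn : ∀ (k : ℕ) (z : ℂ), ‖v (ee ((c.c x : ℂ) * k / (NN LY : ℂ) ^ 2) * z)‖ = ‖v z‖ :=
    fun k z => by
      have := vec_norm (v : ℂ →+* PadicAlgCl p) (NN_ne (LY := LY)) (c.c x) k
      rw [RingHom.coe_coe] at this
      rw [map_mul, norm_mul, this, one_mul]
  have e1 : ∀ j, d / s * c.Φ y x j = ee ((c.c x : ℂ) * j.2.val / (NN LY : ℂ) ^ 2) *
      (d * Tor (xx (act (zr (c.g (ln x))) τ)) (NN LY) (c.u x) j.1) := fun j => by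
    rw [h1, Pi.smul_apply, smul_eq_mul, ← mul_assoc, div_mul_cancel₀ _ hs, Ch.Ψ, Phi, mul_left_comm]
  have e2 : ∀ j, d' / t * c.Φ y x' j = ee ((c.c x : ℂ) * j.2.val / (NN LY : ℂ) ^ 2) *
      (d' * Tor (xx (act (zr (c.g (ln x'))) τ)) (NN LY) (c.u x') j.1) := fun j => by
    rw [h2, Pi.smul_apply, smul_eq_mul, ← mul_assoc, div_mul_cancel₀ _ ht, Ch.Ψ, Phi, mul_left_comm,
      vec_cong NN_ne hc]
  refine ⟨d / s, d' / t, fun j => ?_, ⟨(i, 0), ?_⟩, fun j => ?_⟩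
  · rw [e2, hn]
    exact h3 _
  · rw [e2, hn]
    exact h4
  · rw [e1, e2, ← mul_sub, hn]
    exact h5 _

end MG.C1
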