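import Pool.Agent.Lib.MP_33b3f9_ag.MG.C1.Eq
import Pool.Agent.Lib.MP_33b3f9_ag.MG.C1.Vec

/-!
Case I: two level structures with the same reduction.
-/

set_option autoImplicit false

noncomputable section

namespace MG.C1

open Matrix Finset M4 Pool.Agent.M4.Det Pool.Agent.M4.Mx Function Polynomial

variable [Dim] {e : ℕ} {a b : MZ} {m n : ℕ} {L : Type} [Field L] {l₁ : ℕ}
  {K : IntermediateField ℚ ℂ} {r : Rep K} {τ : Mat} {F : Frs e a b L l₁}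
  {LY : Finset (GP L l₁)} {sl : GP L l₁ → Fin e × Fin 3} {Cp : ℕ}
  {y : MZ → ℕ → Bits → (ν → ℚ) → ℂ}

section loc

theorem pair_left {R : Type} [Field R] {g h : Matrix ν ν R} {μ ρ : R} (hg : Sm g μ) (hμ : μ ≠ 0)
    (h1 : Sm (g * h) ρ) : Sm h (ρ / μ) := by
  have h2 : μ • (hᵀ * J ι R * h) = ρ • J ι R := by
    rw [← h1, transpose_mul, ← Matrix.smul_mul, ← Matrix.mul_smul, ← hg]
    simp only [Matrix.mul_assoc]
  rw [Sm, div_eq_inv_mul, ← smul_smul, ← h2, smul_smul, inv_mul_cancel₀ hμ, one_smul]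

theorem pair_right {R : Type} [Field R] {g h : Matrix ν ν R} {μ : R} (hg : Sm g μ) (hμ : μ ≠ 0)
    (h1 : Sm (h * g) μ) : Sm h 1 := by
  obtain ⟨u, rfl⟩ := hg.isUnit hμ.isUnit
  have h2 := h1.mul (pair_left (h := u.inv) hg hμ (u.val_inv ▸ Sm.one))
  rwa [Matrix.mul_assoc, u.val_inv, Matrix.mul_one, mul_one_div_cancel hμ] at h2

theorem pair_ne {g : MZ} {M : ℕ} (h : Iso g M) (R : Type) [Field R] [CharZero R] : (M : R) ≠ 0 :=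
  Nat.cast_ne_zero.2 h.1.1.ne_zero

variable {l : ℕ} [Fact l.Prime]

theorem pair_sm {g g' k k' : MZ} {M M' N N' : ℕ} (hg : Iso g M) (hg' : Iso g' M') (hk : Iso k N)
    (hk' : Iso k' N') (h : M * N' = M' * N) {E : Matrix ν ν ℚ_[l]} {W W' : Matrix ν ν ℤ_[l]}
    (hW : Sm W 1) (h1 : zM ℚ_[l] k' * E = W.map (cq l) * zM ℚ_[l] k)
    (h2 : zM ℚ_[l] g' * E = W'.map (cq l) * zM ℚ_[l] g) : Sm W' 1 := by
  have h3 := (hW.map (cq l)).mul (sm_zM hk.2.2 ℚ_[l])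
  rw [← h1, map_one, one_mul] at h3
  have h4 := (sm_zM hg'.2.2 ℚ_[l]).mul (pair_left (sm_zM hk'.2.2 ℚ_[l]) (pair_ne hk' _) h3)
  have h5 : (M' : ℚ_[l]) * (N / N') = M := by
    rw [← mul_div_assoc, div_eq_iff (pair_ne hk' _), ← Nat.cast_mul, ← h, Nat.cast_mul]
  rw [h2, h5] at h4
  refine Sm.of_map cq_inj ?_
  rw [map_one]
  exact pair_right (sm_zM hg.2.2 ℚ_[l]) (pair_ne hg _) h4

theorem pair_iff {A : Matrix ν ν ℤ_[l]} : (∀ i j, (32 : ℤ_[l]) ∣ (A - 1) i j) ↔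
    (Ideal.Quotient.mk (Ideal.span {(32 : ℤ_[l])})).mapMatrix A = 1 := by
  rw [← map_one (Ideal.Quotient.mk (Ideal.span {(32 : ℤ_[l])})).mapMatrix, ← Matrix.ext_iff]
  refine forall₂_congr fun i j => ?_
  rw [← Ideal.mem_span_singleton, Matrix.sub_apply, ← Ideal.Quotient.eq]
  rfl

theorem pair_lev {g : MZ} (h : Lev g) :
    (Ideal.Quotient.mk (Ideal.span {(32 : ℤ_[l])})).mapMatrix (zM ℤ_[l] g) = 1 :=
  pair_iff.1 fun i j => by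
    have h1 := map_dvd (Int.castRingHom ℤ_[l]) (h i j)
    simpa [one_apply] using h1

theorem pair_out {g g' k k' : MZ} {M M' N N' : ℕ} (hg : Iso g M) (hg' : Iso g' M') (hk : Iso k N)
    (hk' : Iso k' N') (hM : IsUnit (M : ℤ_[l])) (hN : IsUnit (N' : ℤ_[l]))
    {E : Matrix ν ν ℚ_[l]} {W : Matrix ν ν ℤ_[l]} (hW : ∀ i j, (32 : ℤ_[l]) ∣ (W - 1) i j)
    (h1 : zM ℚ_[l] k' * E = W.map (cq l) * zM ℚ_[l] k) :
    ∃ W' : Matrix ν ν ℤ_[l], zM ℚ_[l] g' * E = W'.map (cq l) * zM ℚ_[l] g ∧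
      ∀ i j, (32 : ℤ_[l]) ∣ (W' - 1) i j := by
  obtain ⟨u, hu⟩ := ((sm_zM hg.2.2 ℤ_[l]).isUnit hM).exists_left_inv
  obtain ⟨w, hw⟩ := ((sm_zM hk'.2.2 ℤ_[l]).isUnit hN).exists_left_inv
  refine ⟨zM ℤ_[l] g' * w * W * zM ℤ_[l] k * u, ?_, pair_iff.2 ?_⟩
  · rw [← zM_map (cq l) g, ← Matrix.map_mul, Matrix.mul_assoc _ u, hu, Matrix.mul_one,
      Matrix.mul_assoc, Matrix.map_mul, Matrix.map_mul (L := W), zM_map, ← h1, ← Matrix.mul_assoc,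
      ← zM_map (cq l) k', ← Matrix.map_mul, Matrix.mul_assoc _ w, hw, Matrix.mul_one, zM_map]
  · have h2 := congrArg (Ideal.Quotient.mk (Ideal.span {(32 : ℤ_[l])})).mapMatrix hu
    have h3 := congrArg (Ideal.Quotient.mk (Ideal.span {(32 : ℤ_[l])})).mapMatrix hw
    rw [map_mul, pair_lev hg.2.1, mul_one, map_one] at h2
    rw [map_mul, pair_lev hk'.2.1, mul_one, map_one] at h3
    simp only [map_mul, h2, h3, pair_iff.1 hW, pair_lev hg'.2.1, pair_lev hk.2.1, mul_one]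

omit [Dim] in
theorem pair_unit (h : l ≡ 1 [MOD 32]) : IsUnit (32 : ℤ_[l]) := by
  refine unit_nat (M := 32) fun h1 => ?_
  have h2 : l ∣ 2 := (Fact.out : l.Prime).dvd_of_dvd_pow (n := 5) h1
  rw [(Nat.prime_dvd_prime_iff_eq Fact.out Nat.prime_two).1 h2] at h
  exact absurd h (by decide)

end loc

theorem Ch.pair (c : Ch F LY sl) (hS : Sys F r) (hp : PT τ r Cp y) {D : PD e a b m n} {N₀ p : ℕ}
    [Fact p.Prime] {v : ℂ ≃+* PadicAlgCl p} {σ : ℂ ≃ₐ[K] ℂ} (hF : Frob τ D r N₀ v σ)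
    (hY : ∀ l ∈ LY, l.1 ≠ p) {x x' : XG F LY} {κ κ' : TL LY} {δ : D.E[X]} {c₀ : ℕ}
    {W : ∀ (l : ℕ) [Fact l.Prime], Matrix ν ν ℤ_[l]} (h1 : ∀ k, δ.coeff k ∈ D.A) (h2 : ¬ p ∣ c₀)
    (h3 : ∀ (l : ℕ) [Fact l.Prime], l ≠ p →
      zM ℚ_[l] (c.g κ') * D.ev r l σ (1 + C ((p : D.E) ^ N₀ / c₀) * δ) =
        (W l).map ((↑) : ℤ_[l] → ℚ_[l]) * zM ℚ_[l] (c.g κ) ∧
      (W l)ᵀ * Matrix.J ι ℤ_[l] * W l = Matrix.J ι ℤ_[l] ∧ ∀ i j, (32 : ℤ_[l]) ∣ (W l - 1) i j)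
    (h4 : MM (ln x) * MM κ' = MM (ln x') * MM κ) (h5 : MM (ln x) ≡ MM (ln x') [MOD p ^ N₀])
    (h6 : ∀ l : LY, ∃ γ : GL ν ℚ_[l.1.1],
      γ.1 = D.ev r l.1.1 σ (1 + C ((p : D.E) ^ N₀ / c₀) * δ) ∧
        emb (sl l.1) (x' l) = γ • emb (sl l.1) (x l)) : SameRed v (c.Φ y x) (c.Φ y x') := by
  have k1 : ∀ (l : ℕ) [Fact l.Prime], ∃ W' : Matrix ν ν ℤ_[l], l ≠ p →
      (zM ℚ_[l] (c.g (ln x')) * D.ev r l σ (1 + C ((p : D.E) ^ N₀ / c₀) * δ) =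
        W'.map (cq l) * zM ℚ_[l] (c.g (ln x)) ∧ ∀ i j, (32 : ℤ_[l]) ∣ (W' - 1) i j) ∧
      ∀ i j, ((NN LY ^ 2 : ℕ) : ℤ_[l]) ∣
        (W' * zM ℤ_[l] (c.u x) - zM ℤ_[l] (c.u x')) i j := fun l _ => by
    refine all_primes (LY := LY) (p := fun l _ => ∃ W' : Matrix ν ν ℤ_[l], l ≠ p →
      (zM ℚ_[l] (c.g (ln x')) * D.ev r l σ (1 + C ((p : D.E) ^ N₀ / c₀) * δ) =
        W'.map (cq l) * zM ℚ_[l] (c.g (ln x)) ∧ ∀ i j, (32 : ℤ_[l]) ∣ (W' - 1) i j) ∧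
      ∀ i j, ((NN LY ^ 2 : ℕ) : ℤ_[l]) ∣ (W' * zM ℤ_[l] (c.u x) - zM ℤ_[l] (c.u x')) i j)
      (fun l => ?_) (fun l _ hl => ?_) l
    · obtain ⟨γ, e1, e2⟩ := h6 l
      obtain ⟨W', e3, e4⟩ := c.W e2
      exact ⟨W', fun _ => ⟨⟨e1 ▸ e3, fun i j => (pair_unit (hS.l32 l.1)).dvd⟩, e4⟩⟩
    · by_cases e : l = p
      · exact ⟨0, fun h => absurd e h⟩
      obtain ⟨W', e3⟩ := pair_out (c.iso (ln x)) (c.iso (ln x')) (c.iso κ) (c.iso κ')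
        (MM_unit hl _) (MM_unit hl _) (h3 l e).2.2 (h3 l e).1
      exact ⟨W', fun _ => ⟨e3, fun i j => (NN_unit hl).dvd⟩⟩
  choose W' hW using k1
  have k2 : ∀ (l : ℕ) [Fact l.Prime], l ≠ p → Sm (W' l) 1 := fun l _ e =>
    pair_sm (c.iso (ln x)) (c.iso (ln x')) (c.iso κ) (c.iso κ') h4
      ((h3 l e).2.1.trans (one_smul _ _).symm) (h3 l e).1 (hW l e).1.1
  have k3 : ∀ z : TL LY, ¬ p ∣ MM z := fun z h => by
    obtain ⟨l, -, e⟩ := (dvd_MM Fact.out).1 h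
    exact hY l.1 l.2 e
  refine c.same hp (dvd_of_loc fun l => ?_) (hF.few δ c₀ _ _ _ _ W' h1 h2 (c.iso _) (c.iso _)
    (k3 _) (k3 _) h5 (fun l _ e => ⟨(hW l e).1.1, (k2 l e).trans (one_smul _ _), (hW l e).1.2⟩)
    _ _ _ (fun h => ?_) fun l _ e => (hW l e).2)
  · have h := c.mult l (k2 _ (hY l.1 l.2)) (hW _ (hY l.1 l.2)).2
    rwa [one_mul, ← Int.cast_sub] at h
  · obtain ⟨l, hl, e⟩ := (dvd_NN Fact.out).1 h
    exact hY l hl e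

end MG.C1
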